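import Mathlib
import Pool.Agent.Helper466.Starter.Base2
import Pool.Agent.Helper466.Starter.Layer

set_option autoImplicit false

/-!
A symmetric description of blocks: the vertices of a block are indexed by a set `T`, mapped
bijectively onto the left cosets of `H`, an involution `ρ` of `T` gives the edges, and the
difference seen from the vertex `t` is `d t = x t * h t * (x (ρ t))⁻¹` with `h t ∈ H`.
-/

namespace Pool.Agent.Y346.ST

open Pool.Agent.Helper466.Starter

universe u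

variable {G : Type u} [Group G]

/-- data of a symmetric block; the difference `1` is still allowed -/
structure Pre {G : Type u} [Group G] (T : Type u) [Fintype T] (H : Subgroup G) (x : T → G)
    (ρ : T → T) (h : T → G) : Prop where
  inj : ∀ t r, (x t)⁻¹ * x r ∈ H → t = r
  card : Fintype.card T = H.index
  invol : ∀ t, ρ (ρ t) = t
  mem : ∀ t, h t ∈ H
  symm : ∀ t, h (ρ t) = (h t)⁻¹
  dinj : ∀ t r, x t * h t * (x (ρ t))⁻¹ = x r * h r * (x (ρ r))⁻¹ → t = r

/-- the set of differences of a symmetric block -/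
def BlkS (D : Finset G) : Prop :=
  ∃ (T : Type u) (_ : Fintype T) (H : Subgroup G) (x : T → G) (ρ : T → T) (h : T → G),
    Pre T H x ρ h ∧ (∀ t, x t * h t * (x (ρ t))⁻¹ ≠ 1) ∧
    ∀ g, g ∈ D ↔ ∃ t, x t * h t * (x (ρ t))⁻¹ = g

theorem Pre.d_symm {T : Type u} [Fintype T] {H : Subgroup G} {x : T → G} {ρ : T → T} {h : T → G}
    (hp : Pre T H x ρ h) (t : T) :
    x (ρ t) * h (ρ t) * (x (ρ (ρ t)))⁻¹ = (x t * h t * (x (ρ t))⁻¹)⁻¹ := by
  rw [hp.invol, hp.symm]
  group

theorem BlkS.toBlk [Finite G] {D : Finset G} (hD : BlkS D) : Blk D := by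
  classical
  obtain ⟨T, hT, H, x, ρ, h, hp, hne, hmem⟩ := hD
  let e := Fintype.equivFin T
  let ι := {t : T // e t < e (ρ t)}
  let κ := {t : T // ρ t = t}
  set d : T → G := fun t => x t * h t * (x (ρ t))⁻¹ with hd
  have hdi : ∀ t, d (ρ t) = (d t)⁻¹ := fun t => hp.d_symm t
  have hdinj : Function.Injective d := fun t r htr => hp.dinj t r htr
  let ψ : (ι ⊕ ι) ⊕ κ → T := Sum.elim (Sum.elim (fun i => i.1) (fun i => ρ i.1)) (fun j => j.1)
  have hψi : Function.Injective ψ := by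
    rintro ((i | i) | i) ((j | j) | j) hij
    · have : i = j := Subtype.ext hij
      rw [this]
    · exfalso
      have h1 : i.1 = ρ j.1 := hij
      have h2 := i.2
      rw [h1, hp.invol] at h2
      exact absurd h2 (not_lt.2 j.2.le)
    · exfalso
      have h1 : i.1 = j.1 := hij
      have h2 := i.2
      rw [h1, j.2] at h2
      exact lt_irrefl _ h2
    · exfalso
      have h1 : ρ i.1 = j.1 := hij
      have h2 := j.2
      rw [← h1, hp.invol] at h2
      exact absurd h2 (not_lt.2 i.2.le)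
    · have h1 : ρ i.1 = ρ j.1 := hij
      have h2 : i.1 = j.1 := by rw [← hp.invol i.1, h1, hp.invol]
      have : i = j := Subtype.ext h2
      rw [this]
    · exfalso
      have h1 : ρ i.1 = j.1 := hij
      have h3 : i.1 = j.1 := by
        rw [← hp.invol i.1, h1, j.2]
      have h2 := i.2
      rw [h3, j.2] at h2
      exact lt_irrefl _ h2
    · exfalso
      have h1 : i.1 = j.1 := hij
      have h2 := j.2
      rw [← h1, i.2] at h2
      exact lt_irrefl _ h2
    · exfalso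
      have h1 : i.1 = ρ j.1 := hij
      have h3 : j.1 = i.1 := by
        rw [← hp.invol j.1, ← h1, i.2]
      have h2 := j.2
      rw [h3, i.2] at h2
      exact lt_irrefl _ h2
    · have : i = j := Subtype.ext hij
      rw [this]
  have hψs : Function.Surjective ψ := by
    intro t
    rcases lt_trichotomy (e t) (e (ρ t)) with h1 | h1 | h1
    · exact ⟨Sum.inl (Sum.inl ⟨t, h1⟩), rfl⟩
    · exact ⟨Sum.inr ⟨t, (e.injective h1).symm⟩, rfl⟩
    · refine ⟨Sum.inl (Sum.inr ⟨ρ t, ?_⟩), hp.invol t⟩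
      rw [hp.invol]
      exact h1
  have hcardψ : Fintype.card ((ι ⊕ ι) ⊕ κ) = Fintype.card T := Fintype.card_of_bijective ⟨hψi, hψs⟩
  have hD1 : ∀ i : ι, x i.1 * (x (ρ i.1) * (h i.1)⁻¹)⁻¹ = d i.1 := by
    intro i
    rw [hd]
    simp only
    group
  have hD2 : ∀ i : ι, x (ρ i.1) * (h i.1)⁻¹ * (x i.1)⁻¹ = d (ρ i.1) := by
    intro i
    rw [hdi, hd]
    simp only
    group
  have hD3 : ∀ j : κ, x j.1 * (x j.1 * h j.1)⁻¹ = d j.1 := by
    intro j
    have h1 := hp.symm j.1
    rw [j.2] at h1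
    have h2 : d j.1 = x j.1 * h j.1 * (x j.1)⁻¹ := by rw [hd]; simp only; rw [j.2]
    rw [h2]
    nth_rewrite 2 [h1]
    group
  refine Blk.mk' (ι := ι) (κ := κ) H (fun i => x i.1) (fun i => x (ρ i.1) * (h i.1)⁻¹)
    (fun j => x j.1) (fun j => x j.1 * h j.1) ?_ ?_ ?_ ?_ D ?_ ?_
  · intro i hi
    rw [hD1] at hi
    have h1 : d (ρ i.1) = d i.1 := by
      rw [hdi]
      exact inv_eq_of_mul_eq_one_left hi
    have h2 := i.2
    rw [hdinj h1] at h2
    exact lt_irrefl _ h2
  · intro j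
    refine ⟨h j.1, hp.mem _, ?_, ?_, rfl⟩
    · intro h1
      apply hne j.1
      rw [h1, j.2]
      group
    · have h1 := hp.symm j.1
      rw [j.2] at h1
      nth_rewrite 2 [h1]
      group
  · have hV : ∀ a, (Sum.elim (Sum.elim (fun i : ι => ((x i.1 : G) : G ⧸ H))
        (fun i : ι => ((x (ρ i.1) * (h i.1)⁻¹ : G) : G ⧸ H))) (fun j : κ => ((x j.1 : G) : G ⧸ H))) a
        = ((x (ψ a) : G) : G ⧸ H) := by
      rintro ((i | i) | i)
      · rfl
      · show ((x (ρ i.1) * (h i.1)⁻¹ : G) : G ⧸ H) = ((x (ρ i.1) : G) : G ⧸ H)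
        rw [QuotientGroup.eq]
        have : (x (ρ i.1) * (h i.1)⁻¹)⁻¹ * x (ρ i.1) = h i.1 := by group
        rw [this]
        exact hp.mem _
      · rfl
    intro a b hab
    rw [hV, hV, QuotientGroup.eq] at hab
    exact hψi (hp.inj _ _ hab)
  · have h5 := hcardψ
    rw [Fintype.card_sum, Fintype.card_sum] at h5
    have h6 := hp.card
    omega
  · have hV : ∀ a, (Sum.elim (Sum.elim (fun i : ι => x i.1 * (x (ρ i.1) * (h i.1)⁻¹)⁻¹)
        (fun i : ι => x (ρ i.1) * (h i.1)⁻¹ * (x i.1)⁻¹)) (fun j : κ => x j.1 * (x j.1 * h j.1)⁻¹)) a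
        = d (ψ a) := by
      rintro ((i | i) | i)
      · exact hD1 i
      · exact hD2 i
      · exact hD3 i
    intro a b hab
    rw [hV, hV] at hab
    exact hψi (hdinj hab)
  · intro g
    rw [hmem]
    constructor
    · rintro ⟨t, ht⟩
      obtain ⟨a, rfl⟩ := hψs t
      rcases a with ((i | i) | i)
      · exact Or.inl ⟨i, by rw [hD1]; exact ht⟩
      · exact Or.inr (Or.inl ⟨i, by rw [hD2]; exact ht⟩)
      · exact Or.inr (Or.inr ⟨i, by rw [hD3]; exact ht⟩)
    · rintro (⟨i, hi⟩ | ⟨i, hi⟩ | ⟨i, hi⟩)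
      · exact ⟨i.1, by rw [← hi, hD1]⟩
      · exact ⟨ρ i.1, by rw [← hi, hD2]⟩
      · exact ⟨i.1, by rw [← hi, hD3]⟩

theorem short_of_sq {e : G × G} (hne : e.1 ≠ e.2)
    (h : (e.1 * e.2⁻¹) * (e.1 * e.2⁻¹) = 1) : IsShort e := by
  have h1 : e.1 * e.2⁻¹ = e.2 * e.1⁻¹ := by
    have := mul_eq_one_iff_eq_inv.1 h
    rw [this]
    group
  have h2 : e.2 * e.1⁻¹ * e.2 = e.1 := by rw [← h1]; group
  refine ⟨e.1⁻¹ * e.2, ⟨?_, ?_⟩, ?_⟩
  · intro h3
    apply hne
    rw [inv_mul_eq_one] at h3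
    exact h3
  · calc e.1⁻¹ * e.2 * (e.1⁻¹ * e.2) = e.1⁻¹ * (e.2 * e.1⁻¹ * e.2) := by group
      _ = 1 := by rw [h2]; group
  · rw [fixes_iff hne]
    right
    refine ⟨by group, ?_⟩
    rw [← mul_assoc]
    exact h2

theorem Blk.toS [Finite G] {D : Finset G} (hD : Blk D) : BlkS D := by
  classical
  obtain ⟨S, H, hSne, hSD, hSV, hSH⟩ := hD
  let L := {e : G × G // e ∈ S ∧ ¬ IsShort e}
  let K := {e : G × G // e ∈ S ∧ IsShort e}
  have : Fintype L := Fintype.subtype (S.filter (fun e => ¬ IsShort e)) (fun e => by simp)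
  have : Fintype K := Fintype.subtype (S.filter (fun e => IsShort e)) (fun e => by simp)
  have : Fintype (G ⧸ H) := Fintype.ofFinite _
  let x : (L ⊕ L) ⊕ K → G := Sum.elim (Sum.elim (fun e => e.1.1) (fun e => e.1.2)) (fun e => e.1.1)
  let ρ : (L ⊕ L) ⊕ K → (L ⊕ L) ⊕ K := Sum.elim (Sum.elim (fun e => Sum.inl (Sum.inr e))
    (fun e => Sum.inl (Sum.inl e))) (fun e => Sum.inr e)
  let h : (L ⊕ L) ⊕ K → G := Sum.elim (Sum.elim (fun e => 1) (fun e => 1))
    (fun e => e.1.1⁻¹ * e.1.2)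
  have hK : ∀ e : K, (e.1.1⁻¹ * e.1.2) * (e.1.1⁻¹ * e.1.2) = 1 ∧ e.1.1⁻¹ * e.1.2 ∈ H := by
    intro e
    obtain ⟨g, hg, hf⟩ := e.2.2
    have h1 := hf
    rw [fixes_iff (hSne e.1 e.2.1)] at h1
    rcases h1 with h1 | ⟨h1, h2⟩
    · exact absurd h1 hg.1
    · have h3 : e.1.1⁻¹ * e.1.2 = g := by rw [← h1]; group
      rw [h3]
      exact ⟨hg.2, hSH e.1 e.2.1 e.2.2 g hg hf⟩
  set d : (L ⊕ L) ⊕ K → G := fun t => x t * h t * (x (ρ t))⁻¹ with hd
  have d1 : ∀ e : L, d (Sum.inl (Sum.inl e)) = e.1.1 * e.1.2⁻¹ := by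
    intro e
    show e.1.1 * 1 * e.1.2⁻¹ = _
    rw [mul_one]
  have d2 : ∀ e : L, d (Sum.inl (Sum.inr e)) = e.1.2 * e.1.1⁻¹ := by
    intro e
    show e.1.2 * 1 * e.1.1⁻¹ = _
    rw [mul_one]
  have d3 : ∀ e : K, d (Sum.inr e) = e.1.1 * e.1.2⁻¹ := by
    intro e
    show e.1.1 * (e.1.1⁻¹ * e.1.2) * e.1.1⁻¹ = _
    have h1 := (hK e).1
    have h2 : e.1.1⁻¹ * e.1.2 = (e.1.1⁻¹ * e.1.2)⁻¹ := mul_eq_one_iff_eq_inv.1 h1
    rw [h2]
    group
  have hDsum : D.val = Multiset.map d Finset.univ.val := by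
    have e1 : Multiset.map d Finset.univ.val = ∑ t, ({d t} : Multiset G) := by
      rw [Finset.sum_eq_multiset_sum]
      have : Multiset.map (fun t => ({d t} : Multiset G)) Finset.univ.val =
          Multiset.map (fun a => ({a} : Multiset G)) (Multiset.map d Finset.univ.val) := by
        rw [Multiset.map_map]
        rfl
      rw [this, Multiset.sum_map_singleton]
    rw [e1, ← hSD, Fintype.sum_sum_type, Fintype.sum_sum_type]
    rw [← Finset.sum_filter_add_sum_filter_not S (fun e => ¬ IsShort e)]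
    congr 1
    · rw [← Finset.sum_add_distrib]
      rw [Finset.sum_subtype (S.filter (fun e => ¬ IsShort e)) (p := fun e => e ∈ S ∧ ¬ IsShort e)
        (fun e => by simp)]
      refine Finset.sum_congr rfl ?_
      intro e _
      rw [d1, d2, bdry, if_neg e.2.2]
      rfl
    · rw [Finset.sum_subtype (S.filter (fun e => ¬ ¬ IsShort e)) (p := fun e => e ∈ S ∧ IsShort e)
        (fun e => by simp)]
      refine Finset.sum_congr rfl ?_
      intro e _
      rw [d3, bdry, if_pos e.2.2]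
  have hVsum : ∑ e ∈ S, verts e = Multiset.map x Finset.univ.val := by
    have e1 : Multiset.map x Finset.univ.val = ∑ t, ({x t} : Multiset G) := by
      rw [Finset.sum_eq_multiset_sum]
      have : Multiset.map (fun t => ({x t} : Multiset G)) Finset.univ.val =
          Multiset.map (fun a => ({a} : Multiset G)) (Multiset.map x Finset.univ.val) := by
        rw [Multiset.map_map]
        rfl
      rw [this, Multiset.sum_map_singleton]
    rw [e1, Fintype.sum_sum_type, Fintype.sum_sum_type]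
    rw [← Finset.sum_filter_add_sum_filter_not S (fun e => ¬ IsShort e)]
    congr 1
    · rw [← Finset.sum_add_distrib]
      rw [Finset.sum_subtype (S.filter (fun e => ¬ IsShort e)) (p := fun e => e ∈ S ∧ ¬ IsShort e)
        (fun e => by simp)]
      refine Finset.sum_congr rfl ?_
      intro e _
      rw [verts, if_neg e.2.2]
      rfl
    · rw [Finset.sum_subtype (S.filter (fun e => ¬ ¬ IsShort e)) (p := fun e => e ∈ S ∧ IsShort e)
        (fun e => by simp)]
      refine Finset.sum_congr rfl ?_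
      intro e _
      rw [verts, if_pos e.2.2]
      rfl
  have hdinj : Function.Injective d := by
    have h1 : (Multiset.map d Finset.univ.val).Nodup := hDsum ▸ D.nodup
    intro a b hab
    exact Multiset.inj_on_of_nodup_map h1 a (Finset.mem_univ a) b (Finset.mem_univ b) hab
  have hcount : ∀ q : G ⧸ H, (Multiset.map (fun t => ((x t : G) : G ⧸ H)) Finset.univ.val).count q
      = 1 := by
    intro q
    have := hSV q
    rw [hVsum, Multiset.map_map] at this
    exact this
  have hVinj : Function.Injective (fun t => ((x t : G) : G ⧸ H)) := by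
    have h1 : (Multiset.map (fun t => ((x t : G) : G ⧸ H)) Finset.univ.val).Nodup := by
      rw [Multiset.nodup_iff_count_le_one]
      intro q
      rw [hcount]
    intro a b hab
    exact Multiset.inj_on_of_nodup_map h1 a (Finset.mem_univ a) b (Finset.mem_univ b) hab
  have hVsurj : Function.Surjective (fun t => ((x t : G) : G ⧸ H)) := by
    intro q
    have h1 : q ∈ Multiset.map (fun t => ((x t : G) : G ⧸ H)) Finset.univ.val := by
      rw [← Multiset.count_pos, hcount]
      exact one_pos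
    obtain ⟨t, _, ht⟩ := Multiset.mem_map.1 h1
    exact ⟨t, ht⟩
  refine ⟨(L ⊕ L) ⊕ K, inferInstance, H, x, ρ, h, ⟨?_, ?_, ?_, ?_, ?_, ?_⟩, ?_, ?_⟩
  · intro t r htr
    apply hVinj
    show ((x t : G) : G ⧸ H) = ((x r : G) : G ⧸ H)
    rw [QuotientGroup.eq]
    exact htr
  · rw [Fintype.card_of_bijective ⟨hVinj, hVsurj⟩, Subgroup.index, Nat.card_eq_fintype_card]
  · rintro ((e | e) | e) <;> rfl
  · rintro ((e | e) | e)
    · exact H.one_mem
    · exact H.one_mem
    · exact (hK e).2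
  · rintro ((e | e) | e)
    · show (1 : G) = 1⁻¹
      simp
    · show (1 : G) = 1⁻¹
      simp
    · show e.1.1⁻¹ * e.1.2 = (e.1.1⁻¹ * e.1.2)⁻¹
      exact mul_eq_one_iff_eq_inv.1 (hK e).1
  · intro t r htr
    exact hdinj htr
  · rintro ((e | e) | e) h1
    · have h2 : d (Sum.inl (Sum.inl e)) = 1 := h1
      rw [d1, mul_inv_eq_one] at h2
      exact hSne e.1 e.2.1 h2
    · have h2 : d (Sum.inl (Sum.inr e)) = 1 := h1
      rw [d2, mul_inv_eq_one] at h2
      exact hSne e.1 e.2.1 h2.symm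
    · have h2 : d (Sum.inr e) = 1 := h1
      rw [d3, mul_inv_eq_one] at h2
      exact hSne e.1 e.2.1 h2
  · intro g
    rw [← Finset.mem_val, hDsum, Multiset.mem_map]
    constructor
    · rintro ⟨t, _, ht⟩
      exact ⟨t, ht⟩
    · rintro ⟨t, ht⟩
      exact ⟨t, Finset.mem_univ t, ht⟩

end Pool.Agent.Y346.ST
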