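import Mathlib
import Pool.Agent.Y346.ST.Sym

set_option autoImplicit false

/-!
Lifting blocks along a split extension `1 → N → G → P → 1` with `N = π.ker` of odd order.
-/

namespace Pool.Agent.Y346.ST

open Pool.Agent.Helper466.Starter

universe u

variable {G P : Type u} [Group G] [Group P]

theorem sq_inj {K : Subgroup G} [Finite G] (hodd : Odd (Nat.card K)) {a b : K}
    (h : a * a = b * b) : a = b := by
  have hc : (Nat.card K).Coprime 2 := Nat.coprime_two_right.2 hodd
  apply (powCoprime hc).injective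
  simp only [powCoprime_apply, pow_two]
  exact h

theorem sq_surj {K : Subgroup G} [Finite G] (hodd : Odd (Nat.card K)) (b : K) :
    ∃ a : K, a * a = b := by
  have hc : (Nat.card K).Coprime 2 := Nat.coprime_two_right.2 hodd
  obtain ⟨a, ha⟩ := (powCoprime hc).surjective b
  refine ⟨a, ?_⟩
  simp only [powCoprime_apply, pow_two] at ha
  exact ha

theorem sq_one {K : Subgroup G} [Finite G] (hodd : Odd (Nat.card K)) {a : K}
    (h : a * a = 1) : a = 1 := by
  apply sq_inj hodd
  rw [h, one_mul]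

/-- the twisted inverse `k⁻¹ a⁻¹ k` in the kernel -/
def tw (π : G →* P) (k : G) (a : π.ker) : π.ker :=
  ⟨k⁻¹ * (a : G)⁻¹ * k, by
    rw [MonoidHom.mem_ker]
    simp only [map_mul, map_inv]
    rw [show π (a : G) = 1 from a.2]
    simp⟩

theorem coe_tw (π : G →* P) (k : G) (a : π.ker) : ((tw π k a : π.ker) : G) = k⁻¹ * (a : G)⁻¹ * k :=
  rfl

/-- lifting of symmetric data -/
theorem Pre.lift [Finite G] [Finite P] (π : G →* P) (s : P →* G) (hs : ∀ p, π (s p) = p)
    (hodd : Odd (Nat.card π.ker)) [Fintype π.ker]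
    {T : Type u} [Fintype T] {H : Subgroup P} {x : T → P} {ρ : T → T} {h : T → P}
    (hp : Pre T H x ρ h) :
    Pre (π.ker × T) (H.map s) (fun t => (t.1 : G) * s (x t.2))
      (fun t => (tw π (s (x t.2 * h t.2 * (x (ρ t.2))⁻¹)) t.1, ρ t.2)) (fun t => s (h t.2)) := by
  have hsinj : Function.Injective s := fun a b hab => by rw [← hs a, hab, hs]
  have hker : ∀ a : π.ker, π (a : G) = 1 := fun a => a.2
  have hdd : ∀ t : π.ker × T, (t.1 : G) * s (x t.2) * s (h t.2) *
      ((tw π (s (x t.2 * h t.2 * (x (ρ t.2))⁻¹)) t.1 : G) * s (x (ρ t.2)))⁻¹ =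
      (t.1 : G) * (t.1 : G) * s (x t.2 * h t.2 * (x (ρ t.2))⁻¹) := by
    intro t
    rw [coe_tw]
    simp only [map_mul, map_inv]
    group
  refine ⟨?_, ?_, ?_, ?_, ?_, ?_⟩
  · rintro ⟨a, t⟩ ⟨b, r⟩ hab
    simp only at hab
    obtain ⟨y, hy, hy2⟩ := hab
    have h1 : (x t)⁻¹ * x r = y := by
      have := congrArg π hy2
      rw [hs] at this
      rw [this]
      simp only [map_mul, map_inv, hs, hker, one_mul]
    have htr : t = r := hp.inj t r (h1 ▸ hy)
    subst htr
    have hy1 : y = 1 := by rw [← h1]; group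
    rw [hy1, map_one] at hy2
    have h2 : (a : G) = b := by
      have h3 : ((a : G) * s (x t))⁻¹ * ((b : G) * s (x t)) = 1 := hy2.symm
      rw [inv_mul_eq_one] at h3
      exact mul_right_cancel h3
    rw [Subtype.ext h2]
  · rw [Fintype.card_prod, hp.card]
    have h1 := (H.map s).index_mul_card
    have h2 := H.index_mul_card
    have h3 : Nat.card (H.map s) = Nat.card H :=
      (Nat.card_congr (H.equivMapOfInjective s hsinj).toEquiv).symm
    have h4 := π.ker.index_mul_card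
    rw [Subgroup.index_ker] at h4
    have h5 : Nat.card π.range = Nat.card P := by
      have : π.range = ⊤ := MonoidHom.range_eq_top.2 (fun p => ⟨s p, hs p⟩)
      rw [this]
      exact Nat.card_congr Subgroup.topEquiv.toEquiv
    rw [h5] at h4
    rw [h3] at h1
    have h6 : 0 < Nat.card H := Nat.card_pos
    have h7 : Fintype.card π.ker = Nat.card π.ker := Nat.card_eq_fintype_card.symm
    rw [h7]
    apply Nat.eq_of_mul_eq_mul_right h6
    rw [h1, ← h4, ← h2]
    ring
  · rintro ⟨a, t⟩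
    simp only [Prod.mk.injEq]
    refine ⟨?_, hp.invol t⟩
    apply Subtype.ext
    rw [coe_tw, coe_tw, hp.d_symm t]
    simp only [map_inv]
    group
  · rintro ⟨a, t⟩
    exact Subgroup.mem_map_of_mem s (hp.mem t)
  · rintro ⟨a, t⟩
    simp only
    rw [hp.symm, map_inv]
  · rintro ⟨a, t⟩ ⟨b, r⟩ hab
    simp only at hab
    rw [hdd (a, t), hdd (b, r)] at hab
    simp only at hab
    have h1 : x t * h t * (x (ρ t))⁻¹ = x r * h r * (x (ρ r))⁻¹ := by
      have := congrArg π hab
      rw [map_mul π, map_mul π, map_mul π, map_mul π, hs, hs, hker, hker] at this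
      simpa using this
    have h2 := hp.dinj t r h1
    subst h2
    have h3 : (a : G) * a = b * b := mul_right_cancel hab
    have h4 : a * a = b * b := Subtype.ext h3
    rw [sq_inj hodd h4]

theorem lift_d (π : G →* P) (s : P →* G) {T : Type u} (x : T → P) (ρ : T → T) (h : T → P)
    (t : π.ker × T) : (t.1 : G) * s (x t.2) * s (h t.2) *
      ((tw π (s (x t.2 * h t.2 * (x (ρ t.2))⁻¹)) t.1 : G) * s (x (ρ t.2)))⁻¹ =
      (t.1 : G) * (t.1 : G) * s (x t.2 * h t.2 * (x (ρ t.2))⁻¹) := by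
  rw [coe_tw]
  simp only [map_mul, map_inv]
  group

open Classical in
/-- rewiring a symmetric block on a set `U` of vertices -/
theorem Pre.rewire {T : Type u} [Fintype T] {H : Subgroup G} {x : T → G} {ρ : T → T} {h : T → G}
    (hp : Pre T H x ρ h) (U : Set T) (ρ' : T → T) (h' : T → G)
    (hU : ∀ t ∈ U, ρ t ∈ U) (hU' : ∀ t ∈ U, ρ' t ∈ U) (hρ' : ∀ t ∈ U, ρ' (ρ' t) = t)
    (hm : ∀ t ∈ U, h' t ∈ H) (hsy : ∀ t ∈ U, h' (ρ' t) = (h' t)⁻¹)
    (hi : ∀ t ∈ U, ∀ r ∈ U, x t * h' t * (x (ρ' t))⁻¹ = x r * h' r * (x (ρ' r))⁻¹ → t = r)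
    (hi' : ∀ t ∈ U, ∀ r ∉ U, x t * h' t * (x (ρ' t))⁻¹ ≠ x r * h r * (x (ρ r))⁻¹)
    (h1 : ∀ t ∈ U, x t * h' t * (x (ρ' t))⁻¹ ≠ 1) (h2 : ∀ t ∉ U, x t * h t * (x (ρ t))⁻¹ ≠ 1)
    (D : Finset G)
    (hD : ∀ g, g ∈ D ↔ (∃ t ∈ U, x t * h' t * (x (ρ' t))⁻¹ = g) ∨
      (∃ t ∉ U, x t * h t * (x (ρ t))⁻¹ = g)) : BlkS D := by
  have hUn : ∀ t ∉ U, ρ t ∉ U := by
    intro t ht hcon
    apply ht
    rw [← hp.invol t]
    exact hU _ hcon
  set ρ'' : T → T := fun t => if t ∈ U then ρ' t else ρ t with hρ''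
  set h'' : T → G := fun t => if t ∈ U then h' t else h t with hh''
  have r1 : ∀ t ∈ U, ρ'' t = ρ' t := fun t ht => by rw [hρ'']; simp only; rw [if_pos ht]
  have r2 : ∀ t ∉ U, ρ'' t = ρ t := fun t ht => by rw [hρ'']; simp only; rw [if_neg ht]
  have s1 : ∀ t ∈ U, h'' t = h' t := fun t ht => by rw [hh'']; simp only; rw [if_pos ht]
  have s2 : ∀ t ∉ U, h'' t = h t := fun t ht => by rw [hh'']; simp only; rw [if_neg ht]
  have d1 : ∀ t ∈ U, x t * h'' t * (x (ρ'' t))⁻¹ = x t * h' t * (x (ρ' t))⁻¹ := by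
    intro t ht
    rw [r1 t ht, s1 t ht]
  have d2 : ∀ t ∉ U, x t * h'' t * (x (ρ'' t))⁻¹ = x t * h t * (x (ρ t))⁻¹ := by
    intro t ht
    rw [r2 t ht, s2 t ht]
  refine ⟨T, inferInstance, H, x, ρ'', h'', ⟨hp.inj, hp.card, ?_, ?_, ?_, ?_⟩, ?_, ?_⟩
  · intro t
    by_cases ht : t ∈ U
    · rw [r1 t ht, r1 _ (hU' t ht), hρ' t ht]
    · rw [r2 t ht, r2 _ (hUn t ht), hp.invol]
  · intro t
    by_cases ht : t ∈ U
    · rw [s1 t ht]; exact hm t ht
    · rw [s2 t ht]; exact hp.mem t
  · intro t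
    by_cases ht : t ∈ U
    · rw [r1 t ht, s1 _ (hU' t ht), s1 t ht, hsy t ht]
    · rw [r2 t ht, s2 _ (hUn t ht), s2 t ht, hp.symm]
  · intro t r htr
    by_cases ht : t ∈ U
    · by_cases hr : r ∈ U
      · rw [d1 t ht, d1 r hr] at htr
        exact hi t ht r hr htr
      · rw [d1 t ht, d2 r hr] at htr
        exact absurd htr (hi' t ht r hr)
    · by_cases hr : r ∈ U
      · rw [d2 t ht, d1 r hr] at htr
        exact absurd htr.symm (hi' r hr t ht)
      · rw [d2 t ht, d2 r hr] at htr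
        exact hp.dinj t r htr
  · intro t
    by_cases ht : t ∈ U
    · rw [d1 t ht]; exact h1 t ht
    · rw [d2 t ht]; exact h2 t ht
  · intro g
    rw [hD]
    constructor
    · rintro (⟨t, ht, htg⟩ | ⟨t, ht, htg⟩)
      · exact ⟨t, by rw [d1 t ht]; exact htg⟩
      · exact ⟨t, by rw [d2 t ht]; exact htg⟩
    · rintro ⟨t, htg⟩
      by_cases ht : t ∈ U
      · exact Or.inl ⟨t, ht, by rw [← d1 t ht]; exact htg⟩
      · exact Or.inr ⟨t, ht, by rw [← d2 t ht]; exact htg⟩

/-- full lift of a block -/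
theorem BlkS.lift [Finite G] [Finite P] (π : G →* P) (s : P →* G) (hs : ∀ p, π (s p) = p)
    (hodd : Odd (Nat.card π.ker)) {D : Finset P} (hD : BlkS D) (D' : Finset G)
    (hD' : ∀ g, g ∈ D' ↔ π g ∈ D) : BlkS D' := by
  classical
  have := Fintype.ofFinite π.ker
  obtain ⟨T, hT, H, x, ρ, h, hp, hne, hmem⟩ := hD
  refine ⟨π.ker × T, inferInstance, H.map s, _, _, _, hp.lift π s hs hodd, ?_, ?_⟩
  · rintro t h1
    have h2 := (lift_d π s x ρ h t).symm.trans h1
    apply hne t.2
    have := congrArg π h2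
    rw [map_mul π, map_mul π, hs, map_one, show π (t.1 : G) = 1 from t.1.2, one_mul, one_mul] at this
    exact this
  · intro g
    rw [hD', hmem]
    constructor
    · rintro ⟨t, ht⟩
      have hk : g * (s (x t * h t * (x (ρ t))⁻¹))⁻¹ ∈ π.ker := by
        rw [MonoidHom.mem_ker, map_mul, map_inv, hs, ht, mul_inv_cancel]
      obtain ⟨a, ha⟩ := sq_surj hodd ⟨_, hk⟩
      refine ⟨(a, t), ?_⟩
      rw [lift_d π s x ρ h (a, t)]
      have h1 : (a : G) * a = g * (s (x t * h t * (x (ρ t))⁻¹))⁻¹ := congrArg Subtype.val ha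
      rw [h1]
      group
    · rintro ⟨t, ht⟩
      rw [lift_d π s x ρ h t] at ht
      refine ⟨t.2, ?_⟩
      have := congrArg π ht
      rw [map_mul π, map_mul π, hs, show π (t.1 : G) = 1 from t.1.2, one_mul, one_mul] at this
      exact this

theorem Cov.lift [Finite G] [Finite P] (π : G →* P) (s : P →* G) (hs : ∀ p, π (s p) = p)
    (hodd : Odd (Nat.card π.ker)) {D : Finset P} (hD : Cov D) (D' : Finset G)
    (hD' : ∀ g, g ∈ D' ↔ π g ∈ D) : Cov D' := by
  classical
  have := Fintype.ofFinite G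
  induction hD generalizing D' with
  | empty =>
    have : D' = ∅ := by
      rw [Finset.eq_empty_iff_forall_notMem]
      intro g hg
      exact Finset.notMem_empty _ ((hD' g).1 hg)
    rw [this]
    exact Cov.empty
  | cons D B hD hB hdis ih =>
    have h1 := ih (Finset.univ.filter (fun g => π g ∈ D)) (fun g => by simp)
    have h2 : Blk (Finset.univ.filter (fun g => π g ∈ B)) :=
      ((Blk.toS hB).lift π s hs hodd _ (fun g => by simp)).toBlk
    refine (Cov.cons _ _ h1 h2 ?_).of_eq ?_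
    · rw [Finset.disjoint_left] at hdis ⊢
      intro g hg hg'
      simp only [Finset.mem_filter, Finset.mem_univ, true_and] at hg hg'
      exact hdis hg hg'
    · ext g
      rw [hD']
      simp only [Finset.mem_union, Finset.mem_filter, Finset.mem_univ, true_and]

/-- adding involutions to a cover -/
theorem Cov.add_invol [Finite G] {D I : Finset G} (hD : Cov D) (hI : ∀ x ∈ I, x ≠ 1 ∧ x * x = 1)
    (hdis : ∀ x ∈ I, x ∉ D) (D' : Finset G) (hD' : ∀ g, g ∈ D' ↔ g ∈ D ∨ g ∈ I) : Cov D' := by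
  classical
  induction I using Finset.induction_on generalizing D' with
  | empty =>
    refine hD.of_eq ?_
    ext g
    rw [hD']
    simp
  | insert a I ha ih =>
    have h1 := ih (fun x hx => hI x (Finset.mem_insert_of_mem hx))
      (fun x hx => hdis x (Finset.mem_insert_of_mem hx)) (D ∪ I) (fun g => by simp)
    refine (Cov.cons _ _ h1 (blk_invol (hI a (Finset.mem_insert_self a I)).1
      (hI a (Finset.mem_insert_self a I)).2) ?_).of_eq ?_
    · rw [Finset.disjoint_singleton_right, Finset.mem_union, not_or]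
      exact ⟨hdis a (Finset.mem_insert_self a I), ha⟩
    · ext g
      rw [hD']
      simp only [Finset.mem_union, Finset.mem_insert, Finset.mem_singleton]
      tauto

end Pool.Agent.Y346.ST
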