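import Mathlib
import Pool.Agent.Y346.ST.Lift

set_option autoImplicit false

/-!
Two blocks covering the non-identity elements of the kernel.
-/

namespace Pool.Agent.Y346.ST

open Pool.Agent.Helper466.Starter

universe u

variable {G P : Type u} [Group G] [Group P]

/-- the kernel minus one together with one involution -/
theorem blkA [Finite G] [Finite P] (π : G →* P) (s : P →* G) (hs : ∀ p, π (s p) = p)
    (hodd : Odd (Nat.card π.ker)) (y : P) (hy1 : y ≠ 1) (hyy : y * y = 1) (D : Finset G)
    (hD : ∀ g, g ∈ D ↔ (π g = 1 ∧ g ≠ 1) ∨ g = s y) : BlkS D := by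
  classical
  have := Fintype.ofFinite π.ker
  have hsinj : Function.Injective s := fun a b hab => by rw [← hs a, hab, hs]
  have hker : ∀ a : π.ker, π (a : G) = 1 := fun a => a.2
  have hpre : Pre (G := P) PUnit.{u+1} (⊤ : Subgroup P) (fun _ => 1) (fun t => t) (fun _ => 1) := by
    refine ⟨?_, ?_, ?_, ?_, ?_, ?_⟩
    · intro t r _; rfl
    · simp
    · intro t; rfl
    · intro t; exact Subgroup.mem_top _
    · intro t; simp
    · intro t r _; rfl
  have hl := hpre.lift π s hs hodd
  have hd : ∀ t : π.ker × PUnit.{u+1}, (t.1 : G) * s (1 : P) * s (1 : P) *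
      ((tw π (s ((1 : P) * 1 * (1 : P)⁻¹)) t.1 : G) * s (1 : P))⁻¹ = (t.1 : G) * t.1 := by
    intro t
    have := lift_d π s (fun _ : PUnit.{u+1} => (1 : P)) (fun t => t) (fun _ => 1) t
    rw [this]
    simp
  set U : Set (π.ker × PUnit.{u+1}) := {t | t.1 = 1} with hU
  have hUmem : ∀ t, t ∈ U ↔ t.1 = 1 := fun t => Iff.rfl
  have hxU : ∀ t ∈ U, (t.1 : G) * s (1 : P) * s y * ((t.1 : G) * s (1 : P))⁻¹ = s y := by
    intro t ht
    rw [(hUmem t).1 ht]
    simp
  refine hl.rewire U (fun t => t) (fun _ => s y) ?_ ?_ ?_ ?_ ?_ ?_ ?_ ?_ ?_ D ?_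
  · intro t ht
    rw [hUmem] at ht ⊢
    apply Subtype.ext
    simp only
    rw [coe_tw, ht]
    simp
  · intro t ht; exact ht
  · intro t _; rfl
  · intro t _; exact Subgroup.mem_map_of_mem s (Subgroup.mem_top y)
  · intro t _
    show s y = (s y)⁻¹
    rw [← map_inv]
    congr 1
    exact mul_eq_one_iff_eq_inv.1 hyy
  · intro t ht r hr _
    have h1 := (hUmem t).1 ht
    have h2 := (hUmem r).1 hr
    exact Prod.ext (h1.trans h2.symm) rfl
  · intro t ht r hr h
    rw [hxU t ht, hd r] at h
    have h1 := congrArg π h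
    rw [hs, map_mul, hker, one_mul] at h1
    exact hy1 h1
  · intro t ht h
    rw [hxU t ht] at h
    apply hy1
    rw [← hs y, h, map_one]
  · intro t ht h
    rw [hd t] at h
    apply ht
    exact sq_one hodd (Subtype.ext h)
  · intro g
    rw [hD]
    constructor
    · rintro (⟨h1, h2⟩ | h)
      · right
        obtain ⟨a, ha⟩ := sq_surj hodd ⟨g, h1⟩
        have ha' : (a : G) * a = g := congrArg Subtype.val ha
        refine ⟨(a, PUnit.unit), ?_, ?_⟩
        · intro hcon
          apply h2
          have h3 : a = 1 := hcon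
          rw [← ha', h3]
          simp
        · rw [hd]; exact ha'
      · left
        exact ⟨(1, PUnit.unit), rfl, by rw [hxU _ rfl]; exact h.symm⟩
    · rintro (⟨t, ht, htg⟩ | ⟨t, ht, htg⟩)
      · right
        rw [hxU t ht] at htg
        exact htg.symm
      · left
        rw [hd] at htg
        rw [← htg]
        refine ⟨by rw [map_mul, hker, one_mul], ?_⟩
        intro h
        apply ht
        exact sq_one hodd (Subtype.ext h)

/-- the kernel and its coset of the involution `z`, both minus one element, and a pair `w, w⁻¹`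
outside a subgroup of index two -/
theorem blkB [Finite G] [Finite P] (π : G →* P) (s : P →* G) (hs : ∀ p, π (s p) = p)
    (hodd : Odd (Nat.card π.ker)) (K : Subgroup P) (hK : K.index = 2) (w z : P) (hw : w ∉ K)
    (hww : w * w ≠ 1) (hzK : z ∈ K) (hz1 : z ≠ 1) (hzz : z * z = 1) (hwz : w * z = z * w)
    (D : Finset G)
    (hD : ∀ g, g ∈ D ↔ (π g = 1 ∧ g ≠ 1) ∨ (π g = z ∧ g ≠ s z) ∨ g = s w ∨ g = (s w)⁻¹) :
    BlkS D := by
  classical
  have := Fintype.ofFinite π.ker
  have hsinj : Function.Injective s := fun a b hab => by rw [← hs a, hab, hs]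
  have hker : ∀ a : π.ker, π (a : G) = 1 := fun a => a.2
  set x : ULift.{u} Bool → P := fun t => if t.down then w else 1 with hx
  set h0 : ULift.{u} Bool → P := fun t => if t.down then z else 1 with hh0
  have hw1 : w ≠ 1 := fun h => hw (h ▸ K.one_mem)
  have hzw : w * z * w⁻¹ = z := by rw [hwz]; group
  have hzi : z⁻¹ = z := (mul_eq_one_iff_eq_inv.1 hzz).symm
  have hpre : Pre (G := P) (ULift.{u} Bool) K x (fun t => t) h0 := by
    refine ⟨?_, ?_, ?_, ?_, ?_, ?_⟩
    · rintro ⟨t⟩ ⟨r⟩ htr
      rcases t <;> rcases r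
      · rfl
      · exfalso
        apply hw
        simpa [hx] using htr
      · exfalso
        apply hw
        simpa [hx] using htr
      · rfl
    · rw [hK]; simp
    · intro t; rfl
    · rintro ⟨t⟩
      rcases t
      · exact K.one_mem
      · exact hzK
    · rintro ⟨t⟩
      rcases t
      · simp [hh0]
      · simp [hh0, hzi]
    · rintro ⟨t⟩ ⟨r⟩ htr
      rcases t <;> rcases r
      · rfl
      · exfalso
        apply hz1
        have h1 : (1 : P) * 1 * 1⁻¹ = w * z * w⁻¹ := htr
        rw [hzw] at h1
        simpa using h1.symm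
      · exfalso
        apply hz1
        have h1 : w * z * w⁻¹ = (1 : P) * 1 * 1⁻¹ := htr
        rw [hzw] at h1
        simpa using h1
      · rfl
  have hl := hpre.lift π s hs hodd
  have hd : ∀ t : π.ker × ULift.{u} Bool, (t.1 : G) * s (x t.2) * s (h0 t.2) *
      ((tw π (s (x t.2 * h0 t.2 * (x t.2)⁻¹)) t.1 : G) * s (x t.2))⁻¹ =
        (t.1 : G) * t.1 * (if t.2.down then s z else 1) := by
    intro t
    have h1 := lift_d π s x (fun t => t) h0 t
    rw [h1]
    congr 1
    rcases t with ⟨a, ⟨b⟩⟩
    rcases b
    · simp [hx, hh0]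
    · simp [hx, hh0, hzw]
  set U : Set (π.ker × ULift.{u} Bool) := {t | t.1 = 1} with hU
  have hUmem : ∀ t, t ∈ U ↔ t.1 = 1 := fun t => Iff.rfl
  have hxU : ∀ t ∈ U, (t.1 : G) * s (x t.2) * (1 : G) *
      ((t.1 : G) * s (x ⟨!t.2.down⟩))⁻¹ = if t.2.down then s w else (s w)⁻¹ := by
    rintro ⟨a, ⟨b⟩⟩ ht
    have ha : a = 1 := ht
    subst ha
    rcases b
    · simp [hx]
    · simp [hx]
  have hswi : s w ≠ (s w)⁻¹ := by
    intro h
    apply hww
    rw [← map_inv] at h
    have := hsinj h
    nth_rewrite 2 [this]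
    exact mul_inv_cancel w
  refine hl.rewire U (fun t => (t.1, ⟨!t.2.down⟩)) (fun _ => 1) ?_ ?_ ?_ ?_ ?_ ?_ ?_ ?_ ?_ D ?_
  · intro t ht
    rw [hUmem] at ht ⊢
    apply Subtype.ext
    simp only
    rw [coe_tw, ht]
    simp only [Subgroup.coe_one, inv_one, mul_one]
    exact inv_mul_cancel _
  · intro t ht; exact ht
  · rintro ⟨a, ⟨b⟩⟩ _
    simp
  · intro t _; exact Subgroup.one_mem _
  · intro t _; simp
  · intro t ht r hr h
    have e1 := hxU t ht
    have e2 := hxU r hr
    have h' := e1.symm.trans (h.trans e2)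
    have h1 := (hUmem t).1 ht
    have h2 := (hUmem r).1 hr
    refine Prod.ext (h1.trans h2.symm) ?_
    rcases t with ⟨a, ⟨b⟩⟩
    rcases r with ⟨a', ⟨b'⟩⟩
    rcases b <;> rcases b'
    · rfl
    · simp at h'
      exact absurd h'.symm hswi
    · simp at h'
      exact absurd h' hswi
    · rfl
  · intro t ht r hr h
    have e1 := hxU t ht
    have e2 := hd r
    have h' := e1.symm.trans (h.trans e2)
    have h1 := congrArg π h'
    rw [map_mul, map_mul, hker, one_mul, one_mul] at h1
    have h2 : π (if r.2.down then s z else 1) ∈ K := by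
      split_ifs
      · rw [hs]; exact hzK
      · rw [map_one]; exact K.one_mem
    rw [← h1] at h2
    apply hw
    split_ifs at h2
    · rw [hs] at h2; exact h2
    · rw [map_inv, hs] at h2
      exact K.inv_mem_iff.1 h2
  · intro t ht h
    have e1 := hxU t ht
    have h' := e1.symm.trans h
    have h1 := congrArg π h'
    rw [map_one] at h1
    apply hw1
    split_ifs at h1
    · rw [hs] at h1; exact h1
    · rw [map_inv, hs] at h1
      simpa using h1
  · intro t ht h
    have e2 := hd t
    have h' := e2.symm.trans h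
    rcases t with ⟨a, ⟨b⟩⟩
    rcases b
    · simp only [Bool.false_eq_true, if_false, mul_one] at h'
      apply ht
      exact sq_one hodd (Subtype.ext h')
    · simp only [if_true] at h'
      apply hz1
      have h1 := congrArg π h'
      rw [map_mul, map_mul, hker, one_mul, one_mul, hs, map_one] at h1
      exact h1
  · intro g
    rw [hD]
    constructor
    · rintro (⟨h1, h2⟩ | ⟨h1, h2⟩ | h | h)
      · right
        obtain ⟨a, ha⟩ := sq_surj hodd ⟨g, h1⟩
        have ha' : (a : G) * a = g := congrArg Subtype.val ha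
        refine ⟨(a, ⟨false⟩), ?_, ?_⟩
        · intro hcon
          apply h2
          have h3 : a = 1 := hcon
          rw [← ha', h3]
          simp
        · refine (hd (a, ⟨false⟩)).trans ?_
          simp [ha']
      · right
        have hk : g * (s z)⁻¹ ∈ π.ker := by
          rw [MonoidHom.mem_ker, map_mul, map_inv, hs, h1, mul_inv_cancel]
        obtain ⟨a, ha⟩ := sq_surj hodd ⟨_, hk⟩
        have ha' : (a : G) * a = g * (s z)⁻¹ := congrArg Subtype.val ha
        refine ⟨(a, ⟨true⟩), ?_, ?_⟩
        · intro hcon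
          apply h2
          have h3 : a = 1 := hcon
          rw [h3] at ha'
          have h4 : (1 : G) = g * (s z)⁻¹ := by simpa using ha'
          rw [eq_mul_inv_iff_mul_eq, one_mul] at h4
          exact h4.symm
        · refine (hd (a, ⟨true⟩)).trans ?_
          simp only [if_true]
          rw [ha']
          group
      · left
        exact ⟨(1, ⟨true⟩), rfl, (hxU (1, ⟨true⟩) rfl).trans (by simp [h])⟩
      · left
        exact ⟨(1, ⟨false⟩), rfl, (hxU (1, ⟨false⟩) rfl).trans (by simp [h])⟩
    · rintro (⟨t, ht, htg⟩ | ⟨t, ht, htg⟩)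
      · right; right
        have e1 := hxU t ht
        have h' := e1.symm.trans htg
        rw [← h']
        split_ifs
        · left; rfl
        · right; rfl
      · have e2 := hd t
        have h' := e2.symm.trans htg
        rw [← h']
        rcases t with ⟨a, ⟨b⟩⟩
        rcases b
        · left
          simp only [Bool.false_eq_true, if_false, mul_one]
          refine ⟨by rw [map_mul, hker, one_mul], ?_⟩
          intro h
          apply ht
          exact sq_one hodd (Subtype.ext h)
        · right; left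
          simp only [if_true]
          refine ⟨by rw [map_mul, map_mul, hker, one_mul, one_mul, hs], ?_⟩
          intro h
          apply ht
          have h3 : (a : G) * a = 1 := by simpa using h
          exact sq_one hodd (Subtype.ext h3)

end Pool.Agent.Y346.ST
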