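import Mathlib
import Pool.Agent.Y346.ST.Punct
import Pool.Agent.Helper466.Starter.MaxClass

set_option autoImplicit false

/-!
The first block in a split extension of a group of odd order by a cyclic group of order `4 q`.
-/

namespace Pool.Agent.Y346.ST

open Pool.Agent.Helper466.Starter

universe u

variable {G P : Type u} [Group G] [Group P]

theorem tw_one (π : G →* P) (k : G) : tw π k 1 = 1 := by
  apply Subtype.ext
  rw [coe_tw, Subgroup.coe_one, inv_one, mul_one]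
  exact inv_mul_cancel k

/-- rewiring four vertices -/
theorem Pre.rewire4 {T : Type u} [Fintype T] {H : Subgroup G} {x : T → G} {ρ : T → T} {h : T → G}
    (hp : Pre T H x ρ h) (t1 t2 t3 t4 : T) (h12 : t1 ≠ t2) (h13 : t1 ≠ t3) (h14 : t1 ≠ t4)
    (h23 : t2 ≠ t3) (h24 : t2 ≠ t4) (h34 : t3 ≠ t4) (hρ1 : ρ t1 = t1) (hρ2 : ρ t2 = t4)
    (hρ3 : ρ t3 = t3) (a b : G) (ha : a ∈ H) (hb : b ∈ H) (α β : G)
    (hα : x t1 * a * (x t2)⁻¹ = α) (hβ : x t3 * b * (x t4)⁻¹ = β) (hαα : α ≠ α⁻¹)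
    (hββ : β ≠ β⁻¹) (hαβ : α ≠ β) (hαβ' : α ≠ β⁻¹)
    (hd : ∀ t, t ≠ t1 → t ≠ t2 → t ≠ t3 → t ≠ t4 → x t * h t * (x (ρ t))⁻¹ ≠ 1 ∧
      x t * h t * (x (ρ t))⁻¹ ≠ α ∧ x t * h t * (x (ρ t))⁻¹ ≠ α⁻¹ ∧
      x t * h t * (x (ρ t))⁻¹ ≠ β ∧ x t * h t * (x (ρ t))⁻¹ ≠ β⁻¹) (D : Finset G)
    (hD : ∀ g, g ∈ D ↔ (g = α ∨ g = α⁻¹ ∨ g = β ∨ g = β⁻¹) ∨
      (∃ t, (t ≠ t1 ∧ t ≠ t2 ∧ t ≠ t3 ∧ t ≠ t4) ∧ x t * h t * (x (ρ t))⁻¹ = g)) : BlkS D := by
  classical
  have hρ4 : ρ t4 = t2 := by rw [← hρ2, hp.invol]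
  set U : Set T := {t | t = t1 ∨ t = t2 ∨ t = t3 ∨ t = t4} with hU
  set ρ' : T → T := fun t => if t = t1 then t2 else if t = t2 then t1 else if t = t3 then t4
    else t3 with hρ'
  set h' : T → G := fun t => if t = t1 then a else if t = t2 then a⁻¹ else if t = t3 then b
    else b⁻¹ with hh'
  have r1 : ρ' t1 = t2 := by simp [hρ']
  have r2 : ρ' t2 = t1 := by simp [hρ', h12.symm]
  have r3 : ρ' t3 = t4 := by simp [hρ', h13.symm, h23.symm]
  have r4 : ρ' t4 = t3 := by simp [hρ', h14.symm, h24.symm, h34.symm]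
  have k1 : h' t1 = a := by simp [hh']
  have k2 : h' t2 = a⁻¹ := by simp [hh', h12.symm]
  have k3 : h' t3 = b := by simp [hh', h13.symm, h23.symm]
  have k4 : h' t4 = b⁻¹ := by simp [hh', h14.symm, h24.symm, h34.symm]
  have d1 : x t1 * h' t1 * (x (ρ' t1))⁻¹ = α := by rw [r1, k1, hα]
  have d2 : x t2 * h' t2 * (x (ρ' t2))⁻¹ = α⁻¹ := by rw [r2, k2, ← hα]; group
  have d3 : x t3 * h' t3 * (x (ρ' t3))⁻¹ = β := by rw [r3, k3, hβ]
  have d4 : x t4 * h' t4 * (x (ρ' t4))⁻¹ = β⁻¹ := by rw [r4, k4, ← hβ]; group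
  have e1 : α⁻¹ ≠ β := fun hh => hαβ' (by rw [← hh, inv_inv])
  have e2 : α⁻¹ ≠ β⁻¹ := fun hh => hαβ (inv_injective hh)
  have n1 : α ≠ 1 := by
    intro hh
    apply hαα
    rw [hh, inv_one]
  have n2 : β ≠ 1 := by
    intro hh
    apply hββ
    rw [hh, inv_one]
  have n3 : α⁻¹ ≠ 1 := by
    intro hh
    exact n1 (inv_eq_one.1 hh)
  have n4 : β⁻¹ ≠ 1 := by
    intro hh
    exact n2 (inv_eq_one.1 hh)
  have hUn : ∀ t, t ∉ U ↔ (t ≠ t1 ∧ t ≠ t2 ∧ t ≠ t3 ∧ t ≠ t4) := by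
    intro t
    rw [hU]
    show ¬ (t = t1 ∨ t = t2 ∨ t = t3 ∨ t = t4) ↔ _
    tauto
  refine hp.rewire U ρ' h' ?_ ?_ ?_ ?_ ?_ ?_ ?_ ?_ ?_ D ?_
  · rintro t (rfl | rfl | rfl | rfl)
    · rw [hρ1]; exact Or.inl rfl
    · rw [hρ2]; exact Or.inr (Or.inr (Or.inr rfl))
    · rw [hρ3]; exact Or.inr (Or.inr (Or.inl rfl))
    · rw [hρ4]; exact Or.inr (Or.inl rfl)
  · rintro t (rfl | rfl | rfl | rfl)
    · rw [r1]; exact Or.inr (Or.inl rfl)
    · rw [r2]; exact Or.inl rfl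
    · rw [r3]; exact Or.inr (Or.inr (Or.inr rfl))
    · rw [r4]; exact Or.inr (Or.inr (Or.inl rfl))
  · rintro t (rfl | rfl | rfl | rfl)
    · rw [r1, r2]
    · rw [r2, r1]
    · rw [r3, r4]
    · rw [r4, r3]
  · rintro t (rfl | rfl | rfl | rfl)
    · rw [k1]; exact ha
    · rw [k2]; exact H.inv_mem ha
    · rw [k3]; exact hb
    · rw [k4]; exact H.inv_mem hb
  · rintro t (rfl | rfl | rfl | rfl)
    · rw [r1, k1, k2]
    · rw [r2, k1, k2, inv_inv]
    · rw [r3, k3, k4]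
    · rw [r4, k3, k4, inv_inv]
  · rintro t (rfl | rfl | rfl | rfl) r (rfl | rfl | rfl | rfl) hh
    all_goals
      simp only [d1, d2, d3, d4] at hh
    all_goals first
      | rfl
      | (exfalso
         first
         | exact hαα hh
         | exact hαα hh.symm
         | exact hαβ hh
         | exact hαβ hh.symm
         | exact hαβ' hh
         | exact hαβ' hh.symm
         | exact e1 hh
         | exact e1 hh.symm
         | exact e2 hh
         | exact e2 hh.symm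
         | exact hββ hh
         | exact hββ hh.symm)
  · rintro t (rfl | rfl | rfl | rfl) r hr hh
    all_goals
      rw [hUn] at hr
      obtain ⟨m0, m1, m2, m3, m4⟩ := hd r hr.1 hr.2.1 hr.2.2.1 hr.2.2.2
    · rw [d1] at hh; exact m1 hh.symm
    · rw [d2] at hh; exact m2 hh.symm
    · rw [d3] at hh; exact m3 hh.symm
    · rw [d4] at hh; exact m4 hh.symm
  · rintro t (rfl | rfl | rfl | rfl)
    · rw [d1]; exact n1
    · rw [d2]; exact n3
    · rw [d3]; exact n2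
    · rw [d4]; exact n4
  · intro t ht
    rw [hUn] at ht
    exact (hd t ht.1 ht.2.1 ht.2.2.1 ht.2.2.2).1
  · intro g
    rw [hD]
    constructor
    · rintro ((h | h | h | h) | ⟨t, ht, htg⟩)
      · exact Or.inl ⟨t1, Or.inl rfl, by rw [d1, h]⟩
      · exact Or.inl ⟨t2, Or.inr (Or.inl rfl), by rw [d2, h]⟩
      · exact Or.inl ⟨t3, Or.inr (Or.inr (Or.inl rfl)), by rw [d3, h]⟩
      · exact Or.inl ⟨t4, Or.inr (Or.inr (Or.inr rfl)), by rw [d4, h]⟩
      · exact Or.inr ⟨t, (hUn t).2 ht, htg⟩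
    · rintro (⟨t, (rfl | rfl | rfl | rfl), htg⟩ | ⟨t, ht, htg⟩)
      · rw [d1] at htg; exact Or.inl (Or.inl htg.symm)
      · rw [d2] at htg; exact Or.inl (Or.inr (Or.inl htg.symm))
      · rw [d3] at htg; exact Or.inl (Or.inr (Or.inr (Or.inl htg.symm)))
      · rw [d4] at htg; exact Or.inl (Or.inr (Or.inr (Or.inr htg.symm)))
      · exact Or.inr ⟨t, (hUn t).1 ht, htg⟩

section cyc

variable {γ : P} {q : ℕ}

/-- the least absolute residue -/
noncomputable def ee (q : ℕ) (i : ULift.{u} (ZMod (2 * q))) : ℤ := i.down.valMinAbs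

/-- negation -/
def nn (q : ℕ) (i : ULift.{u} (ZMod (2 * q))) : ULift.{u} (ZMod (2 * q)) := ULift.up (-i.down)

theorem nn_nn (q : ℕ) (i : ULift.{u} (ZMod (2 * q))) : nn q (nn q i) = i := by
  apply ULift.ext
  simp [nn]

theorem ee_cast (q : ℕ) (i : ULift.{u} (ZMod (2 * q))) : ((ee q i : ℤ) : ZMod (2 * q)) = i.down :=
  ZMod.coe_valMinAbs _

theorem ee_dvd (q : ℕ) (i j : ULift.{u} (ZMod (2 * q))) :
    (2 * (q : ℤ)) ∣ ee q i - ee q j ↔ i = j := by
  have h1 : (2 * (q : ℤ)) = ((2 * q : ℕ) : ℤ) := by push_cast; ring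
  rw [h1, ← ZMod.intCast_zmod_eq_zero_iff_dvd]
  push_cast
  rw [ee_cast, ee_cast, sub_eq_zero]
  exact ⟨fun h => ULift.ext _ _ h, fun h => by rw [h]⟩

theorem ee_dvd' (q : ℕ) (k : ℤ) :
    (2 * (q : ℤ)) ∣ ee q (ULift.up.{u} (k : ZMod (2 * q))) - k := by
  have h1 : (2 * (q : ℤ)) = ((2 * q : ℕ) : ℤ) := by push_cast; ring
  rw [h1, ← ZMod.intCast_zmod_eq_zero_iff_dvd]
  push_cast
  rw [ee_cast, sub_self]

theorem ee_neg (q : ℕ) (i : ULift.{u} (ZMod (2 * q))) :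
    (2 * (q : ℤ)) ∣ ee q i + ee q (nn q i) := by
  have h1 : (2 * (q : ℤ)) = ((2 * q : ℕ) : ℤ) := by push_cast; ring
  rw [h1, ← ZMod.intCast_zmod_eq_zero_iff_dvd]
  push_cast
  rw [ee_cast, ee_cast]
  simp [nn]

/-- the value of `ee` -/
theorem ee_eq {q : ℕ} (hq : 2 ≤ q) (k : ℤ) (h1 : -(q : ℤ) < k) (h2 : k ≤ q) :
    ee q (ULift.up.{u} (k : ZMod (2 * q))) = k := by
  have hne : NeZero (2 * q) := ⟨by omega⟩
  unfold ee
  rw [ZMod.valMinAbs_spec]
  refine ⟨rfl, ?_⟩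
  rw [Set.mem_Ioc]
  push_cast
  constructor <;> linarith

theorem zp_mem (hord : orderOf γ = 4 * q) (a : ℤ) :
    γ ^ a ∈ Subgroup.zpowers (γ ^ (2 * (q : ℤ))) ↔ (2 * (q : ℤ)) ∣ a := by
  rw [Subgroup.mem_zpowers_iff]
  constructor
  · rintro ⟨k, hk⟩
    rw [← zpow_mul, mc_eq hord] at hk
    obtain ⟨j, hj⟩ := hk
    exact ⟨k - 2 * j, by linear_combination -hj⟩
  · rintro ⟨k, hk⟩
    exact ⟨k, by rw [← zpow_mul, hk]⟩

theorem cyc_d (i : ULift.{u} (ZMod (2 * q))) : γ ^ (ee q i) * γ ^ (ee q i + ee q (nn q i)) *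
    (γ ^ (ee q (nn q i)))⁻¹ = γ ^ (2 * ee q i) := by
  rw [← zpow_neg, ← zpow_add, ← zpow_add]
  congr 1
  ring

theorem pre_cyc [Finite P] (hq : 2 ≤ q) (hγ : ∀ p : P, p ∈ Subgroup.zpowers γ)
    (hord : orderOf γ = 4 * q) [Fintype (ULift.{u} (ZMod (2 * q)))] :
    Pre (G := P) (ULift.{u} (ZMod (2 * q))) (Subgroup.zpowers (γ ^ (2 * (q : ℤ))))
      (fun i => γ ^ (ee q i)) (nn q) (fun i => γ ^ (ee q i + ee q (nn q i))) := by
  have hq' : (2 : ℤ) ≤ q := by exact_mod_cast hq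
  have hne : NeZero (2 * q) := ⟨by omega⟩
  refine ⟨?_, ?_, nn_nn q, ?_, ?_, ?_⟩
  · intro i j hij
    rw [← zpow_neg, ← zpow_add, zp_mem hord] at hij
    symm
    rw [← ee_dvd]
    convert hij using 1
    ring
  · have h1 := (Subgroup.zpowers (γ ^ (2 * (q : ℤ)))).index_mul_card
    have h2 : Nat.card P = 4 * q := by
      rw [← hord, ← Nat.card_zpowers]
      have : Subgroup.zpowers γ = ⊤ := (Subgroup.eq_top_iff' _).2 hγ
      rw [this]
      exact (Nat.card_congr Subgroup.topEquiv.toEquiv).symm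
    have h3 : Nat.card (Subgroup.zpowers (γ ^ (2 * (q : ℤ)))) = 2 := by
      rw [Nat.card_zpowers]
      have : Fact (Nat.Prime 2) := ⟨Nat.prime_two⟩
      apply orderOf_eq_prime
      · rw [pow_two]; exact mc_zz hord
      · rw [Ne, mc_one hord]
        intro h
        have := Int.le_of_dvd (by positivity) h
        linarith
    rw [h2, h3] at h1
    have h4 : Fintype.card (ULift.{u} (ZMod (2 * q))) = 2 * q := by
      rw [Fintype.card_eq_nat_card, Nat.card_congr Equiv.ulift]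
      rw [Nat.card_eq_fintype_card, ZMod.card]
    rw [h4]
    omega
  · intro i
    rw [zp_mem hord]
    exact ee_neg q i
  · intro i
    rw [nn_nn, ← zpow_neg, mc_eq hord]
    obtain ⟨k, hk⟩ := ee_neg q i
    refine ⟨k, ?_⟩
    linear_combination 2 * hk
  · intro i j hij
    rw [cyc_d, cyc_d, mc_eq hord] at hij
    rw [← ee_dvd]
    obtain ⟨k, hk⟩ := hij
    exact ⟨k, by linarith⟩

theorem nn_up (q : ℕ) (k : ℤ) : nn q (ULift.up.{u} (k : ZMod (2 * q))) =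
    ULift.up.{u} (((-k : ℤ)) : ZMod (2 * q)) := by
  apply ULift.ext
  simp [nn]

theorem even_ne_odd (hord : orderOf γ = 4 * q) (a k : ℤ) (hk : Odd k) : γ ^ (2 * a) ≠ γ ^ k := by
  intro h
  rw [mc_eq hord] at h
  obtain ⟨j, hj⟩ := h
  obtain ⟨l, hl⟩ := hk
  have : (2 * a - k : ℤ) = 2 * (2 * (q * j)) := hj.trans (by ring)
  omega

/-- the first block -/
theorem blk_first [Finite G] [Finite P] (π : G →* P) (s : P →* G) (hs : ∀ p, π (s p) = p)
    (hodd : Odd (Nat.card π.ker)) (hq : 2 ≤ q) (hqe : Even q)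
    (hγ : ∀ p : P, p ∈ Subgroup.zpowers γ)
    (hord : orderOf γ = 4 * q) (c : π.ker) (m : ℤ) (hm : (2 * (q : ℤ)) ∣ m + 1 + q) (α β : G)
    (hα : α = ((c : G) * s γ)⁻¹)
    (hβ : β = s (γ ^ (-m)) * ((s (γ ^ (2 : ℤ)))⁻¹ * (c : G)⁻¹ * s (γ ^ (2 : ℤ)))⁻¹)
    (hαβ : α ≠ β) (hαβ' : α ≠ β⁻¹) (D : Finset G)
    (hD : ∀ g, g ∈ D ↔ (g = α ∨ g = α⁻¹ ∨ g = β ∨ g = β⁻¹) ∨ (π g ∈ Subgroup.zpowers (γ ^ (2 : ℤ)) ∧
      g ≠ 1 ∧ g ≠ s (γ ^ (2 * (q : ℤ))) ∧ g ≠ (c : G) * c * s (γ ^ (2 : ℤ)) ∧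
        g ≠ ((c : G) * c * s (γ ^ (2 : ℤ)))⁻¹)) : BlkS D := by
  classical
  have := Fintype.ofFinite π.ker
  have hne : NeZero (2 * q) := ⟨by omega⟩
  have : Fintype (ULift.{u} (ZMod (2 * q))) := Fintype.ofFinite _
  have hq' : (2 : ℤ) ≤ q := by exact_mod_cast hq
  have hsinj : Function.Injective s := fun a b hab => by rw [← hs a, hab, hs]
  have hker : ∀ a : π.ker, π (a : G) = 1 := fun a => a.2
  have hl := (pre_cyc (P := P) hq hγ hord).lift π s hs hodd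
  have hd : ∀ t : π.ker × ULift.{u} (ZMod (2 * q)), (t.1 : G) * s (γ ^ ee q t.2) *
      s (γ ^ (ee q t.2 + ee q (nn q t.2))) *
      ((tw π (s (γ ^ ee q t.2 * γ ^ (ee q t.2 + ee q (nn q t.2)) * (γ ^ ee q (nn q t.2))⁻¹)) t.1 : G)
        * s (γ ^ ee q (nn q t.2)))⁻¹ = (t.1 : G) * t.1 * s (γ ^ (2 * ee q t.2)) := by
    intro t
    rw [lift_d π s (fun i => γ ^ ee q i) (nn q) (fun i => γ ^ (ee q i + ee q (nn q i))) t, cyc_d]
  have hmodd : Odd m := by
    obtain ⟨k, hk⟩ := hm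
    obtain ⟨l, hl⟩ := hqe
    have hl' : (q : ℤ) = l + l := by exact_mod_cast hl
    refine ⟨q * k - l - 1, ?_⟩
    have : m = 2 * q * k - 1 - q := by linarith
    rw [this]
    linear_combination -hl'
  have hπα : π α = γ ^ (-1 : ℤ) := by
    rw [hα, map_inv, map_mul, hker, hs, one_mul, zpow_neg, zpow_one]
  have hπβ : π β = γ ^ (-m) := by
    rw [hβ]
    simp only [map_mul, map_inv, hs, hker]
    group
  set t1 : π.ker × ULift.{u} (ZMod (2 * q)) := (1, ULift.up (((0 : ℤ)) : ZMod (2 * q))) with ht1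
  set t2 : π.ker × ULift.{u} (ZMod (2 * q)) := (c, ULift.up (((1 : ℤ)) : ZMod (2 * q))) with ht2
  set t3 : π.ker × ULift.{u} (ZMod (2 * q)) := (1, ULift.up (((q : ℤ)) : ZMod (2 * q))) with ht3
  set ρL : π.ker × ULift.{u} (ZMod (2 * q)) → π.ker × ULift.{u} (ZMod (2 * q)) := fun t =>
    (tw π (s (γ ^ ee q t.2 * γ ^ (ee q t.2 + ee q (nn q t.2)) * (γ ^ ee q (nn q t.2))⁻¹)) t.1,
      nn q t.2) with hρL
  set t4 : π.ker × ULift.{u} (ZMod (2 * q)) := ρL t2 with ht4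
  have e1 : ee q t1.2 = 0 := ee_eq hq 0 (by linarith) (by linarith)
  have e2 : ee q t2.2 = 1 := ee_eq hq 1 (by linarith) (by linarith)
  have e3 : ee q t3.2 = q := ee_eq hq q (by linarith) le_rfl
  have e4 : ee q t4.2 = -1 := by
    have : t4.2 = ULift.up (((-1 : ℤ)) : ZMod (2 * q)) := nn_up q 1
    rw [this]
    exact ee_eq hq (-1) (by linarith) (by linarith)
  have hn1 : nn q t1.2 = t1.2 := by
    show nn q (ULift.up (((0 : ℤ)) : ZMod (2 * q))) = _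
    rw [nn_up, neg_zero]
  have hn3 : nn q t3.2 = t3.2 := by
    show nn q (ULift.up (((q : ℤ)) : ZMod (2 * q))) = ULift.up (((q : ℤ)) : ZMod (2 * q))
    rw [nn_up]
    apply ULift.ext
    show (((-(q : ℤ) : ℤ)) : ZMod (2 * q)) = (((q : ℤ)) : ZMod (2 * q))
    rw [ZMod.intCast_eq_intCast_iff_dvd_sub]
    exact ⟨1, by push_cast; ring⟩
  have n12 : t1 ≠ t2 := by
    intro h
    rw [h, e2] at e1
    linarith
  have n13 : t1 ≠ t3 := by
    intro h
    rw [h, e3] at e1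
    linarith
  have n14 : t1 ≠ t4 := by
    intro h
    rw [h, e4] at e1
    linarith
  have n23 : t2 ≠ t3 := by
    intro h
    rw [h, e3] at e2
    linarith
  have n24 : t2 ≠ t4 := by
    intro h
    rw [h, e4] at e2
    linarith
  have n34 : t3 ≠ t4 := by
    intro h
    rw [h, e4] at e3
    linarith
  have hcd : γ ^ ee q t2.2 * γ ^ (ee q t2.2 + ee q (nn q t2.2)) * (γ ^ ee q (nn q t2.2))⁻¹ =
      γ ^ (2 : ℤ) := by
    rw [cyc_d, e2, mul_one]
  have hα' : (t1.1 : G) * s (γ ^ ee q t1.2) * 1 * ((t2.1 : G) * s (γ ^ ee q t2.2))⁻¹ = α := by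
    rw [e1, e2, hα]
    simp [ht1, ht2]
  have hβ' : (t3.1 : G) * s (γ ^ ee q t3.2) * s (γ ^ (-m - 1 - (q : ℤ))) *
      ((t4.1 : G) * s (γ ^ ee q t4.2))⁻¹ = β := by
    have h41 : (t4.1 : G) = (s (γ ^ (2 : ℤ)))⁻¹ * (c : G)⁻¹ * s (γ ^ (2 : ℤ)) := by
      show ((tw π (s (γ ^ ee q t2.2 * γ ^ (ee q t2.2 + ee q (nn q t2.2)) *
        (γ ^ ee q (nn q t2.2))⁻¹)) t2.1 : π.ker) : G) = _
      rw [coe_tw, hcd]
    rw [e3, e4, h41, hβ]
    have h31 : (t3.1 : G) = 1 := rfl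
    rw [h31, one_mul, ← map_mul, ← zpow_add, mul_inv_rev _ (s (γ ^ (-1 : ℤ))), ← map_inv s (γ ^ (-1 : ℤ)),
      ← zpow_neg, ← mul_assoc, ← map_mul, ← zpow_add]
    congr 4
    ring
  have hpar : ∀ (a : π.ker) (k : ℤ) (y : G) (l : ℤ), π y = γ ^ l → Odd l →
      (a : G) * a * s (γ ^ (2 * k)) ≠ y := by
    intro a k y l hy hl h
    have := congrArg π h
    rw [map_mul, map_mul, hker, one_mul, one_mul, hs, hy] at this
    exact even_ne_odd hord k l hl this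
  refine hl.rewire4 t1 t2 t3 t4 n12 n13 n14 n23 n24 n34 ?_ rfl ?_ 1 (s (γ ^ (-m - 1 - (q : ℤ))))
    (Subgroup.one_mem _) ?_ α β hα' hβ' ?_ ?_ hαβ hαβ' ?_ D ?_
  · exact Prod.ext (tw_one π _) hn1
  · exact Prod.ext (tw_one π _) hn3
  · apply Subgroup.mem_map_of_mem
    rw [zp_mem hord]
    obtain ⟨k, hk⟩ := hm
    exact ⟨-k, by linarith⟩
  · intro h
    have := congrArg π h
    rw [map_inv, hπα, ← zpow_neg, mc_eq hord] at this
    obtain ⟨k, hk⟩ := this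
    have h2 : (2 : ℤ) = 2 * (2 * (q * -k)) := by linarith
    omega
  · intro h
    have := congrArg π h
    rw [map_inv, hπβ, ← zpow_neg, mc_eq hord] at this
    obtain ⟨k, hk⟩ := this
    obtain ⟨l, hl⟩ := hmodd
    have h2 : m = 2 * (q * -k) := by linarith
    omega
  · intro t ht1' ht2' ht3' ht4'
    have hdt := hd t
    rw [hdt]
    refine ⟨?_, ?_, ?_, ?_, ?_⟩
    · intro h
      apply ht1'
      apply hl.dinj
      refine (hd t).trans (h.trans ((hd t1).trans ?_).symm)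
      rw [e1]
      simp [ht1]
    · exact hpar _ _ _ _ hπα (by decide)
    · refine hpar _ _ _ 1 ?_ (by decide)
      rw [map_inv, hπα, ← zpow_neg, neg_neg]
    · exact hpar _ _ _ _ hπβ hmodd.neg
    · refine hpar _ _ _ m ?_ hmodd
      rw [map_inv, hπβ, ← zpow_neg, neg_neg]
  · intro g
    rw [hD]
    have d1 : (t1.1 : G) * t1.1 * s (γ ^ (2 * ee q t1.2)) = 1 := by rw [e1]; simp [ht1]
    have d2 : (t2.1 : G) * t2.1 * s (γ ^ (2 * ee q t2.2)) = (c : G) * c * s (γ ^ (2 : ℤ)) := by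
      rw [e2, mul_one]
    have d3 : (t3.1 : G) * t3.1 * s (γ ^ (2 * ee q t3.2)) = s (γ ^ (2 * (q : ℤ))) := by
      rw [e3]; simp [ht3]
    have d4 : (t4.1 : G) * t4.1 * s (γ ^ (2 * ee q t4.2)) = ((c : G) * c * s (γ ^ (2 : ℤ)))⁻¹ := by
      rw [← d2, ← hd t4, ← hd t2]
      exact hl.d_symm t2
    constructor
    · rintro (h | ⟨h1, h2, h3, h4, h5⟩)
      · exact Or.inl h
      · right
        obtain ⟨k, hk⟩ := Subgroup.mem_zpowers_iff.1 h1
        have hk' : π g = γ ^ (2 * ee q (ULift.up.{u} (k : ZMod (2 * q)))) := by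
          rw [← hk, ← zpow_mul, mc_eq hord]
          obtain ⟨j, hj⟩ := ee_dvd'.{u} q k
          exact ⟨-j, by linear_combination -2 * hj⟩
        have hkk : g * (s (γ ^ (2 * ee q (ULift.up.{u} (k : ZMod (2 * q))))))⁻¹ ∈ π.ker := by
          rw [MonoidHom.mem_ker, map_mul, map_inv, hs, hk', mul_inv_cancel]
        obtain ⟨a, ha⟩ := sq_surj hodd ⟨_, hkk⟩
        have ha' : (a : G) * a = g * (s (γ ^ (2 * ee q (ULift.up.{u} (k : ZMod (2 * q))))))⁻¹ :=
          congrArg Subtype.val ha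
        have hda : ((a, ULift.up.{u} (k : ZMod (2 * q))) : π.ker × ULift.{u} (ZMod (2 * q))).1 *
            (a : G) * s (γ ^ (2 * ee q (ULift.up.{u} (k : ZMod (2 * q))))) = g := by
          show (a : G) * a * _ = g
          rw [ha']
          group
        refine ⟨(a, ULift.up.{u} (k : ZMod (2 * q))), ⟨?_, ?_, ?_, ?_⟩, (hd _).trans hda⟩
        · intro h
          apply h2
          rw [← hda, ← d1, ← h]
        · intro h
          apply h4
          rw [← hda, ← d2, ← h]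
        · intro h
          apply h3
          rw [← hda, ← d3, ← h]
        · intro h
          apply h5
          rw [← hda, ← d4, ← h]
    · rintro (h | ⟨t, ⟨ht1', ht2', ht3', ht4'⟩, h⟩)
      · exact Or.inl h
      · right
        have h' := (hd t).symm.trans h
        refine ⟨?_, ?_, ?_, ?_, ?_⟩
        · rw [← h', map_mul, map_mul, hker, one_mul, one_mul, hs, Subgroup.mem_zpowers_iff]
          exact ⟨ee q t.2, by rw [← zpow_mul]⟩
        · intro hg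
          apply ht1'
          exact hl.dinj _ _ (h.trans (hg.trans ((hd t1).trans d1).symm))
        · intro hg
          apply ht3'
          exact hl.dinj _ _ (h.trans (hg.trans ((hd t3).trans d3).symm))
        · intro hg
          apply ht2'
          exact hl.dinj _ _ (h.trans (hg.trans ((hd t2).trans d2).symm))
        · intro hg
          apply ht4'
          exact hl.dinj _ _ (h.trans (hg.trans ((hd t4).trans d4).symm))

end cyc

end Pool.Agent.Y346.ST
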