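import Mathlib

set_option autoImplicit false

/-!
A matching lemma: the vertices of a finite set of even size can be matched by edges of two classes
so that the colours are distinct in each class and at most two colours of one class are avoided.
-/

namespace Pool.Agent.Y346.ST

variable {V W : Type*} [DecidableEq V] [DecidableEq W]

/-- `E` is a perfect matching of `X` by oriented edges with classes -/
structure GoodE (f : Bool → V → V → W) (B : Finset W) (X : Finset V)
    (E : Finset (V × V × Bool)) : Prop where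
  sub : ∀ e ∈ E, e.1 ∈ X ∧ e.2.1 ∈ X ∧ e.1 ≠ e.2.1
  dis : ∀ e ∈ E, ∀ e' ∈ E, (e.1 = e'.1 ∨ e.1 = e'.2.1 ∨ e.2.1 = e'.1 ∨ e.2.1 = e'.2.1) → e = e'
  card : 2 * E.card = X.card
  col : ∀ e ∈ E, ∀ e' ∈ E, e.2.2 = e'.2.2 → f e.2.2 e.1 e.2.1 = f e'.2.2 e'.1 e'.2.1 → e = e'
  avoid : ∀ e ∈ E, e.2.2 = false → f false e.1 e.2.1 ∉ B

variable {f : Bool → V → V → W} {B : Finset W}

omit [DecidableEq V] [DecidableEq W] in
theorem GoodE.empty : GoodE f B ∅ ∅ := by
  refine ⟨?_, ?_, ?_, ?_, ?_⟩ <;> simp

omit [DecidableEq W] in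
theorem GoodE.erase {X : Finset V} {E : Finset (V × V × Bool)} (h : GoodE f B X E)
    {e : V × V × Bool} (he : e ∈ E) : GoodE f B ((X.erase e.1).erase e.2.1) (E.erase e) := by
  have hs := h.sub e he
  refine ⟨?_, ?_, ?_, ?_, ?_⟩
  · intro e' he'
    rw [Finset.mem_erase] at he'
    obtain ⟨hne, he'E⟩ := he'
    have hs' := h.sub e' he'E
    refine ⟨?_, ?_, hs'.2.2⟩
    · rw [Finset.mem_erase, Finset.mem_erase]
      exact ⟨fun hh => hne (h.dis e' he'E e he (Or.inr (Or.inl hh))),
        fun hh => hne (h.dis e' he'E e he (Or.inl hh)), hs'.1⟩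
    · rw [Finset.mem_erase, Finset.mem_erase]
      exact ⟨fun hh => hne (h.dis e' he'E e he (Or.inr (Or.inr (Or.inr hh)))),
        fun hh => hne (h.dis e' he'E e he (Or.inr (Or.inr (Or.inl hh)))), hs'.2.1⟩
  · intro e1 h1 e2 h2
    exact h.dis e1 (Finset.mem_of_mem_erase h1) e2 (Finset.mem_of_mem_erase h2)
  · have h1 : e.2.1 ∈ X.erase e.1 := Finset.mem_erase.2 ⟨hs.2.2.symm, hs.2.1⟩
    rw [Finset.card_erase_of_mem h1, Finset.card_erase_of_mem hs.1, Finset.card_erase_of_mem he]
    have h2 := h.card
    have h3 : 0 < E.card := Finset.card_pos.2 ⟨e, he⟩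
    omega
  · intro e1 h1 e2 h2
    exact h.col e1 (Finset.mem_of_mem_erase h1) e2 (Finset.mem_of_mem_erase h2)
  · intro e1 h1
    exact h.avoid e1 (Finset.mem_of_mem_erase h1)

omit [DecidableEq W] in
theorem GoodE.add {X : Finset V} {E : Finset (V × V × Bool)} (h : GoodE f B X E)
    {x y : V} (hx : x ∉ X) (hy : y ∉ X) (hxy : x ≠ y) (c : Bool)
    (hc : ∀ e ∈ E, e.2.2 = c → f c e.1 e.2.1 ≠ f c x y)
    (hB : c = false → f false x y ∉ B) :
    GoodE f B (insert x (insert y X)) (insert (x, y, c) E) := by
  have hnot : (x, y, c) ∉ E := fun hh => hx (h.sub _ hh).1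
  refine ⟨?_, ?_, ?_, ?_, ?_⟩
  · intro e he
    rcases Finset.mem_insert.1 he with rfl | he
    · exact ⟨by simp, by simp, hxy⟩
    · have hs := h.sub e he
      exact ⟨by simp [hs.1], by simp [hs.2.1], hs.2.2⟩
  · intro e1 h1 e2 h2
    rcases Finset.mem_insert.1 h1 with rfl | h1 <;> rcases Finset.mem_insert.1 h2 with rfl | h2
    · intro _; rfl
    · intro hh
      exfalso
      have hs := h.sub e2 h2
      rcases hh with (hh : x = e2.1) | (hh : x = e2.2.1) | (hh : y = e2.1) | (hh : y = e2.2.1)
      · exact hx (hh ▸ hs.1)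
      · exact hx (hh ▸ hs.2.1)
      · exact hy (hh ▸ hs.1)
      · exact hy (hh ▸ hs.2.1)
    · intro hh
      exfalso
      have hs := h.sub e1 h1
      rcases hh with (hh : e1.1 = x) | (hh : e1.1 = y) | (hh : e1.2.1 = x) | (hh : e1.2.1 = y)
      · exact hx (hh ▸ hs.1)
      · exact hy (hh ▸ hs.1)
      · exact hx (hh ▸ hs.2.1)
      · exact hy (hh ▸ hs.2.1)
    · exact h.dis e1 h1 e2 h2
  · rw [Finset.card_insert_of_notMem hnot, Finset.card_insert_of_notMem,
      Finset.card_insert_of_notMem hy]
    · have := h.card; omega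
    · rw [Finset.mem_insert, not_or]
      exact ⟨hxy, hx⟩
  · intro e1 h1 e2 h2 hcc hff
    rcases Finset.mem_insert.1 h1 with rfl | h1 <;> rcases Finset.mem_insert.1 h2 with rfl | h2
    · rfl
    · exfalso
      simp only at hcc hff
      apply hc e2 h2 hcc.symm
      rw [← hcc] at hff
      exact hff.symm
    · exfalso
      simp only at hcc hff
      apply hc e1 h1 hcc
      rw [hcc] at hff
      exact hff
    · exact h.col e1 h1 e2 h2 hcc hff
  · intro e he hec
    rcases Finset.mem_insert.1 he with rfl | he
    · exact hB hec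
    · exact h.avoid e he hec

/-- four vertices can be matched by two edges of the class `true` with different colours -/
theorem good_four (hO : ∀ p r s w, f true p r = f true s w → f true p w = f true s r → p = s)
    {X : Finset V} (hX : X.card = 4) :
    ∃ E, GoodE f B X E ∧ ∀ e ∈ E, e.2.2 = true := by
  obtain ⟨p, hp⟩ : X.Nonempty := Finset.card_pos.1 (by omega)
  have h1 : (X.erase p).card = 3 := by rw [Finset.card_erase_of_mem hp, hX]
  obtain ⟨r, s, w, hrs, hrw, hsw, hXe⟩ := Finset.card_eq_three.1 h1
  have hr : r ∈ X.erase p := by rw [hXe]; simp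
  have hs : s ∈ X.erase p := by rw [hXe]; simp
  have hw : w ∈ X.erase p := by rw [hXe]; simp
  have hpr : p ≠ r := (Finset.ne_of_mem_erase hr).symm
  have hps : p ≠ s := (Finset.ne_of_mem_erase hs).symm
  have hpw : p ≠ w := (Finset.ne_of_mem_erase hw).symm
  have hXX : X = insert p (X.erase p) := (Finset.insert_erase hp).symm
  rw [hXe] at hXX
  by_cases hcase : f true p r = f true s w
  · have hne : f true p w ≠ f true s r := fun h => hps (hO p r s w hcase h)
    refine ⟨insert (p, w, true) (insert (s, r, true) ∅), ?_, ?_⟩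
    · have g1 : GoodE f B (insert s (insert r ∅)) (insert (s, r, true) ∅) :=
        GoodE.empty.add (by simp) (by simp) hrs.symm true (by simp) (by simp)
      have g2 := g1.add (x := p) (y := w) (by simp [hps, hpr]) (by simp [hsw.symm, hrw.symm]) hpw
        true (by
          intro e he _
          rw [Finset.mem_insert] at he
          rcases he with rfl | he
          · exact hne.symm
          · simp at he) (by simp)
      have : X = insert p (insert w (insert s (insert r ∅))) := by
        rw [hXX]
        ext a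
        simp only [Finset.mem_insert, Finset.mem_singleton, Finset.notMem_empty, or_false]
        tauto
      rw [this]
      exact g2
    · intro e he
      simp only [Finset.mem_insert, Finset.notMem_empty, or_false] at he
      rcases he with rfl | rfl <;> rfl
  · refine ⟨insert (p, r, true) (insert (s, w, true) ∅), ?_, ?_⟩
    · have g1 : GoodE f B (insert s (insert w ∅)) (insert (s, w, true) ∅) :=
        GoodE.empty.add (by simp) (by simp) hsw true (by simp) (by simp)
      have g2 := g1.add (x := p) (y := r) (by simp [hps, hpw]) (by simp [hrs, hrw]) hpr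
        true (by
          intro e he _
          rw [Finset.mem_insert] at he
          rcases he with rfl | he
          · exact fun h => hcase h.symm
          · simp at he) (by simp)
      have : X = insert p (insert r (insert s (insert w ∅))) := by
        rw [hXX]
        ext a
        simp only [Finset.mem_insert, Finset.mem_singleton, Finset.notMem_empty, or_false]
      rw [this]
      exact g2
    · intro e he
      simp only [Finset.mem_insert, Finset.notMem_empty, or_false] at he
      rcases he with rfl | rfl <;> rfl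

/-- the switching step -/
theorem good_switch (hinj : ∀ c u v v', f c u v = f c u v' → v = v') (hB : B.card ≤ 2)
    {X : Finset V} {E : Finset (V × V × Bool)} (h : GoodE f B X E) (h3 : 3 ≤ E.card)
    {x y : V} (hx : x ∉ X) (hy : y ∉ X) (hxy : x ≠ y) :
    ∃ E', GoodE f B (insert x (insert y X)) E' := by
  classical
  set Ef := E.filter (fun e => e.2.2 = false) with hEf
  set Et := E.filter (fun e => ¬ e.2.2 = false) with hEt
  have hcardE : Ef.card + Et.card = E.card := Finset.card_filter_add_card_filter_not _
  set C1 : Finset W := B ∪ Ef.image (fun e => f e.2.2 e.1 e.2.1) with hC1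
  set C2 : Finset W := Et.image (fun e => f e.2.2 e.1 e.2.1) with hC2
  have hC1c : C1.card ≤ 2 + Ef.card := by
    refine (Finset.card_union_le _ _).trans ?_
    have := Finset.card_image_le (s := Ef) (f := fun e => f e.2.2 e.1 e.2.1)
    omega
  have hC2c : C2.card ≤ Et.card := Finset.card_image_le
  set P : (V × V × Bool) × Bool → V := fun ω => if ω.2 then ω.1.1 else ω.1.2.1 with hP
  set R : (V × V × Bool) × Bool → V := fun ω => if ω.2 then ω.1.2.1 else ω.1.1 with hR
  set Ω : Finset ((V × V × Bool) × Bool) := E ×ˢ Finset.univ with hΩ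
  have hΩc : Ω.card = 2 * E.card := by
    rw [hΩ, Finset.card_product, Finset.card_univ, Fintype.card_bool, mul_comm]
  have hPinj : ∀ ω ∈ Ω, ∀ ω' ∈ Ω, P ω = P ω' → ω = ω' := by
    rintro ⟨e, b⟩ hω ⟨e', b'⟩ hω' hh
    have he : e ∈ E := (Finset.mem_product.1 hω).1
    have he' : e' ∈ E := (Finset.mem_product.1 hω').1
    have hee : e = e' := by
      apply h.dis e he e' he'
      rcases b <;> rcases b' <;> simp only [hP, if_true, Bool.false_eq_true, if_false] at hh
      · exact Or.inr (Or.inr (Or.inr hh))
      · exact Or.inr (Or.inr (Or.inl hh))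
      · exact Or.inr (Or.inl hh)
      · exact Or.inl hh
    subst hee
    have hne := (h.sub e he).2.2
    rcases b <;> rcases b' <;> simp only [hP, if_true, Bool.false_eq_true, if_false] at hh
    · rfl
    · exact absurd hh.symm hne
    · exact absurd hh hne
    · rfl
  have hRinj : ∀ ω ∈ Ω, ∀ ω' ∈ Ω, R ω = R ω' → ω = ω' := by
    rintro ⟨e, b⟩ hω ⟨e', b'⟩ hω' hh
    have h1 : P (e, !b) = P (e', !b') := by
      rcases b <;> rcases b' <;> simpa [hP, hR] using hh
    have h2 := hPinj (e, !b) (by rw [hΩ, Finset.mem_product] at hω ⊢; exact ⟨hω.1, by simp⟩)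
      (e', !b') (by rw [hΩ, Finset.mem_product] at hω' ⊢; exact ⟨hω'.1, by simp⟩) h1
    simp only [Prod.mk.injEq] at h2 ⊢
    exact ⟨h2.1, by simpa using h2.2⟩
  set bad1 := Ω.filter (fun ω => f false x (P ω) ∈ C1) with hbad1
  set bad2 := Ω.filter (fun ω => f true y (R ω) ∈ C2) with hbad2
  have hb1 : bad1.card ≤ C1.card := by
    apply Finset.card_le_card_of_injOn (fun ω => f false x (P ω))
    · intro ω hω
      exact (Finset.mem_filter.1 hω).2
    · intro ω hω ω' hω' hh
      exact hPinj ω (Finset.mem_filter.1 hω).1 ω' (Finset.mem_filter.1 hω').1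
        (hinj _ _ _ _ hh)
  have hb2 : bad2.card ≤ C2.card := by
    apply Finset.card_le_card_of_injOn (fun ω => f true y (R ω))
    · intro ω hω
      exact (Finset.mem_filter.1 hω).2
    · intro ω hω ω' hω' hh
      exact hRinj ω (Finset.mem_filter.1 hω).1 ω' (Finset.mem_filter.1 hω').1
        (hinj _ _ _ _ hh)
  obtain ⟨ω, hωΩ, hω⟩ : ∃ ω ∈ Ω, ω ∉ bad1 ∪ bad2 := by
    by_contra hcon
    push Not at hcon
    have h5 : Ω.card ≤ (bad1 ∪ bad2).card := Finset.card_le_card hcon
    have h6 := Finset.card_union_le bad1 bad2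
    omega
  rw [Finset.mem_union, not_or] at hω
  obtain ⟨hω1, hω2⟩ := hω
  have hn1 : f false x (P ω) ∉ C1 := fun hh => hω1 (Finset.mem_filter.2 ⟨hωΩ, hh⟩)
  have hn2 : f true y (R ω) ∉ C2 := fun hh => hω2 (Finset.mem_filter.2 ⟨hωΩ, hh⟩)
  obtain ⟨e, b⟩ := ω
  have he : e ∈ E := (Finset.mem_product.1 hωΩ).1
  have hs := h.sub e he
  have hg := h.erase he
  set p := P (e, b) with hp
  set r := R (e, b) with hr
  have hpr : (p = e.1 ∧ r = e.2.1) ∨ (p = e.2.1 ∧ r = e.1) := by
    rcases b
    · right; exact ⟨rfl, rfl⟩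
    · left; exact ⟨rfl, rfl⟩
  have hpX : p ∈ X := by rcases hpr with ⟨h1, _⟩ | ⟨h1, _⟩ <;> rw [h1]; exacts [hs.1, hs.2.1]
  have hrX : r ∈ X := by rcases hpr with ⟨_, h1⟩ | ⟨_, h1⟩ <;> rw [h1]; exacts [hs.2.1, hs.1]
  have hprne : p ≠ r := by
    rcases hpr with ⟨h1, h2⟩ | ⟨h1, h2⟩ <;> rw [h1, h2]
    exacts [hs.2.2, hs.2.2.symm]
  have hX0 : ∀ a, a ∈ (X.erase e.1).erase e.2.1 ↔ a ∈ X ∧ a ≠ p ∧ a ≠ r := by
    intro a
    rw [Finset.mem_erase, Finset.mem_erase]
    rcases hpr with ⟨h1, h2⟩ | ⟨h1, h2⟩ <;> rw [h1, h2] <;> tauto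
  have hxp : x ≠ p := fun hh => hx (hh ▸ hpX)
  have hyr : y ≠ r := fun hh => hy (hh ▸ hrX)
  have hxr : x ≠ r := fun hh => hx (hh ▸ hrX)
  have hyp : y ≠ p := fun hh => hy (hh ▸ hpX)
  have g1 := hg.add (x := x) (y := p) (by rw [hX0]; tauto) (by rw [hX0]; tauto) hxp false
    (by
      intro e' he' hc hh
      apply hn1
      rw [← hh, hC1, Finset.mem_union]
      right
      rw [Finset.mem_image]
      exact ⟨e', Finset.mem_filter.2 ⟨Finset.mem_of_mem_erase he', hc⟩, by rw [hc]⟩)
    (by
      intro _ hh
      apply hn1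
      rw [hC1, Finset.mem_union]
      exact Or.inl hh)
  have g2 := g1.add (x := y) (y := r) (by
      rw [Finset.mem_insert, Finset.mem_insert, hX0]
      rintro (hh | hh | hh)
      · exact hxy hh.symm
      · exact hyp hh
      · exact hy hh.1) (by
      rw [Finset.mem_insert, Finset.mem_insert, hX0]
      rintro (hh | hh | hh)
      · exact hxr hh.symm
      · exact hprne hh.symm
      · exact hh.2.2 rfl) hyr true
    (by
      intro e' he' hc hh
      rw [Finset.mem_insert] at he'
      rcases he' with rfl | he'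
      · simp at hc
      · apply hn2
        rw [← hh, hC2, Finset.mem_image]
        refine ⟨e', Finset.mem_filter.2 ⟨Finset.mem_of_mem_erase he', by rw [hc]; simp⟩, by rw [hc]⟩)
    (by simp)
  have hXX : insert x (insert y X) =
      insert y (insert r (insert x (insert p ((X.erase e.1).erase e.2.1)))) := by
    ext a
    simp only [Finset.mem_insert]
    rw [hX0]
    constructor
    · rintro (hh | hh | hh)
      · tauto
      · tauto
      · by_cases ha : a = p
        · tauto
        · by_cases ha' : a = r
          · tauto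
          · tauto
    · rintro (hh | hh | hh | hh | hh)
      · tauto
      · right; right; rw [hh]; exact hrX
      · tauto
      · right; right; rw [hh]; exact hpX
      · tauto
  rw [hXX]
  exact ⟨_, g2⟩

/-- the matching lemma -/
theorem rainbow (hinj : ∀ c u v v', f c u v = f c u v' → v = v')
    (hO : ∀ p r s w, f true p r = f true s w → f true p w = f true s r → p = s)
    (hB : B.card ≤ 2) (m : ℕ) (X : Finset V) (hX : X.card = 2 * m) : ∃ E, GoodE f B X E := by
  induction m generalizing X with
  | zero =>
    have : X = ∅ := Finset.card_eq_zero.1 hX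
    rw [this]
    exact ⟨∅, GoodE.empty⟩
  | succ m ih =>
    rcases Nat.lt_or_ge m 3 with hm | hm
    · have : m = 0 ∨ m = 1 ∨ m = 2 := by omega
      rcases this with rfl | rfl | rfl
      · obtain ⟨x, y, hxy, hXe⟩ := Finset.card_eq_two.1 hX
        rw [hXe]
        exact ⟨_, GoodE.empty.add (x := x) (y := y) (by simp) (by simp) hxy true (by simp)
          (by simp)⟩
      · obtain ⟨E, hE, _⟩ := good_four (f := f) (B := B) hO (X := X) (by omega)
        exact ⟨E, hE⟩
      · obtain ⟨x, hx⟩ : X.Nonempty := Finset.card_pos.1 (by omega)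
        have h1 : (X.erase x).card = 5 := by rw [Finset.card_erase_of_mem hx]; omega
        obtain ⟨y, hy, hyB⟩ : ∃ y ∈ X.erase x, f false x y ∉ B := by
          by_contra hcon
          push Not at hcon
          have h2 : (X.erase x).card ≤ B.card := by
            apply Finset.card_le_card_of_injOn (fun y => f false x y)
            · intro y hy
              exact hcon y hy
            · intro y _ y' _ hh
              exact hinj _ _ _ _ hh
          omega
        have hxy : x ≠ y := (Finset.ne_of_mem_erase hy).symm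
        have h2 : ((X.erase x).erase y).card = 4 := by
          rw [Finset.card_erase_of_mem hy, h1]
        obtain ⟨E, hE, hEt⟩ := good_four (f := f) (B := B) hO h2
        have hXX : X = insert x (insert y ((X.erase x).erase y)) := by
          rw [Finset.insert_erase hy, Finset.insert_erase hx]
        rw [hXX]
        refine ⟨_, hE.add (x := x) (y := y) (by simp) (by simp) hxy false ?_ (fun _ => hyB)⟩
        intro e he hec
        rw [hEt e he] at hec
        exact absurd hec (by simp)
    · obtain ⟨x, hx⟩ : X.Nonempty := Finset.card_pos.1 (by omega)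
      have h1 : (X.erase x).card = 2 * m + 1 := by rw [Finset.card_erase_of_mem hx]; omega
      obtain ⟨y, hy⟩ : (X.erase x).Nonempty := Finset.card_pos.1 (by omega)
      have hxy : x ≠ y := (Finset.ne_of_mem_erase hy).symm
      have h2 : ((X.erase x).erase y).card = 2 * m := by
        rw [Finset.card_erase_of_mem hy, h1]; omega
      obtain ⟨E, hE⟩ := ih _ h2
      have hXX : X = insert x (insert y ((X.erase x).erase y)) := by
        rw [Finset.insert_erase hy, Finset.insert_erase hx]
      rw [hXX]
      exact good_switch hinj hB hE (by have := hE.card; omega) (by simp) (by simp) hxy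

end Pool.Agent.Y346.ST
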