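import Mathlib
import Pool.Agent.Y346.ST.Cyc1
import Pool.Agent.Y346.ST.Rain

set_option autoImplicit false

/-!
The second block in a split extension of a group of odd order by a cyclic group of order `4 q`.
-/

namespace Pool.Agent.Y346.ST

open Pool.Agent.Helper466.Starter

universe u

variable {G P : Type u} [Group G] [Group P]

/-- the two odd exponents -/
def kap (q : ℕ) : Bool → ℤ
  | false => 1
  | true => 2 * q - 1

/-- the differences of the long edges of the second block -/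
def ff (π : G →* P) (s : P →* G) (γ : P) (q : ℕ) (c : Bool) (u v : π.ker) : G :=
  (u : G) * s (γ ^ kap q c) * (v : G)⁻¹

section

variable {γ : P} {q : ℕ}

theorem pi_ff (π : G →* P) (s : P →* G) (hs : ∀ p, π (s p) = p) (c : Bool) (u v : π.ker) :
    π (ff π s γ q c u v) = γ ^ kap q c := by
  unfold ff
  rw [map_mul, map_mul, map_inv, hs, show π (u : G) = 1 from u.2, show π (v : G) = 1 from v.2]
  simp

theorem ff_inj (π : G →* P) (s : P →* G) (c : Bool) (u v v' : π.ker)
    (h : ff π s γ q c u v = ff π s γ q c u v') : v = v' := by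
  unfold ff at h
  have h1 := mul_left_cancel h
  exact Subtype.ext (inv_injective h1)

theorem ff_O [Finite G] (π : G →* P) (s : P →* G) (hodd : Odd (Nat.card π.ker)) (c : Bool)
    (p r k w : π.ker)
    (h1 : ff π s γ q c p r = ff π s γ q c k w) (h2 : ff π s γ q c p w = ff π s γ q c k r) :
    p = k := by
  unfold ff at h1 h2
  set g := s (γ ^ kap q c) with hg
  -- k⁻¹ p = g w⁻¹ r g⁻¹ = g r⁻¹ w g⁻¹
  have e1 : (k : G)⁻¹ * p = g * ((w : G)⁻¹ * r) * g⁻¹ := by
    have : (p : G) = k * g * (w : G)⁻¹ * r * g⁻¹ := by rw [← h1]; group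
    rw [this]; group
  have e2 : (k : G)⁻¹ * p = g * ((r : G)⁻¹ * w) * g⁻¹ := by
    have : (p : G) = k * g * (r : G)⁻¹ * w * g⁻¹ := by rw [← h2]; group
    rw [this]; group
  have e3 : (w : G)⁻¹ * r = (r : G)⁻¹ * w := by
    have := e1.symm.trans e2
    have h3 := mul_right_cancel this
    exact mul_left_cancel h3
  have e4 : (w⁻¹ * r) * (w⁻¹ * r) = 1 := by
    apply Subtype.ext
    show ((w : G)⁻¹ * r) * ((w : G)⁻¹ * r) = 1
    nth_rewrite 1 [e3]
    group
  have e5 := sq_one hodd e4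
  have e6 : (w : G)⁻¹ * r = 1 := congrArg Subtype.val e5
  rw [e6] at e1
  have e7 : (k : G)⁻¹ * p = 1 := by rw [e1]; group
  rw [inv_mul_eq_one] at e7
  exact (Subtype.ext e7).symm

theorem kap_cases (q : ℕ) (c : Bool) : kap q c = 1 ∨ kap q c = 2 * q - 1 := by
  rcases c
  · exact Or.inl rfl
  · exact Or.inr rfl

theorem kap_odd (q : ℕ) (c : Bool) : Odd (kap q c) := by
  rcases kap_cases q c with h | h <;> rw [h]
  · decide
  · exact ⟨q - 1, by ring⟩

theorem zp_ne {m : ℤ} (hord : orderOf γ = 4 * q) (a b : ℤ) (h : a - b = m) (h1 : 0 < m)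
    (h2 : m < 4 * q) : γ ^ a ≠ γ ^ b := by
  intro hh
  rw [mc_eq hord] at hh
  have := mc_small hh (by omega) (by omega)
  omega

/-- the second block -/
theorem blk_second [Finite G] [Finite P] (π : G →* P) (s : P →* G) (hs : ∀ p, π (s p) = p)
    (hq : 2 ≤ q) (hord : orderOf γ = 4 * q) (a0 b1 : π.ker)
    (ha0 : a0 ≠ 1) (hb1 : b1 ≠ 1) (hab : a0 ≠ b1) [Fintype π.ker] [DecidableEq π.ker]
    [DecidableEq G]
    (B : Finset G) (X : Finset π.ker) (hX : X = ((Finset.univ.erase 1).erase a0).erase b1)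
    (E : Finset (π.ker × π.ker × Bool))
    (hE : GoodE (ff π s γ q) B X E) (δ : G) (hδ : δ = (a0 : G) * s (γ ^ (2 : ℤ)) * (b1 : G)⁻¹)
    (D : Finset G)
    (hD : ∀ g, g ∈ D ↔ (g = δ ∨ g = δ⁻¹ ∨ g = s (γ ^ (2 * (q : ℤ)))) ∨
      ∃ e ∈ E, g = ff π s γ q e.2.2 e.1 e.2.1 ∨ g = (ff π s γ q e.2.2 e.1 e.2.1)⁻¹) : Blk D := by
  have hq' : (2 : ℤ) ≤ q := by exact_mod_cast hq
  have hsinj : Function.Injective s := fun a b hab => by rw [← hs a, hab, hs]
  have hker : ∀ a : π.ker, π (a : G) = 1 := fun a => a.2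
  have hXmem : ∀ a, a ∈ X ↔ a ≠ 1 ∧ a ≠ a0 ∧ a ≠ b1 := by
    intro a
    rw [hX]
    simp only [Finset.mem_erase, Finset.mem_univ, and_true]
    tauto
  set z : P := γ ^ (2 * (q : ℤ)) with hz
  have hzz : z * z = 1 := mc_zz hord
  have hz1 : z ≠ 1 := by
    rw [Ne, mc_one hord]
    intro h
    have := Int.le_of_dvd (by positivity) h
    linarith
  have hszi : (s z)⁻¹ = s z := by
    rw [← map_inv]
    congr 1
    exact (mul_eq_one_iff_eq_inv.1 hzz).symm
  let ι := Option {e : π.ker × π.ker × Bool // e ∈ E}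
  let x : ι → G := fun i => i.elim ((a0 : G) * s (γ ^ (2 : ℤ)))
    (fun e => (e.1.1 : G) * s (γ ^ kap q e.1.2.2))
  let y : ι → G := fun i => i.elim (b1 : G) (fun e => (e.1.2.1 : G))
  have f1 : x none * (y none)⁻¹ = δ := by rw [hδ]; rfl
  have f2 : y none * (x none)⁻¹ = δ⁻¹ := by rw [← f1]; group
  have f3 : ∀ e, x (some e) * (y (some e))⁻¹ = ff π s γ q e.1.2.2 e.1.1 e.1.2.1 := fun e => rfl
  have f4 : ∀ e, y (some e) * (x (some e))⁻¹ = (ff π s γ q e.1.2.2 e.1.1 e.1.2.1)⁻¹ := by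
    intro e
    rw [← f3]
    group
  have f5 : (1 : G) * (s z)⁻¹ = s z := by rw [one_mul, hszi]
  have p1 : π δ = γ ^ (2 : ℤ) := by
    rw [hδ, map_mul, map_mul, map_inv, hs, hker, hker]; simp
  have p2 : π δ⁻¹ = γ ^ (-2 : ℤ) := by rw [map_inv, p1, zpow_neg]
  have p3 : ∀ e : {e : π.ker × π.ker × Bool // e ∈ E}, π (ff π s γ q e.1.2.2 e.1.1 e.1.2.1) =
      γ ^ kap q e.1.2.2 := fun e => pi_ff π s hs _ _ _
  have p4 : ∀ e : {e : π.ker × π.ker × Bool // e ∈ E}, π (ff π s γ q e.1.2.2 e.1.1 e.1.2.1)⁻¹ =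
      γ ^ (-kap q e.1.2.2) := fun e => by rw [map_inv, p3, zpow_neg]
  have p5 : π (s z) = γ ^ (2 * (q : ℤ)) := hs z
  -- exponents are different
  have k1 : ∀ c, γ ^ (2 : ℤ) ≠ γ ^ kap q c := fun c =>
    even_ne_odd hord 1 _ (kap_odd q c)
  have k2 : ∀ c, γ ^ (2 : ℤ) ≠ γ ^ (-kap q c) := fun c =>
    even_ne_odd hord 1 _ (kap_odd q c).neg
  have k3 : ∀ c, γ ^ (-2 : ℤ) ≠ γ ^ kap q c := fun c => by
    have h := even_ne_odd hord (-1) _ (kap_odd q c)
    rwa [show (2 : ℤ) * -1 = -2 by norm_num] at h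
  have k4 : ∀ c, γ ^ (-2 : ℤ) ≠ γ ^ (-kap q c) := fun c => by
    have h := even_ne_odd hord (-1) _ (kap_odd q c).neg
    rwa [show (2 : ℤ) * -1 = -2 by norm_num] at h
  have k5 : ∀ c, γ ^ (2 * (q : ℤ)) ≠ γ ^ kap q c := fun c =>
    even_ne_odd hord q _ (kap_odd q c)
  have k6 : ∀ c, γ ^ (2 * (q : ℤ)) ≠ γ ^ (-kap q c) := fun c =>
    even_ne_odd hord q _ (kap_odd q c).neg
  have k7 : γ ^ (2 : ℤ) ≠ γ ^ (-2 : ℤ) := zp_ne hord _ _ rfl (by norm_num) (by linarith)
  have k8 : γ ^ (2 * (q : ℤ)) ≠ γ ^ (2 : ℤ) := zp_ne hord _ _ rfl (by linarith) (by linarith)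
  have k9 : γ ^ (2 * (q : ℤ)) ≠ γ ^ (-2 : ℤ) := zp_ne hord _ _ rfl (by linarith) (by linarith)
  have k10 : ∀ c c', γ ^ kap q c ≠ γ ^ (-kap q c') := by
    intro c c'
    rcases kap_cases q c with h | h <;> rcases kap_cases q c' with h' | h' <;> rw [h, h'] <;>
      exact zp_ne hord _ _ rfl (by linarith) (by linarith)
  have k11 : ∀ c c', γ ^ kap q c = γ ^ kap q c' → c = c' := by
    intro c c' h
    rcases c <;> rcases c'
    · rfl
    · exfalso
      exact zp_ne hord (2 * (q : ℤ) - 1) 1 rfl (by linarith) (by linarith) h.symm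
    · exfalso
      exact zp_ne hord (2 * (q : ℤ) - 1) 1 rfl (by linarith) (by linarith) h
    · rfl
  have hcos : ∀ (a b : π.ker) (p r : P), (((a : G) * s p : G) : G ⧸ s.range) = ((b : G) * s r : G) →
      a = b := by
    intro a b p r h
    rw [QuotientGroup.eq] at h
    obtain ⟨t, ht⟩ := h
    have h1 : t = p⁻¹ * r := by
      have := congrArg π ht
      rw [hs] at this
      rw [this]
      simp only [map_mul, map_inv, hs, hker]
      group
    have h2 : (a : G)⁻¹ * b = 1 := by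
      have h3 : (a : G)⁻¹ * b = s p * s t * (s r)⁻¹ := by rw [ht]; group
      rw [h3, h1, ← map_inv, ← map_mul, ← map_mul]
      have : p * (p⁻¹ * r) * r⁻¹ = 1 := by group
      rw [this, map_one]
    exact Subtype.ext (inv_mul_eq_one.1 h2)
  refine Blk.mk' (ι := ι) (κ := Unit) s.range x y (fun _ => 1) (fun _ => s z) ?_ ?_ ?_ ?_ D ?_ ?_
  · intro i h
    have h1 := congrArg π h
    rw [map_mul, map_one] at h1
    rcases i with _ | e
    · rw [f1, p1, ← zpow_add] at h1
      refine zp_ne hord (2 + 2) 0 rfl (by norm_num) (by linarith) ?_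
      rw [h1, zpow_zero]
    · rw [f3, p3, ← zpow_add] at h1
      apply k10 e.1.2.2 e.1.2.2
      rw [zpow_neg, eq_inv_iff_mul_eq_one, ← zpow_add]
      exact h1
  · intro _
    refine ⟨s z, ⟨z, rfl⟩, ?_, ?_, by rw [one_mul]⟩
    · intro h
      apply hz1
      rw [← hs z, h, map_one]
    · rw [← map_mul, hzz, map_one]
  · -- vertices
    let vt : (ι ⊕ ι) ⊕ Unit → π.ker := Sum.elim (Sum.elim
      (fun i => i.elim a0 (fun e => e.1.1)) (fun i => i.elim b1 (fun e => e.1.2.1))) (fun _ => 1)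
    let vp : (ι ⊕ ι) ⊕ Unit → P := Sum.elim (Sum.elim
      (fun i => i.elim (γ ^ (2 : ℤ)) (fun e => γ ^ kap q e.1.2.2)) (fun _ => 1)) (fun _ => 1)
    have hVe : ∀ a, (Sum.elim (Sum.elim (fun i => ((x i : G) : G ⧸ s.range))
        (fun i => ((y i : G) : G ⧸ s.range))) (fun _ : Unit => (((1 : G)) : G ⧸ s.range))) a =
          (((vt a : G) * s (vp a) : G) : G ⧸ s.range) := by
      rintro (((_ | e) | (_ | e)) | _)
      · rfl
      · rfl
      · show ((b1 : G) : G ⧸ s.range) = (((b1 : G) * s 1 : G) : G ⧸ s.range)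
        rw [map_one, mul_one]
      · show ((e.1.2.1 : G) : G ⧸ s.range) = (((e.1.2.1 : G) * s 1 : G) : G ⧸ s.range)
        rw [map_one, mul_one]
      · show ((1 : G) : G ⧸ s.range) = (((1 : G) * s 1 : G) : G ⧸ s.range)
        rw [map_one, mul_one]
    have hvinj : Function.Injective vt := by
      have s1 : ∀ e : {e : π.ker × π.ker × Bool // e ∈ E}, e.1.1 ∈ X ∧ e.1.2.1 ∈ X ∧
          e.1.1 ≠ e.1.2.1 := fun e => hE.sub e.1 e.2
      rintro (((_ | e) | (_ | e)) | _) (((_ | e') | (_ | e')) | _) h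
      · rfl
      · exact absurd h.symm (((hXmem _).1 (s1 e').1).2.1)
      · exact absurd h hab
      · exact absurd h.symm (((hXmem _).1 (s1 e').2.1).2.1)
      · exact absurd h ha0
      · exact absurd h (((hXmem _).1 (s1 e).1).2.1)
      · have h1 : e.1.1 = e'.1.1 := h
        have : e = e' := Subtype.ext (hE.dis _ e.2 _ e'.2 (Or.inl h1))
        rw [this]
      · exact absurd h (((hXmem _).1 (s1 e).1).2.2)
      · exfalso
        have h1 : e.1.1 = e'.1.2.1 := h
        have : e = e' := Subtype.ext (hE.dis _ e.2 _ e'.2 (Or.inr (Or.inl h1)))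
        rw [this] at h1
        exact (s1 e').2.2 h1
      · exact absurd h (((hXmem _).1 (s1 e).1).1)
      · exact absurd h.symm hab
      · exact absurd h.symm (((hXmem _).1 (s1 e').1).2.2)
      · rfl
      · exact absurd h.symm (((hXmem _).1 (s1 e').2.1).2.2)
      · exact absurd h hb1
      · exact absurd h (((hXmem _).1 (s1 e).2.1).2.1)
      · exfalso
        have h1 : e.1.2.1 = e'.1.1 := h
        have : e = e' := Subtype.ext (hE.dis _ e.2 _ e'.2 (Or.inr (Or.inr (Or.inl h1))))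
        rw [this] at h1
        exact (s1 e').2.2 h1.symm
      · exact absurd h (((hXmem _).1 (s1 e).2.1).2.2)
      · have h1 : e.1.2.1 = e'.1.2.1 := h
        have : e = e' := Subtype.ext (hE.dis _ e.2 _ e'.2 (Or.inr (Or.inr (Or.inr h1))))
        rw [this]
      · exact absurd h (((hXmem _).1 (s1 e).2.1).1)
      · exact absurd h.symm ha0
      · exact absurd h.symm (((hXmem _).1 (s1 e').1).1)
      · exact absurd h.symm hb1
      · exact absurd h.symm (((hXmem _).1 (s1 e').2.1).1)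
      · rfl
    intro a b hab'
    rw [hVe, hVe] at hab'
    exact hvinj (hcos _ _ _ _ hab')
  · -- cardinality
    have h1 : Fintype.card ι = E.card + 1 := by
      show Fintype.card (Option {e : π.ker × π.ker × Bool // e ∈ E}) = _
      rw [Fintype.card_option, Fintype.card_coe]
    have h2 : X.card + 3 = Fintype.card π.ker := by
      have h3 : b1 ∈ ((Finset.univ : Finset π.ker).erase 1).erase a0 := by
        simp [hb1, hab.symm]
      have h4 : a0 ∈ (Finset.univ : Finset π.ker).erase 1 := by simp [ha0]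
      rw [hX, Finset.card_erase_of_mem h3, Finset.card_erase_of_mem h4,
        Finset.card_erase_of_mem (Finset.mem_univ _), Finset.card_univ]
      have h5 : ({1, a0, b1} : Finset π.ker).card ≤ Fintype.card π.ker := Finset.card_le_univ _
      rw [Finset.card_insert_of_notMem, Finset.card_insert_of_notMem,
        Finset.card_singleton] at h5
      · omega
      · simp [hab]
      · simp [ha0.symm, hb1.symm]
    have h3 : s.range.index = Fintype.card π.ker := by
      have h4 := s.range.index_mul_card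
      have h5 := π.ker.index_mul_card
      rw [Subgroup.index_ker] at h5
      have h6 : Nat.card π.range = Nat.card P := by
        have : π.range = ⊤ := MonoidHom.range_eq_top.2 (fun p => ⟨s p, hs p⟩)
        rw [this]
        exact Nat.card_congr Subgroup.topEquiv.toEquiv
      have h7 : Nat.card s.range = Nat.card P :=
        (Nat.card_congr (MonoidHom.ofInjective hsinj).toEquiv).symm
      rw [h7] at h4
      rw [h6] at h5
      have h8 : 0 < Nat.card P := Nat.card_pos
      have h9 : Fintype.card π.ker = Nat.card π.ker := Nat.card_eq_fintype_card.symm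
      rw [h9]
      apply Nat.eq_of_mul_eq_mul_right h8
      rw [h4, ← h5]
      ring
    rw [h1, h3, ← h2, ← hE.card, Fintype.card_unit]
    ring
  · -- differences
    have hcol : ∀ e e' : {e : π.ker × π.ker × Bool // e ∈ E},
        ff π s γ q e.1.2.2 e.1.1 e.1.2.1 = ff π s γ q e'.1.2.2 e'.1.1 e'.1.2.1 → e = e' := by
      intro e e' h
      apply Subtype.ext
      refine hE.col _ e.2 _ e'.2 ?_ h
      apply k11
      rw [← p3, ← p3, h]
    rintro (((_ | e) | (_ | e)) | _) (((_ | e') | (_ | e')) | _) h <;>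
      simp only [Sum.elim_inl, Sum.elim_inr, f1, f2, f3, f4, f5] at h
    · rfl
    · exact absurd (by rw [← p1, ← p3 e', h]) (k1 e'.1.2.2)
    · exact absurd (by rw [← p1, ← p2, ← h]) k7
    · exact absurd (by rw [← p1, ← p4 e', h]) (k2 e'.1.2.2)
    · exact absurd (by rw [← p5, ← p1, h]) k8
    · exact absurd (by rw [← p1, ← p3 e, h]) (k1 e.1.2.2)
    · rw [hcol e e' h]
    · exact absurd (by rw [← p2, ← p3 e, h]) (k3 e.1.2.2)
    · exact absurd (by rw [← p3 e, ← p4 e', h]) (k10 e.1.2.2 e'.1.2.2)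
    · exact absurd (by rw [← p5, ← p3 e, h]) (k5 e.1.2.2)
    · exact absurd (by rw [← p1, ← p2, h]) k7
    · exact absurd (by rw [← p2, ← p3 e', h]) (k3 e'.1.2.2)
    · rfl
    · exact absurd (by rw [← p2, ← p4 e', h]) (k4 e'.1.2.2)
    · exact absurd (by rw [← p5, ← p2, h]) k9
    · exact absurd (by rw [← p1, ← p4 e, h]) (k2 e.1.2.2)
    · exact absurd (by rw [← p3 e', ← p4 e, h]) (k10 e'.1.2.2 e.1.2.2)
    · exact absurd (by rw [← p2, ← p4 e, h]) (k4 e.1.2.2)
    · rw [hcol e e' (inv_injective h)]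
    · exact absurd (by rw [← p5, ← p4 e, h]) (k6 e.1.2.2)
    · exact absurd (by rw [← p5, ← p1, h]) k8
    · exact absurd (by rw [← p5, ← p3 e', h]) (k5 e'.1.2.2)
    · exact absurd (by rw [← p5, ← p2, h]) k9
    · exact absurd (by rw [← p5, ← p4 e', h]) (k6 e'.1.2.2)
    · rfl
  · intro g
    rw [hD]
    constructor
    · rintro ((h | h | h) | ⟨e, he, h | h⟩)
      · exact Or.inl ⟨none, by rw [f1, h]⟩
      · exact Or.inr (Or.inl ⟨none, by rw [f2, h]⟩)
      · exact Or.inr (Or.inr ⟨(), by rw [f5, h]⟩)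
      · exact Or.inl ⟨some ⟨e, he⟩, by rw [f3, h]⟩
      · exact Or.inr (Or.inl ⟨some ⟨e, he⟩, by rw [f4, h]⟩)
    · rintro (⟨i, h⟩ | ⟨i, h⟩ | ⟨i, h⟩)
      · rcases i with _ | e
        · rw [f1] at h; exact Or.inl (Or.inl h.symm)
        · rw [f3] at h; exact Or.inr ⟨e.1, e.2, Or.inl h.symm⟩
      · rcases i with _ | e
        · rw [f2] at h; exact Or.inl (Or.inr (Or.inl h.symm))
        · rw [f4] at h; exact Or.inr ⟨e.1, e.2, Or.inr h.symm⟩
      · rw [f5] at h; exact Or.inl (Or.inr (Or.inr h.symm))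

end

end Pool.Agent.Y346.ST
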