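import Mathlib
import Pool.Agent.Helper466.Starter.Counting
import Pool.Agent.Helper466.Starter.Dichotomy

set_option autoImplicit false

/-!
Sharper forms of `layer_induction` and `cov_of_data` of
`Pool.Agent.Helper466.Starter`: the partial cover contains no involution, and it misses a
non-square element outside the Frattini subgroup (the proofs are those of that library).
-/

namespace Pool.Agent.Y346.ST

open Pool.Agent.Helper466.Starter

/-- the layer induction -/
theorem layer_induction2 {G : Type*} [Group G] [Finite G] [DecidableEq G] (h2 : IsPGroup 2 G)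
    (z e : G) (hz1 : z ≠ 1) (hzz : z * z = 1)
    (hzc : ∀ g, g * z = z * g) (hee : e * e = 1) (he1 : e ≠ 1) (hez : e ≠ z)
    (hconj : ∀ g, g * e * g⁻¹ = e ∨ g * e * g⁻¹ = e * z)
    (P A M : Subgroup G) [hPn : P.Normal] (hzP : z ∈ P) (heP : e ∈ P)
    (hcomm : ∀ x ∈ P, x * e = e * x) (hAP : A ⊓ P = ⊥) (hPM : P ≤ M) (hAM : A ≤ M)
    (hM : M.index = 2) (C0 : Finset G) (hC0M : ∀ f ∈ C0, f ∉ M)
    (hC0 : ∀ f ∈ C0, ∀ f' ∈ C0, ∀ s t s' t' : Bool, qd (prt z e) f s t = qd (prt z e) f' s' t' →
        f = f' ∧ s = s' ∧ t = t')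
    (hcount : (kl4 z e hzz hzc hee ⊔ A).index ≤ 2 * C0.card) :
    ∃ D : Finset G, Cov D ∧ 1 ∉ D ∧ (∀ x ∈ D, x⁻¹ ∈ D) ∧ (∀ x ∈ P, x * x ≠ 1 → x ∈ D) ∧
      (∀ x ∈ D, x * x ≠ 1) ∧ ∀ x ∈ D, x ∈ P ∨ x ∉ M := by
  classical
  set E : Subgroup G := kl4 z e hzz hzc hee with hE
  have hEP : E ≤ P := by
    intro x hx
    rcases mem_kl4.1 hx with rfl | rfl | rfl | rfl
    · exact P.one_mem
    · exact hzP
    · exact heP
    · exact P.mul_mem heP hzP
  have hEn : E.Normal := by
    constructor
    intro x hx g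
    rcases mem_kl4.1 hx with rfl | rfl | rfl | rfl
    · rw [mul_one, mul_inv_cancel]; exact E.one_mem
    · rw [hzc, mul_assoc, mul_inv_cancel, mul_one]; exact hx
    · rcases hconj g with h | h
      · rw [h]; exact hx
      · rw [h]; exact mem_kl4.2 (Or.inr (Or.inr (Or.inr rfl)))
    · have e1 : g * (e * z) * g⁻¹ = (g * e * g⁻¹) * z := by
        calc g * (e * z) * g⁻¹ = g * e * (z * g⁻¹) := by group
          _ = g * e * (g⁻¹ * z) := by rw [hzc g⁻¹]
          _ = (g * e * g⁻¹) * z := by group
      rw [e1]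
      rcases hconj g with h | h
      · rw [h]; exact hx
      · rw [h, mul_assoc, hzz, mul_one]; exact mem_kl4.2 (Or.inr (Or.inr (Or.inl rfl)))
  have hprtE : ∀ f : G, f⁻¹ * prt z e f ∈ E := by
    intro f
    unfold prt
    split_ifs
    · rw [inv_mul_cancel_left]; exact mem_kl4.2 (Or.inr (Or.inr (Or.inl rfl)))
    · rw [inv_mul_cancel_left]; exact mem_kl4.2 (Or.inr (Or.inl rfl))
  have hprtM : ∀ f : G, f⁻¹ * prt z e f ∈ M := fun f => hPM (hEP (hprtE f))
  have hEsq : ∀ x ∈ E, x * x = 1 := by
    intro x hx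
    rcases mem_kl4.1 hx with rfl | rfl | rfl | rfl
    · simp
    · exact hzz
    · exact hee
    · calc e * z * (e * z) = e * (z * e) * z := by group
        _ = e * (e * z) * z := by rw [← hzc e]
        _ = (e * e) * (z * z) := by group
        _ = 1 := by rw [hee, hzz, one_mul]
  -- the predicate
  set Q : Subgroup G → Prop := fun N => N.Normal ∧ E ≤ N ∧ N ≤ P ∧ ∃ C' ⊆ C0,
    (N ⊔ A).index ≤ 2 * C'.card ∧ ∃ D : Finset G, Cov D ∧
      ∀ x, x ∈ D ↔ (x ∈ N ∧ x * x ≠ 1) ∨ ∃ f ∈ C0 \ C', x ∈ quad (prt z e) f with hQ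
  have hQE : Q E := by
    refine ⟨hEn, le_rfl, hEP, C0, subset_rfl, hcount, ∅, Cov.empty, ?_⟩
    intro x
    simp only [Finset.notMem_empty, Finset.sdiff_self, false_and, exists_false, or_false,
      false_iff, not_and, not_not]
    exact hEsq x
  obtain ⟨N, hN⟩ := (Set.toFinite {N | Q N}).exists_maximal ⟨E, hQE⟩
  obtain ⟨hNn, hEN, hNP, C1, hC1, hC1c, D, hD, hDmem⟩ := hN.prop
  by_cases hNeq : N = P
  · subst hNeq
    refine ⟨D, hD, ?_, ?_, ?_, ?_, ?_⟩
    · intro h
      rcases (hDmem 1).1 h with h | ⟨f, hf, h⟩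
      · exact h.2 (one_mul 1)
      · exact quad_notMem (hC0M f (Finset.mem_sdiff.1 hf).1) (hprtM f) h M.one_mem
    · intro x hx
      rw [hDmem] at hx ⊢
      rcases hx with ⟨h1, h2⟩ | ⟨f, hf, h⟩
      · left
        refine ⟨N.inv_mem h1, ?_⟩
        intro h
        apply h2
        have := congrArg (·⁻¹) h
        simpa using this
      · right
        exact ⟨f, hf, quad_inv h⟩
    · intro x hx hxx
      rw [hDmem]
      exact Or.inl ⟨hx, hxx⟩
    · intro x hx hxx
      rcases (hDmem x).1 hx with ⟨_, h⟩ | ⟨f, hf, h⟩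
      · exact h hxx
      · rw [mem_quad] at h
        obtain ⟨a, b, hab⟩ := h
        have hfC := (Finset.mem_sdiff.1 hf).1
        have hinv : qd (prt z e) f a b = qd (prt z e) f a (!b) := by
          have h1 : x = x⁻¹ := mul_eq_one_iff_eq_inv.1 hxx
          have h2 : qd (prt z e) f a (!b) = (qd (prt z e) f a b)⁻¹ := by
            rcases a <;> rcases b <;> simp [qd]
          rw [h2, hab]
          exact h1
        have := (hC0 f hfC f hfC a b a (!b) hinv).2.2
        rcases b <;> simp at this
    · intro x hx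
      rcases (hDmem x).1 hx with ⟨h, _⟩ | ⟨f, hf, h⟩
      · exact Or.inl h
      · exact Or.inr (quad_notMem (hC0M f (Finset.mem_sdiff.1 hf).1) (hprtM f) h)
  · exfalso
    have hlt : N < P := lt_of_le_of_ne hNP hNeq
    obtain ⟨K, d, hKn, hNK, hKP, hdK, hdN, hdU⟩ := exists_layer h2 N P hlt
    have hAK : A ⊓ K = ⊥ := by
      rw [eq_bot_iff, ← hAP]
      exact inf_le_inf_left A hKP
    have hidx := index_layer hNK hAK d hdK hdN hdU
    have hKAM : K ⊔ A ≤ M := sup_le (hKP.trans hPM) hAM
    have hev : Even (K ⊔ A).index := by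
      rw [← Subgroup.relIndex_mul_index hKAM, hM]
      exact ⟨(K ⊔ A).relIndex M, by ring⟩
    -- the layer
    have := Fintype.ofFinite G
    set T : Finset G := Finset.univ.filter (fun x => x ∈ K ∧ x ∉ N ∧ x * x ≠ 1) with hT
    have hTmem : ∀ x, x ∈ T ↔ x ∈ K ∧ x ∉ N ∧ x * x ≠ 1 := by
      intro x; simp [hT]
    have hTz : ∀ f ∈ T, f * z ∈ T := by
      intro f hf
      rw [hTmem] at hf ⊢
      have hzN : z ∈ N := hEN (mem_kl4.2 (Or.inr (Or.inl rfl)))
      refine ⟨K.mul_mem hf.1 (hNK hzN), ?_, ?_⟩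
      · intro h
        exact hf.2.1 ((N.mul_mem_cancel_right hzN).1 h)
      · intro h
        apply hf.2.2
        calc f * f = f * f * (z * z) := by rw [hzz, mul_one]
          _ = f * (f * z) * z := by group
          _ = f * (z * f) * z := by rw [hzc f]
          _ = f * z * (f * z) := by group
          _ = 1 := h
    have hTe : ∀ f ∈ T, f * e ∈ T := by
      intro f hf
      rw [hTmem] at hf ⊢
      have heN : e ∈ N := hEN (mem_kl4.2 (Or.inr (Or.inr (Or.inl rfl))))
      refine ⟨K.mul_mem hf.1 (hNK heN), ?_, ?_⟩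
      · intro h
        exact hf.2.1 ((N.mul_mem_cancel_right heN).1 h)
      · intro h
        apply hf.2.2
        calc f * f = f * f * (e * e) := by rw [hee, mul_one]
          _ = f * (f * e) * e := by group
          _ = f * (e * f) * e := by rw [hcomm f (hKP hf.1)]
          _ = f * e * (f * e) := by group
          _ = 1 := h
    have hTinv : ∀ f ∈ T, f⁻¹ ∈ T := by
      intro f hf
      rw [hTmem] at hf ⊢
      refine ⟨K.inv_mem hf.1, ?_, ?_⟩
      · rw [N.inv_mem_iff]; exact hf.2.1
      · intro h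
        apply hf.2.2
        have := congrArg (·⁻¹) h
        simpa using this
    have hTsq : ∀ f ∈ T, f * f ≠ 1 := fun f hf => ((hTmem f).1 hf).2.2
    obtain ⟨CT, _, hCTc, _⟩ := exists_doubles hz1 hzz hzc hee he1 hez hconj T hTz hTe hTinv hTsq
    obtain ⟨R, hRT, hRinv, hTR, hTc⟩ := exists_reps T hTinv hTsq
    have hReven : Even R.card := ⟨CT.card, by omega⟩
    obtain ⟨C2, hC2, hC2c, hcov⟩ := layer_cov N K A M hNK d hdK hdN hAK (hKP.trans hPM) hAM hM
      hidx (prt z e) C1 (fun f hf => hC0M f (hC1 hf)) (fun f _ => hEN (hprtE f))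
      (fun f hf f' hf' => hC0 f (hC1 hf) f' (hC1 hf')) hev (by omega) R.card R le_rfl
      (fun x hx => ((hTmem x).1 (hRT hx)).1) (fun x hx => ((hTmem x).1 (hRT hx)).2.1) hRinv hReven
    rw [← hTR] at hcov
    have hquaddis : ∀ f ∈ C0, ∀ f' ∈ C0, ∀ x, x ∈ quad (prt z e) f → x ∈ quad (prt z e) f' →
        f = f' := by
      intro f hf f' hf' x hx hx'
      rw [mem_quad] at hx hx'
      obtain ⟨s, t, hst⟩ := hx
      obtain ⟨s', t', hst'⟩ := hx'
      exact (hC0 f hf f' hf' s t s' t' (hst.trans hst'.symm)).1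
    have hdis : Disjoint D (T ∪ (C1 \ C2).biUnion (quad (prt z e))) := by
      rw [Finset.disjoint_left]
      intro x hx hx'
      rw [hDmem] at hx
      rcases Finset.mem_union.1 hx' with h' | h'
      · rw [hTmem] at h'
        rcases hx with h | ⟨f, hf, h⟩
        · exact h'.2.1 h.1
        · exact quad_notMem (hC0M f (Finset.mem_sdiff.1 hf).1) (hprtM f) h (hPM (hKP h'.1))
      · obtain ⟨f', hf', hxf'⟩ := Finset.mem_biUnion.1 h'
        rw [Finset.mem_sdiff] at hf'
        rcases hx with h | ⟨f, hf, h⟩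
        · exact quad_notMem (hC0M f' (hC1 hf'.1)) (hprtM f') hxf' (hPM (hNP h.1))
        · rw [Finset.mem_sdiff] at hf
          have := hquaddis f hf.1 f' (hC1 hf'.1) x h hxf'
          rw [this] at hf
          exact hf.2 hf'.1
    have hQK : Q K := by
      refine ⟨hKn, hEN.trans hNK, hKP, C2, hC2.trans hC1, by omega, _,
        Cov.union hD hcov hdis, ?_⟩
      intro x
      simp only [Finset.mem_union, hDmem, hTmem, Finset.mem_biUnion]
      constructor
      · rintro ((⟨h1, h2⟩ | ⟨f, hf, h⟩) | (⟨h1, _, h3⟩ | ⟨f, hf, h⟩))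
        · exact Or.inl ⟨hNK h1, h2⟩
        · right
          refine ⟨f, ?_, h⟩
          rw [Finset.mem_sdiff] at hf ⊢
          exact ⟨hf.1, fun hh => hf.2 (hC2 hh)⟩
        · exact Or.inl ⟨h1, h3⟩
        · right
          refine ⟨f, ?_, h⟩
          rw [Finset.mem_sdiff] at hf ⊢
          exact ⟨hC1 hf.1, hf.2⟩
      · rintro (⟨h1, h2⟩ | ⟨f, hf, h⟩)
        · by_cases hxN : x ∈ N
          · exact Or.inl (Or.inl ⟨hxN, h2⟩)
          · exact Or.inr (Or.inl ⟨h1, hxN, h2⟩)
        · rw [Finset.mem_sdiff] at hf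
          by_cases hf1 : f ∈ C1
          · right; right
            exact ⟨f, Finset.mem_sdiff.2 ⟨hf1, hf.2⟩, h⟩
          · left; right
            exact ⟨f, Finset.mem_sdiff.2 ⟨hf.1, hf1⟩, h⟩
    have := hN.le_of_ge hQK hNK
    exact hdN (this hdK)

theorem cov_of_data2 {G : Type*} [Group G] [Finite G] (h2 : IsPGroup 2 G)
    (z e : G) (hz1 : z ≠ 1) (hzz : z * z = 1)
    (hzc : ∀ g, g * z = z * g) (hee : e * e = 1) (he1 : e ≠ 1) (hez : e ≠ z)
    (hconj : ∀ g, g * e * g⁻¹ = e ∨ g * e * g⁻¹ = e * z) :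
    ∃ D : Finset G, Cov D ∧ 1 ∉ D ∧ (∀ x ∈ D, x⁻¹ ∈ D) ∧
      (∀ x ∈ Subgroup.closure {y : G | ∃ a : G, y = a * a}, x * x ≠ 1 → x ∈ D) ∧
      (∀ x ∈ D, x * x ≠ 1) ∧
      ((∃ y, y ∉ Subgroup.closure {y : G | ∃ a : G, y = a * a} ∧ y ≠ 1 ∧ y * y = 1) ∨
       (∃ w, w ∉ Subgroup.closure {y : G | ∃ a : G, y = a * a} ∧ w * w ≠ 1 ∧ w ∉ D)) := by
  classical
  have := Fintype.ofFinite G
  have hzi : z⁻¹ = z := by rw [inv_eq_iff_mul_eq_one]; exact hzz
  set Φ : Subgroup G := Subgroup.closure {y : G | ∃ a : G, y = a * a} with hΦ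
  set E : Subgroup G := kl4 z e hzz hzc hee with hE
  have hsqΦ : ∀ g : G, g * g ∈ Φ := fun g => Subgroup.subset_closure ⟨g, rfl⟩
  set P : Subgroup G := Φ ⊔ E with hP
  have hsqP : ∀ g : G, g * g ∈ P := fun g => Subgroup.mem_sup_left (hsqΦ g)
  have hPn : P.Normal := normal_of_sq P hsqP
  have hzE : z ∈ E := mem_kl4.2 (Or.inr (Or.inl rfl))
  have heE : e ∈ E := mem_kl4.2 (Or.inr (Or.inr (Or.inl rfl)))
  have hzP : z ∈ P := Subgroup.mem_sup_right hzE
  have heP : e ∈ P := Subgroup.mem_sup_right heE
  have hEsq : ∀ x ∈ E, x * x = 1 := by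
    intro x hx
    rcases mem_kl4.1 hx with rfl | rfl | rfl | rfl
    · simp
    · exact hzz
    · exact hee
    · calc e * z * (e * z) = e * (z * e) * z := by group
        _ = e * (e * z) * z := by rw [← hzc e]
        _ = (e * e) * (z * z) := by group
        _ = 1 := by rw [hee, hzz, one_mul]
  have hEn : E.Normal := by
    constructor
    intro x hx g
    rcases mem_kl4.1 hx with rfl | rfl | rfl | rfl
    · rw [mul_one, mul_inv_cancel]; exact E.one_mem
    · rw [hzc, mul_assoc, mul_inv_cancel, mul_one]; exact hx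
    · rcases hconj g with h | h
      · rw [h]; exact hx
      · rw [h]; exact mem_kl4.2 (Or.inr (Or.inr (Or.inr rfl)))
    · have e1 : g * (e * z) * g⁻¹ = (g * e * g⁻¹) * z := by
        calc g * (e * z) * g⁻¹ = g * e * (z * g⁻¹) := by group
          _ = g * e * (g⁻¹ * z) := by rw [hzc g⁻¹]
          _ = (g * e * g⁻¹) * z := by group
      rw [e1]
      rcases hconj g with h | h
      · rw [h]; exact hx
      · rw [h, mul_assoc, hzz, mul_one]; exact mem_kl4.2 (Or.inr (Or.inr (Or.inl rfl)))
  -- P centralises e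
  have hcomm : ∀ x ∈ P, x * e = e * x := by
    have hle : P ≤ Subgroup.centralizer {e} := by
      refine sup_le ?_ ?_
      · rw [hΦ, Subgroup.closure_le]
        rintro y ⟨a, rfl⟩
        rw [SetLike.mem_coe, Subgroup.mem_centralizer_singleton_iff]
        rcases hconj a with h | h
        · have h1 : a * e = e * a := by
            calc a * e = (a * e * a⁻¹) * a := by group
              _ = e * a := by rw [h]
          rw [mul_assoc, h1, ← mul_assoc, h1, mul_assoc]
        · have h1 : a * e = e * z * a := by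
            calc a * e = (a * e * a⁻¹) * a := by group
              _ = e * z * a := by rw [h]
          calc a * a * e = a * (a * e) := by group
            _ = a * (e * z * a) := by rw [h1]
            _ = (a * e) * z * a := by group
            _ = (e * z * a) * z * a := by rw [h1]
            _ = e * z * (a * z) * a := by group
            _ = e * z * (z * a) * a := by rw [hzc a]
            _ = e * (z * z) * a * a := by group
            _ = e * (a * a) := by rw [hzz]; group
      · intro y hy
        rw [Subgroup.mem_centralizer_singleton_iff]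
        rcases mem_kl4.1 hy with rfl | rfl | rfl | rfl
        · simp
        · exact (hzc e).symm
        · rfl
        · rw [mul_assoc, ← hzc e]
    intro x hx
    exact Subgroup.mem_centralizer_singleton_iff.1 (hle hx)
  -- a maximal complement
  obtain ⟨A, ⟨hA2, hAP⟩, hmax⟩ : ∃ A : Subgroup G, ((∀ a ∈ A, a * a = 1) ∧ A ⊓ P = ⊥) ∧
      ∀ B : Subgroup G, (∀ b ∈ B, b * b = 1) → B ⊓ P = ⊥ → Nat.card B ≤ Nat.card A := by
    obtain ⟨A, hA, hmax⟩ := Set.exists_max_image
      {A : Subgroup G | (∀ a ∈ A, a * a = 1) ∧ A ⊓ P = ⊥} (fun A => Nat.card A)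
      (Set.toFinite _) ⟨⊥, by
        refine ⟨?_, by simp⟩
        intro a ha
        rw [Subgroup.mem_bot.1 ha, mul_one]⟩
    exact ⟨A, hA, fun B hB hBP => hmax B ⟨hB, hBP⟩⟩
  by_cases htop : P ⊔ A = ⊤
  · -- no elements of order larger than two in Φ
    refine ⟨∅, Cov.empty, by simp, by simp, ?_, by simp, ?_⟩
    swap
    · obtain ⟨y, hy⟩ : ∃ y : G, y ∉ Φ := by
        by_contra hcon
        push Not at hcon
        have h1 : (⊥ : Subgroup G) = ⊤ := by
          apply eq_top_of_sup h2
          rw [sup_bot_eq]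
          exact (Subgroup.eq_top_iff' _).2 hcon
        exact hz1 (Subgroup.mem_bot.1 (h1 ▸ Subgroup.mem_top z))
      by_cases hyy : y * y = 1
      · left
        exact ⟨y, hy, fun h => hy (h ▸ Φ.one_mem), hyy⟩
      · right
        exact ⟨y, hy, hyy, by simp⟩
    intro x hx hxx
    exfalso
    apply hxx
    have hEA : E ⊔ A = ⊤ := by
      apply eq_top_of_sup h2
      rw [← sup_assoc]
      exact htop
    have hΦE : Φ ≤ E := by
      rw [hΦ, Subgroup.closure_le]
      rintro y ⟨g, rfl⟩
      have hg : g ∈ E ⊔ A := by rw [hEA]; exact Subgroup.mem_top g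
      rw [Subgroup.mem_sup_of_normal_left] at hg
      obtain ⟨ε, hε, a, ha, rfl⟩ := hg
      have e1 : ε * a * (ε * a) = ε * (a * ε * a⁻¹) * (a * a) := by group
      rw [SetLike.mem_coe, e1, hA2 a ha, mul_one]
      exact E.mul_mem hε (hEn.conj_mem ε hε a)
    exact hEsq x (hΦE hx)
  · obtain ⟨d, hd⟩ : ∃ d : G, d ∉ P ⊔ A := by
      by_contra hcon
      push Not at hcon
      exact htop ((Subgroup.eq_top_iff' _).2 hcon)
    obtain ⟨M, hPAM, hM, hdM⟩ := exists_index_two (P ⊔ A)
      (fun g => Subgroup.mem_sup_left (hsqP g)) d hd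
    have hPM : P ≤ M := le_sup_left.trans hPAM
    have hAM : A ≤ M := le_sup_right.trans hPAM
    have hEM : E ≤ M := le_sup_right.trans hPM
    set F : Finset G := Finset.univ.filter
      (fun f => f ∉ M ∧ ∀ ε ∈ E, (f * ε) * (f * ε) ≠ 1) with hF
    have hFmem : ∀ f, f ∈ F ↔ f ∉ M ∧ ∀ ε ∈ E, (f * ε) * (f * ε) ≠ 1 := by
      intro f; simp [hF]
    have hFE : ∀ f ∈ F, ∀ ε ∈ E, f * ε ∈ F := by
      intro f hf ε hε
      rw [hFmem] at hf ⊢
      refine ⟨fun h => hf.1 ((M.mul_mem_cancel_right (hEM hε)).1 h), ?_⟩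
      intro ε' hε'
      rw [mul_assoc f ε ε']
      exact hf.2 _ (E.mul_mem hε hε')
    have hFinv : ∀ f ∈ F, f⁻¹ ∈ F := by
      intro f hf
      rw [hFmem] at hf ⊢
      refine ⟨fun h => hf.1 (M.inv_mem_iff.1 h), ?_⟩
      intro ε hε h
      apply hf.2 (f⁻¹ * ε⁻¹ * f)
      · have := hEn.conj_mem ε⁻¹ (E.inv_mem hε) f⁻¹
        simpa using this
      · have h1 := congrArg (·⁻¹) h
        simp only [inv_one] at h1
        rw [← h1]
        group
    have hFsq : ∀ f ∈ F, f * f ≠ 1 := by
      intro f hf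
      have := ((hFmem f).1 hf).2 1 E.one_mem
      simpa using this
    obtain ⟨C0, hC0F, hC0c, hC0⟩ := exists_doubles hz1 hzz hzc hee he1 hez hconj F
      (fun f hf => hFE f hf z hzE) (fun f hf => hFE f hf e heE) hFinv hFsq
    -- counting
    have hcount : (E ⊔ A).index ≤ 2 * C0.card := by
      have hAE : A ⊓ E = ⊥ := by
        rw [eq_bot_iff, ← hAP]
        exact inf_le_inf_left A le_sup_right
      have h1 := index_kl hAE
      rw [card_kl4 hzz hzc hee hz1 he1 hez] at h1
      have hclaim : ∀ y : G, y ∉ M → ∃ a ∈ A, a * y ∈ F := by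
        intro y hy
        have hyAP : y ∉ A ⊔ P := fun h => hy ((sup_le hAM hPM) h)
        obtain ⟨a, ha, hay⟩ := claimA z e hz1 hzz hzc hee he1 hez hconj P A hzP heP hsqP hcomm
          hA2 hAP hmax y hyAP
        refine ⟨a, ha, ?_⟩
        rw [hFmem]
        refine ⟨fun h => hy ((M.mul_mem_cancel_left (hAM ha)).1 h), ?_⟩
        intro ε hε
        exact hay ε (mem_kl4.1 hε)
      choose! α hαA hαF using hclaim
      have hcard : Nat.card G ≤ 2 * (Nat.card A * F.card) := by
        have hMc := Subgroup.card_mul_index M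
        rw [hM] at hMc
        set T : Finset G := Finset.univ.filter (fun x => x ∉ M) with hT
        have hTc : T.card + Nat.card M = Nat.card G := by
          rw [hT, Nat.card_eq_fintype_card, Nat.card_eq_fintype_card]
          have := Finset.card_filter_add_card_filter_not (s := (Finset.univ : Finset G)) (fun x => x ∉ M)
          rw [Finset.card_univ] at this
          rw [← this]
          congr 1
          rw [Fintype.card_subtype]
          congr 1
          ext x
          simp
        have hTle : T.card ≤ Nat.card A * F.card := by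
          have : T.card ≤ ((Finset.univ.filter (fun x => x ∈ A)) ×ˢ F).card := by
            apply Finset.card_le_card_of_injOn (fun y => (α y, α y * y))
            · intro y hy
              have hy' : y ∉ M := by simpa [hT] using hy
              simp only [Finset.coe_product, Set.mem_prod, Finset.mem_coe, Finset.mem_filter,
                Finset.mem_univ, true_and]
              exact ⟨hαA y hy', hαF y hy'⟩
            · intro y _ y' _ h
              simp only [Prod.mk.injEq] at h
              rw [h.1] at h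
              exact mul_left_cancel h.2
          rw [Finset.card_product] at this
          have h3 : (Finset.univ.filter (fun x => x ∈ A)).card = Nat.card A := by
            rw [Nat.card_eq_fintype_card, Fintype.card_subtype]
          rwa [h3] at this
        omega
      have hApos : 0 < Nat.card A := Nat.card_pos
      rw [hC0c, ← h1] at hcard
      have h4 : (E ⊔ A).index * (4 * Nat.card A) ≤ (2 * C0.card) * (4 * Nat.card A) := by
        calc (E ⊔ A).index * (4 * Nat.card A) ≤ 2 * (Nat.card A * (4 * C0.card)) := hcard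
          _ = (2 * C0.card) * (4 * Nat.card A) := by ring
      exact Nat.le_of_mul_le_mul_right h4 (by omega)
    obtain ⟨D, hD, hD1, hDinv, hDmem, hDsq, hDM⟩ := layer_induction2 h2 z e hz1 hzz hzc hee he1 hez
      hconj P A M hzP heP hcomm hAP hPM hAM hM C0 (fun f hf => ((hFmem f).1 (hC0F hf)).1) hC0 hcount
    refine ⟨D, hD, hD1, hDinv, fun x hx hxx => hDmem x (Subgroup.mem_sup_left hx) hxx, hDsq, ?_⟩
    by_cases hex : ∃ y, y ∉ Φ ∧ y ≠ 1 ∧ y * y = 1
    · exact Or.inl hex
    · right
      push Not at hex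
      have hinΦ : ∀ y, y ≠ 1 → y * y = 1 → y ∈ Φ := by
        intro y hy1 hyy
        by_contra hcon
        exact hex y hcon hy1 hyy
      have hPΦ : P ≤ Φ := by
        refine sup_le le_rfl ?_
        intro x hx
        by_cases hx1 : x = 1
        · rw [hx1]; exact Φ.one_mem
        · exact hinΦ x hx1 (hEsq x hx)
      obtain ⟨w, hwM, hwΦ⟩ : ∃ w ∈ M, w ∉ Φ := by
        by_contra hcon
        push Not at hcon
        have htopc : Subgroup.zpowers d = ⊤ := by
          apply eq_top_of_sup h2
          refine (Subgroup.eq_top_iff' _).2 ?_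
          intro x
          by_cases hxM : x ∈ M
          · exact Subgroup.mem_sup_left (hcon x hxM)
          · have h5 : d⁻¹ * x ∈ M := by
              have hdi : d⁻¹ ∉ M := fun h => hdM (M.inv_mem_iff.1 h)
              exact (Subgroup.mul_mem_iff_of_index_two hM).2 ⟨fun h => absurd h hdi,
                fun h => absurd h hxM⟩
            have h6 : x = d * (d⁻¹ * x) := by group
            rw [h6]
            exact Subgroup.mul_mem _ (Subgroup.mem_sup_right (Subgroup.mem_zpowers d))
              (Subgroup.mem_sup_left (hcon _ h5))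
        have hcyc : IsCyclic G := by
          refine ⟨d, fun x => ?_⟩
          have hx : x ∈ Subgroup.zpowers d := by rw [htopc]; exact Subgroup.mem_top x
          exact hx
        have h7 := IsCyclic.card_pow_eq_one_le (α := G) (n := 2) (by norm_num)
        have h8 : ({1, z, e} : Finset G) ⊆ Finset.univ.filter (fun a : G => a ^ 2 = 1) := by
          intro y hy
          simp only [Finset.mem_insert, Finset.mem_singleton] at hy
          rw [Finset.mem_filter]
          refine ⟨Finset.mem_univ _, ?_⟩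
          rw [pow_two]
          rcases hy with rfl | rfl | rfl
          · simp
          · exact hzz
          · exact hee
        have h9 := Finset.card_le_card h8
        rw [Finset.card_insert_of_notMem, Finset.card_insert_of_notMem,
          Finset.card_singleton] at h9
        · omega
        · simp only [Finset.mem_singleton]
          exact hez.symm
        · simp only [Finset.mem_insert, Finset.mem_singleton, not_or]
          exact ⟨hz1.symm, he1.symm⟩
      refine ⟨w, hwΦ, ?_, ?_⟩
      · intro hww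
        apply hwΦ
        by_cases hw1 : w = 1
        · rw [hw1]; exact Φ.one_mem
        · exact hinΦ w hw1 hww
      · intro hwD
        rcases hDM w hwD with h | h
        · exact hwΦ (hPΦ h)
        · exact h hwM


end Pool.Agent.Y346.ST
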