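import Mathlib
import Pool.Agent.Helper466.Starter.MaxClass
import Pool.Agent.Y346.ST.Data

set_option autoImplicit false

/-!
Sharper form of `cov_maxclass` of `Pool.Agent.Helper466.Starter` (the proofs are those of that
library), and the data needed for all noncyclic finite 2-groups.
-/

namespace Pool.Agent.Y346.ST

open Pool.Agent.Helper466.Starter

section maxclass

variable {G : Type*} [Group G] {g s : G} {N : ℕ}

theorem mc_ev (hord : orderOf g = 4 * N) (a : ℤ) : g ^ (2 * a) ≠ g := by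
  intro h
  have h1 : g ^ (2 * a) = g ^ (1 : ℤ) := by rw [zpow_one]; exact h
  rw [mc_eq hord] at h1
  obtain ⟨k, hk⟩ := h1
  have : (2 * a - 1 : ℤ) = 2 * (2 * (N * k)) := by rw [hk]; ring
  omega

theorem mc_two (hord : orderOf g = 4 * N) : g * g ≠ 1 := by
  intro hgg
  have h1 : g ^ (2 : ℤ) = 1 := by
    rw [show (2 : ℤ) = 1 + 1 by norm_num, zpow_add, zpow_one]; exact hgg
  rw [mc_one hord] at h1
  obtain ⟨j, hj⟩ := h1
  have : (2 : ℤ) = 2 * (2 * (N * j)) := hj.trans (by ring)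
  omega

theorem mc_blk1' [Finite G] (hN : 0 < N) (hord : orderOf g = 4 * N)
    (hidx : (Subgroup.zpowers g).index = 2)
    (hq : s * g ^ (N : ℤ) * s⁻¹ = (g ^ (N : ℤ))⁻¹)
    (hss : s * s = 1) (hs : s ∉ Subgroup.zpowers g) :
    ∃ D : Finset G, Blk D ∧ 1 ∉ D ∧ (∀ x ∈ D, x⁻¹ ∈ D) ∧
      (∀ j : ℤ, 0 < j → j < N → g ^ (2 * j) ∈ D ∧ g ^ (-(2 * j)) ∈ D) ∧
      (∀ x ∈ D, x ∈ Subgroup.zpowers g → x * x ≠ 1) ∧ g ∉ D := by
  classical
  have hN' : (0 : ℤ) < N := by exact_mod_cast hN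
  have hsC : ∀ k : ℤ, s ≠ g ^ k := fun k h => hs (h ▸ Subgroup.zpow_mem_zpowers g k)
  have hs1 : s ≠ 1 := fun h => hsC 0 (by simpa using h)
  have hsi : s⁻¹ = s := inv_eq_of_mul_eq_one_left hss
  have hsq : s * s = 1 ∨ s * s = g ^ (2 * (N : ℤ)) := Or.inl hss
  set x : Fin (N - 1) → G := fun i => g ^ ((i : ℤ) + 1) with hx
  set y : Fin (N - 1) → G := fun i => g ^ (-((i : ℤ) + 1)) with hy
  set u : Bool → G := fun b => if b then g ^ (N : ℤ) else 1 with hu
  set v : Bool → G := fun b => u b * s with hv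
  have f1 : ∀ i, x i * (y i)⁻¹ = g ^ (2 * ((i : ℤ) + 1)) := by
    intro i
    rw [hx, hy]
    simp only
    rw [← zpow_neg, ← zpow_add]
    congr 1
    ring
  have f2 : ∀ i, y i * (x i)⁻¹ = g ^ (-(2 * ((i : ℤ) + 1))) := by
    intro i
    rw [hx, hy]
    simp only
    rw [← zpow_neg, ← zpow_add]
    congr 1
    ring
  have f3 : u false * (v false)⁻¹ = s := by
    simp [hu, hv, hsi]
  have f4 : u true * (v true)⁻¹ = g ^ (2 * (N : ℤ)) * s := by
    have h1 := mc_comm' hq
    simp only [hu, hv, if_true]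
    rw [mul_inv_rev, hsi, ← zpow_neg, h1, ← mul_assoc, ← zpow_add]
    congr 2
    ring
  set F : (Fin (N - 1) ⊕ Fin (N - 1)) ⊕ Bool → G := Sum.elim (Sum.elim
    (fun i => x i * (y i)⁻¹) (fun i => y i * (x i)⁻¹)) (fun j => u j * (v j)⁻¹) with hF
  have hlong : ∀ i, (x i * (y i)⁻¹) * (x i * (y i)⁻¹) ≠ 1 := by
    intro i h
    rw [f1, ← zpow_add, mc_one hord] at h
    have hi := i.2
    have := mc_small h (by omega) (by omega)
    omega
  have hshort : ∀ j, ∃ t ∈ mcH hord hq hsq, t ≠ 1 ∧ t * t = 1 ∧ v j = u j * t :=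
    fun j => ⟨s, Or.inr (Or.inr (Or.inl rfl)), hs1, hss, rfl⟩
  have hV : Function.Injective (Sum.elim (Sum.elim (fun i => (x i : G ⧸ mcH hord hq hsq))
      (fun i => (y i : G ⧸ mcH hord hq hsq))) (fun j => (u j : G ⧸ mcH hord hq hsq))) := by
    have hVe : ∀ a, Sum.elim (Sum.elim (fun i => (x i : G ⧸ mcH hord hq hsq))
      (fun i => (y i : G ⧸ mcH hord hq hsq))) (fun j => (u j : G ⧸ mcH hord hq hsq)) a =
        ((g ^ (mcE N a) : G) : G ⧸ mcH hord hq hsq) := by
      rintro ((i | i) | (_ | _))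
      · rfl
      · rfl
      · simp [mcE, hu]
      · simp [mcE, hu]
    intro a b hab
    rw [hVe, hVe, mc_coset hord hq hsq hs] at hab
    exact mcE_inj hN a b hab
  have hcard : 2 * Fintype.card (Fin (N - 1)) + Fintype.card Bool = (mcH hord hq hsq).index := by
    rw [mc_index hN hord hidx hq hsq hs, Fintype.card_fin, Fintype.card_bool]
    omega
  have hFinj : Function.Injective F := by
    have g1 : ∀ i, F (Sum.inl (Sum.inl i)) = g ^ (2 * ((i : ℤ) + 1)) := f1
    have g2 : ∀ i, F (Sum.inl (Sum.inr i)) = g ^ (-(2 * ((i : ℤ) + 1))) := f2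
    have g3 : F (Sum.inr false) = s := f3
    have g4 : F (Sum.inr true) = g ^ (2 * (N : ℤ)) * s := f4
    have n1 : ∀ a : ℤ, g ^ a ≠ s := fun a h => hsC a h.symm
    have n2 : ∀ a : ℤ, g ^ a ≠ g ^ (2 * (N : ℤ)) * s := by
      intro a h
      apply hsC (a - 2 * (N : ℤ))
      rw [sub_eq_neg_add, zpow_add, h, ← mul_assoc, ← zpow_add]
      simp
    have n3 : s ≠ g ^ (2 * (N : ℤ)) * s := by
      intro h
      have h2 : g ^ (2 * (N : ℤ)) = 1 := by simpa using h
      rw [mc_one hord] at h2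
      have := mc_small h2 (by omega) (by omega)
      omega
    rintro ((i | i) | (_ | _)) ((j | j) | (_ | _)) h
    · rw [g1, g1, mc_eq hord] at h
      have hi := i.2; have hj := j.2
      have := mc_small h (by omega) (by omega)
      have : i = j := Fin.ext (by omega)
      rw [this]
    · exfalso
      rw [g1, g2, mc_eq hord] at h
      have hi := i.2; have hj := j.2
      have := mc_small h (by omega) (by omega)
      omega
    · rw [g1, g3] at h; exact absurd h (n1 _)
    · rw [g1, g4] at h; exact absurd h (n2 _)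
    · exfalso
      rw [g1, g2, mc_eq hord] at h
      have hi := i.2; have hj := j.2
      have := mc_small h (by omega) (by omega)
      omega
    · rw [g2, g2, mc_eq hord] at h
      have hi := i.2; have hj := j.2
      have := mc_small h (by omega) (by omega)
      have : i = j := Fin.ext (by omega)
      rw [this]
    · rw [g2, g3] at h; exact absurd h (n1 _)
    · rw [g2, g4] at h; exact absurd h (n2 _)
    · rw [g1, g3] at h; exact absurd h.symm (n1 _)
    · rw [g2, g3] at h; exact absurd h.symm (n1 _)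
    · rfl
    · rw [g3, g4] at h; exact absurd h n3
    · rw [g1, g4] at h; exact absurd h.symm (n2 _)
    · rw [g2, g4] at h; exact absurd h.symm (n2 _)
    · rw [g3, g4] at h; exact absurd h.symm n3
    · rfl
  have hmem : ∀ a : G, a ∈ Finset.univ.image F ↔ (∃ i, x i * (y i)⁻¹ = a) ∨
      (∃ i, y i * (x i)⁻¹ = a) ∨ (∃ j, u j * (v j)⁻¹ = a) := by
    intro a
    simp only [Finset.mem_image, Finset.mem_univ, true_and]
    constructor
    · rintro ⟨((i | i) | j), h⟩
      · exact Or.inl ⟨i, h⟩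
      · exact Or.inr (Or.inl ⟨i, h⟩)
      · exact Or.inr (Or.inr ⟨j, h⟩)
    · rintro (⟨i, h⟩ | ⟨i, h⟩ | ⟨j, h⟩)
      · exact ⟨Sum.inl (Sum.inl i), h⟩
      · exact ⟨Sum.inl (Sum.inr i), h⟩
      · exact ⟨Sum.inr j, h⟩
  refine ⟨Finset.univ.image F, Blk.mk' (mcH hord hq hsq) x y u v hlong hshort hV hcard _ hFinj hmem,
    ?_, ?_, ?_, ?_, ?_⟩
  · rw [hmem]
    rintro (⟨i, h⟩ | ⟨i, h⟩ | ⟨j, h⟩)
    · exact hlong i (by rw [h, mul_one])
    · apply hlong i
      have : x i * (y i)⁻¹ = (y i * (x i)⁻¹)⁻¹ := by group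
      rw [this, h]; simp
    · rw [hv] at h
      apply hs1
      simp only at h
      have h5 : u j * s⁻¹ * (u j)⁻¹ = 1 := by rw [← h]; group
      rw [mul_inv_eq_one] at h5
      simpa using h5
  · intro a ha
    rw [hmem] at ha ⊢
    rcases ha with ⟨i, h⟩ | ⟨i, h⟩ | ⟨j, h⟩
    · exact Or.inr (Or.inl ⟨i, by rw [← h]; group⟩)
    · exact Or.inl ⟨i, by rw [← h]; group⟩
    · refine Or.inr (Or.inr ⟨j, ?_⟩)
      rw [← h, hv]
      simp only
      calc u j * (u j * s)⁻¹ = u j * s⁻¹ * (u j)⁻¹ := by group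
        _ = u j * s * (u j)⁻¹ := by rw [hsi]
        _ = (u j * (u j * s)⁻¹)⁻¹ := by group
  · intro j hj1 hj2
    have hlt : (j - 1).toNat < N - 1 := by omega
    constructor
    · rw [hmem]
      left
      refine ⟨⟨(j - 1).toNat, hlt⟩, ?_⟩
      rw [f1]
      congr 1
      simp only
      omega
    · rw [hmem]
      right; left
      refine ⟨⟨(j - 1).toNat, hlt⟩, ?_⟩
      rw [f2]
      congr 1
      simp only
      omega
  · intro a ha hag
    rw [hmem] at ha
    rcases ha with ⟨i, h⟩ | ⟨i, h⟩ | ⟨j, h⟩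
    · rw [← h]; exact hlong i
    · rw [← h]
      intro h1
      apply hlong i
      have h2 := congrArg (·⁻¹) h1
      simp only [inv_one] at h2
      rw [← h2]
      group
    · exfalso
      rcases j with _ | _
      · rw [f3] at h
        exact hs (h ▸ hag)
      · rw [f4] at h
        rw [← h] at hag
        apply hs
        exact ((Subgroup.zpowers g).mul_mem_cancel_left
          (Subgroup.zpow_mem_zpowers g (2 * (N : ℤ)))).1 hag
  · rw [hmem]
    rintro (⟨i, h⟩ | ⟨i, h⟩ | ⟨j, h⟩)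
    · rw [f1] at h
      exact mc_ev hord _ h
    · rw [f2] at h
      have h1 : g ^ (2 * (-((i : ℤ) + 1))) = g := by
        rw [← h]; congr 1
      exact mc_ev hord _ h1
    · rcases j with _ | _
      · rw [f3] at h
        exact hs (h ▸ Subgroup.mem_zpowers g)
      · rw [f4] at h
        apply hs
        refine ((Subgroup.zpowers g).mul_mem_cancel_left
          (Subgroup.zpow_mem_zpowers g (2 * (N : ℤ)))).1 ?_
        rw [h]
        exact Subgroup.mem_zpowers g

theorem mc_blk2' [Finite G] (hN : 0 < N) (hord : orderOf g = 4 * N)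
    (hidx : (Subgroup.zpowers g).index = 2)
    (hq : s * g ^ (N : ℤ) * s⁻¹ = (g ^ (N : ℤ))⁻¹)
    (hss : s * s = g ^ (2 * (N : ℤ))) (hs : s ∉ Subgroup.zpowers g) :
    ∃ D : Finset G, Blk D ∧ 1 ∉ D ∧ (∀ x ∈ D, x⁻¹ ∈ D) ∧
      (∀ j : ℤ, 0 < j → j < N → g ^ (2 * j) ∈ D ∧ g ^ (-(2 * j)) ∈ D) ∧
      (∀ x ∈ D, x ∈ Subgroup.zpowers g → x * x ≠ 1) ∧ g ∉ D := by
  classical
  have hN' : (0 : ℤ) < N := by exact_mod_cast hN
  have hsC : ∀ k : ℤ, s ≠ g ^ k := fun k h => hs (h ▸ Subgroup.zpow_mem_zpowers g k)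
  have hsz := mc_sz hord hq
  have hzz := mc_zz hord
  have hsi : s⁻¹ = g ^ (2 * (N : ℤ)) * s := by
    apply inv_eq_of_mul_eq_one_left
    rw [mul_assoc, hss, hzz]
  have hz1 : g ^ (2 * (N : ℤ)) ≠ 1 := by
    rw [Ne, mc_one hord]
    intro h
    have := mc_small h (by omega) (by omega)
    omega
  have hsq : s * s = 1 ∨ s * s = g ^ (2 * (N : ℤ)) := Or.inr hss
  set x : Option (Fin (N - 1)) → G := fun i => i.elim s fun i => g ^ ((i : ℤ) + 1) with hx
  set y : Option (Fin (N - 1)) → G := fun i => i.elim (g ^ (N : ℤ)) fun i => g ^ (-((i : ℤ) + 1))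
    with hy
  set u : Empty → G := fun b => b.elim with hu
  set v : Empty → G := fun b => b.elim with hv
  have f1 : ∀ i, x (some i) * (y (some i))⁻¹ = g ^ (2 * ((i : ℤ) + 1)) := by
    intro i
    rw [hx, hy]
    simp only [Option.elim_some]
    rw [← zpow_neg, ← zpow_add]
    congr 1
    ring
  have f2 : ∀ i, y (some i) * (x (some i))⁻¹ = g ^ (-(2 * ((i : ℤ) + 1))) := by
    intro i
    rw [hx, hy]
    simp only [Option.elim_some]
    rw [← zpow_neg, ← zpow_add]
    congr 1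
    ring
  have f3 : x none * (y none)⁻¹ = g ^ (N : ℤ) * s := by
    rw [hx, hy]
    simp only [Option.elim_none]
    rw [← zpow_neg, mc_comm' hq]
  have f4 : y none * (x none)⁻¹ = g ^ (-(N : ℤ)) * s := by
    rw [hx, hy]
    simp only [Option.elim_none]
    rw [hsi, ← mul_assoc, ← zpow_add]
    congr 1
    rw [mc_eq hord]
    exact ⟨1, by ring⟩
  set F : (Option (Fin (N - 1)) ⊕ Option (Fin (N - 1))) ⊕ Empty → G := Sum.elim (Sum.elim
    (fun i => x i * (y i)⁻¹) (fun i => y i * (x i)⁻¹)) (fun j => u j * (v j)⁻¹) with hF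
  have hlong : ∀ i, (x i * (y i)⁻¹) * (x i * (y i)⁻¹) ≠ 1 := by
    rintro (_ | i) h
    · rw [f3] at h
      apply hz1
      rw [← hss]
      calc s * s = g ^ (N : ℤ) * (g ^ (-(N : ℤ)) * s) * s := by group
        _ = g ^ (N : ℤ) * (s * g ^ (N : ℤ)) * s := by rw [mc_comm hq]
        _ = g ^ (N : ℤ) * s * (g ^ (N : ℤ) * s) := by group
        _ = 1 := h
    · rw [f1, ← zpow_add, mc_one hord] at h
      have hi := i.2
      have := mc_small h (by omega) (by omega)
      omega
  have hshort : ∀ j, ∃ t ∈ mcH hord hq hsq, t ≠ 1 ∧ t * t = 1 ∧ v j = u j * t :=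
    fun j => j.elim
  let φ : (Option (Fin (N - 1)) ⊕ Option (Fin (N - 1))) ⊕ Empty →
      (Fin (N - 1) ⊕ Fin (N - 1)) ⊕ Bool := Sum.elim (Sum.elim
    (fun i => i.elim (Sum.inr false) fun i => Sum.inl (Sum.inl i))
    (fun i => i.elim (Sum.inr true) fun i => Sum.inl (Sum.inr i))) (fun j => j.elim)
  have hφ : Function.Injective φ := by
    rintro (((_ | i) | (_ | i)) | e1) (((_ | j) | (_ | j)) | e2) h
    all_goals first
      | exact e1.elim
      | exact e2.elim
      | rfl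
      | (simp [φ] at h; done)
      | (have h' : i = j := by simpa [φ] using h
         rw [h'])
  have hV : Function.Injective (Sum.elim (Sum.elim (fun i => (x i : G ⧸ mcH hord hq hsq))
      (fun i => (y i : G ⧸ mcH hord hq hsq))) (fun j => (u j : G ⧸ mcH hord hq hsq))) := by
    have hVe : ∀ a, Sum.elim (Sum.elim (fun i => (x i : G ⧸ mcH hord hq hsq))
      (fun i => (y i : G ⧸ mcH hord hq hsq))) (fun j => (u j : G ⧸ mcH hord hq hsq)) a =
        ((g ^ (mcE N (φ a)) : G) : G ⧸ mcH hord hq hsq) := by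
      rintro (((_ | i) | (_ | i)) | j)
      · have h0 : mcE N (φ (Sum.inl (Sum.inl none))) = 0 := rfl
        rw [h0, zpow_zero]
        show ((s : G) : G ⧸ mcH hord hq hsq) = ((1 : G) : G ⧸ mcH hord hq hsq)
        rw [QuotientGroup.eq, mul_one]
        exact (mcH hord hq hsq).inv_mem (Or.inr (Or.inr (Or.inl rfl)))
      · rfl
      · rfl
      · rfl
      · exact j.elim
    intro a b hab
    rw [hVe, hVe, mc_coset hord hq hsq hs] at hab
    exact hφ (mcE_inj hN _ _ hab)
  have hcard : 2 * Fintype.card (Option (Fin (N - 1))) + Fintype.card Empty =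
      (mcH hord hq hsq).index := by
    rw [mc_index hN hord hidx hq hsq hs, Fintype.card_option, Fintype.card_fin]
    simp only [Fintype.card_eq_zero]
    omega
  have hFinj : Function.Injective F := by
    have g1 : ∀ i, F (Sum.inl (Sum.inl (some i))) = g ^ (2 * ((i : ℤ) + 1)) := f1
    have g2 : ∀ i, F (Sum.inl (Sum.inr (some i))) = g ^ (-(2 * ((i : ℤ) + 1))) := f2
    have g3 : F (Sum.inl (Sum.inl none)) = g ^ (N : ℤ) * s := f3
    have g4 : F (Sum.inl (Sum.inr none)) = g ^ (-(N : ℤ)) * s := f4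
    have n2 : ∀ a b : ℤ, g ^ a ≠ g ^ b * s := by
      intro a b h
      apply hsC (a - b)
      rw [sub_eq_neg_add, zpow_add, h, ← mul_assoc, ← zpow_add]
      simp
    have n3 : g ^ (N : ℤ) * s ≠ g ^ (-(N : ℤ)) * s := by
      intro h
      have h2 : g ^ (N : ℤ) = g ^ (-(N : ℤ)) := mul_right_cancel h
      rw [mc_eq hord] at h2
      have := mc_small h2 (by omega) (by omega)
      omega
    rintro (((_ | i) | (_ | i)) | i) (((_ | j) | (_ | j)) | j) h
    all_goals first
      | exact i.elim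
      | exact j.elim
      | rfl
      | (rw [g1, g1, mc_eq hord] at h
         have hi := i.2; have hj := j.2
         have h7 := mc_small h (by omega) (by omega)
         have h8 : i = j := Fin.ext (by omega)
         rw [h8])
      | (rw [g2, g2, mc_eq hord] at h
         have hi := i.2; have hj := j.2
         have h7 := mc_small h (by omega) (by omega)
         have h8 : i = j := Fin.ext (by omega)
         rw [h8])
      | (exfalso
         rw [g1, g2, mc_eq hord] at h
         have hi := i.2; have hj := j.2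
         have h7 := mc_small h (by omega) (by omega)
         omega)
      | (rw [g3, g4] at h; exact absurd h n3)
      | (rw [g3, g4] at h; exact absurd h.symm n3)
      | (rw [g1, g3] at h; exact absurd h (n2 _ _))
      | (rw [g1, g4] at h; exact absurd h (n2 _ _))
      | (rw [g2, g3] at h; exact absurd h (n2 _ _))
      | (rw [g2, g4] at h; exact absurd h (n2 _ _))
      | (rw [g1, g3] at h; exact absurd h.symm (n2 _ _))
      | (rw [g1, g4] at h; exact absurd h.symm (n2 _ _))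
      | (rw [g2, g3] at h; exact absurd h.symm (n2 _ _))
      | (rw [g2, g4] at h; exact absurd h.symm (n2 _ _))
  have hmem : ∀ a : G, a ∈ Finset.univ.image F ↔ (∃ i, x i * (y i)⁻¹ = a) ∨
      (∃ i, y i * (x i)⁻¹ = a) ∨ (∃ j, u j * (v j)⁻¹ = a) := by
    intro a
    simp only [Finset.mem_image, Finset.mem_univ, true_and]
    constructor
    · rintro ⟨((i | i) | j), h⟩
      · exact Or.inl ⟨i, h⟩
      · exact Or.inr (Or.inl ⟨i, h⟩)
      · exact Or.inr (Or.inr ⟨j, h⟩)
    · rintro (⟨i, h⟩ | ⟨i, h⟩ | ⟨j, h⟩)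
      · exact ⟨Sum.inl (Sum.inl i), h⟩
      · exact ⟨Sum.inl (Sum.inr i), h⟩
      · exact ⟨Sum.inr j, h⟩
  refine ⟨Finset.univ.image F, Blk.mk' (mcH hord hq hsq) x y u v hlong hshort hV hcard _ hFinj hmem,
    ?_, ?_, ?_, ?_, ?_⟩
  · rw [hmem]
    rintro (⟨i, h⟩ | ⟨i, h⟩ | ⟨j, h⟩)
    · exact hlong i (by rw [h, mul_one])
    · apply hlong i
      have : x i * (y i)⁻¹ = (y i * (x i)⁻¹)⁻¹ := by group
      rw [this, h]; simp
    · exact j.elim
  · intro a ha
    rw [hmem] at ha ⊢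
    rcases ha with ⟨i, h⟩ | ⟨i, h⟩ | ⟨j, h⟩
    · exact Or.inr (Or.inl ⟨i, by rw [← h]; group⟩)
    · exact Or.inl ⟨i, by rw [← h]; group⟩
    · exact j.elim
  · intro j hj1 hj2
    have hlt : (j - 1).toNat < N - 1 := by omega
    constructor
    · rw [hmem]
      left
      refine ⟨some ⟨(j - 1).toNat, hlt⟩, ?_⟩
      rw [f1]
      congr 1
      simp only
      omega
    · rw [hmem]
      right; left
      refine ⟨some ⟨(j - 1).toNat, hlt⟩, ?_⟩
      rw [f2]
      congr 1
      simp only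
      omega
  · intro a ha hag
    rw [hmem] at ha
    rcases ha with ⟨i, h⟩ | ⟨i, h⟩ | ⟨j, h⟩
    · rw [← h]; exact hlong i
    · rw [← h]
      intro h1
      apply hlong i
      have h2 := congrArg (·⁻¹) h1
      simp only [inv_one] at h2
      rw [← h2]
      group
    · exact j.elim
  · rw [hmem]
    have hns : ∀ k : ℤ, g ^ k * s ≠ g := by
      intro k h
      apply hs
      refine ((Subgroup.zpowers g).mul_mem_cancel_left (Subgroup.zpow_mem_zpowers g k)).1 ?_
      rw [h]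
      exact Subgroup.mem_zpowers g
    rintro (⟨i, h⟩ | ⟨i, h⟩ | ⟨j, h⟩)
    · rcases i with _ | i
      · rw [f3] at h
        exact hns _ h
      · rw [f1] at h
        exact mc_ev hord _ h
    · rcases i with _ | i
      · rw [f4] at h
        exact hns _ h
      · rw [f2] at h
        have h1 : g ^ (2 * (-((i : ℤ) + 1))) = g := by
          rw [← h]; congr 1
        exact mc_ev hord _ h1
    · exact j.elim


end maxclass

variable {G : Type*} [Group G]

/-- Noncyclic-type 2-groups with a cyclic subgroup `⟨g⟩` of index two containing an element `c` of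
order four that is inverted by all elements outside: all elements of the subgroup generated by
the squares which are not of square 1 can be covered by a block. -/
theorem cov_maxclass2 [Finite G] (h2 : IsPGroup 2 G) (g c : G) (hc4 : orderOf c = 4)
    (hc : c ∈ Subgroup.zpowers g) (hidx : (Subgroup.zpowers g).index = 2)
    (hinv : ∀ s, s ∉ Subgroup.zpowers g → s * c * s⁻¹ = c⁻¹) :
    ∃ D : Finset G, Cov D ∧ 1 ∉ D ∧ (∀ x ∈ D, x⁻¹ ∈ D) ∧
      (∀ x ∈ Subgroup.closure {y : G | ∃ a : G, y = a * a}, x * x ≠ 1 → x ∈ D) ∧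
      (∀ x ∈ D, x ∈ Subgroup.closure {y : G | ∃ a : G, y = a * a} → x * x ≠ 1) ∧
      ∃ w, w ∉ Subgroup.closure {y : G | ∃ a : G, y = a * a} ∧ w * w ≠ 1 ∧ w ∉ D := by
  classical
  -- the order of `g`
  obtain ⟨f, hf⟩ := IsPGroup.iff_orderOf.1 h2 g
  have h4 : 4 ∣ orderOf g := hc4 ▸ orderOf_dvd_of_mem_zpowers hc
  obtain ⟨e, hord⟩ : ∃ e, orderOf g = 4 * 2 ^ e := by
    have hf2 : 2 ≤ f := by
      by_contra hcon
      rw [hf] at h4
      have : f = 0 ∨ f = 1 := by omega
      rcases this with rfl | rfl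
      · norm_num at h4
      · norm_num at h4
    exact ⟨f - 2, by rw [hf, show f = (f - 2) + 2 by omega, pow_add]; simp [mul_comm]⟩
  set N := 2 ^ e with hNdef
  have hN : 0 < N := by positivity
  have hN' : (0 : ℤ) < N := by exact_mod_cast hN
  -- `c` is `q` or `q⁻¹`
  obtain ⟨m, hm⟩ := Subgroup.mem_zpowers_iff.1 hc
  have hc4' : g ^ (4 * m) = 1 := by
    rw [mul_comm, zpow_mul, hm]
    have := pow_orderOf_eq_one c
    rw [hc4] at this
    exact_mod_cast this
  have hc2' : g ^ (2 * m) ≠ 1 := by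
    intro h
    rw [mul_comm, zpow_mul, hm] at h
    have h' : c ^ 2 = 1 := by exact_mod_cast h
    have := orderOf_dvd_of_pow_eq_one h'
    rw [hc4] at this
    norm_num at this
  rw [mc_one hord] at hc4'
  rw [Ne, mc_one hord] at hc2'
  obtain ⟨m', hm'⟩ : (N : ℤ) ∣ m := by
    obtain ⟨t, ht⟩ := hc4'
    exact ⟨t, by linarith⟩
  have hodd : Odd m' := by
    rw [← Int.not_even_iff_odd]
    rintro ⟨t, ht⟩
    apply hc2'
    exact ⟨t, by rw [hm', ht]; ring⟩
  have hcq : c = g ^ (N : ℤ) ∨ c = g ^ (-(N : ℤ)) := by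
    obtain ⟨t, ht⟩ := hodd
    rcases Int.even_or_odd' t with ⟨i, hi | hi⟩
    · left
      rw [← hm, mc_eq hord]
      exact ⟨i, by rw [hm', ht, hi]; ring⟩
    · right
      rw [← hm, mc_eq hord]
      exact ⟨i + 1, by rw [hm', ht, hi]; ring⟩
  have hq : ∀ s, s ∉ Subgroup.zpowers g → s * g ^ (N : ℤ) * s⁻¹ = (g ^ (N : ℤ))⁻¹ := by
    intro s hs
    have h := hinv s hs
    rcases hcq with h' | h'
    · rw [h'] at h
      exact h
    · rw [h'] at h
      have h6 : s * g ^ (N : ℤ) * s⁻¹ = (s * g ^ (-(N : ℤ)) * s⁻¹)⁻¹ := by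
        rw [zpow_neg]; group
      rw [h6, h]
      simp
  have hsqs : ∀ s, s ∉ Subgroup.zpowers g → s * s = 1 ∨ s * s = g ^ (2 * (N : ℤ)) :=
    fun s hs => mc_sq hord hidx (hq s hs)
  -- an element outside
  obtain ⟨s, hs⟩ : ∃ s, s ∉ Subgroup.zpowers g := by
    by_contra hcon
    push Not at hcon
    have : Subgroup.zpowers g = ⊤ := by
      rw [eq_top_iff]
      intro x _
      exact hcon x
    rw [this, Subgroup.index_top] at hidx
    omega
  have hblk : ∃ D : Finset G, Blk D ∧ 1 ∉ D ∧ (∀ x ∈ D, x⁻¹ ∈ D) ∧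
      (∀ j : ℤ, 0 < j → j < N → g ^ (2 * j) ∈ D ∧ g ^ (-(2 * j)) ∈ D) ∧
      (∀ x ∈ D, x ∈ Subgroup.zpowers g → x * x ≠ 1) ∧ g ∉ D := by
    rcases hsqs s hs with h | h
    · exact mc_blk1' hN hord hidx (hq s hs) h hs
    · exact mc_blk2' hN hord hidx (hq s hs) h hs
  obtain ⟨D, hD, hD1, hDi, hDm, hDz, hDg⟩ := hblk
  have hle : Subgroup.closure {y : G | ∃ a : G, y = a * a} ≤ Subgroup.zpowers (g ^ (2 : ℤ)) := by
    rw [Subgroup.closure_le]
    rintro _ ⟨a, rfl⟩
    show a * a ∈ Subgroup.zpowers (g ^ (2 : ℤ))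
    rw [Subgroup.mem_zpowers_iff]
    by_cases ha : a ∈ Subgroup.zpowers g
    · obtain ⟨k, rfl⟩ := Subgroup.mem_zpowers_iff.1 ha
      refine ⟨k, ?_⟩
      rw [← zpow_mul, ← zpow_add]
      congr 1
      ring
    · rcases hsqs a ha with h | h
      · exact ⟨0, by rw [h]; simp⟩
      · exact ⟨N, by rw [h, ← zpow_mul]⟩
  refine ⟨D, ?_, hD1, hDi, ?_, ?_, g, ?_, ?_, hDg⟩
  rotate_left 2
  · intro x hx hxΦ
    apply hDz x hx
    obtain ⟨k, rfl⟩ := Subgroup.mem_zpowers_iff.1 (hle hxΦ)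
    rw [← zpow_mul]
    exact Subgroup.zpow_mem_zpowers g _
  · intro hgΦ
    obtain ⟨k, hk⟩ := Subgroup.mem_zpowers_iff.1 (hle hgΦ)
    rw [← zpow_mul] at hk
    exact mc_ev hord _ hk
  · exact mc_two hord
  · have := Cov.cons ∅ D Cov.empty hD (Finset.disjoint_empty_left _)
    rwa [Finset.empty_union] at this
  · intro x hx hxx
    have hle : Subgroup.closure {y : G | ∃ a : G, y = a * a} ≤ Subgroup.zpowers (g ^ (2 : ℤ)) := by
      rw [Subgroup.closure_le]
      rintro _ ⟨a, rfl⟩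
      show a * a ∈ Subgroup.zpowers (g ^ (2 : ℤ))
      rw [Subgroup.mem_zpowers_iff]
      by_cases ha : a ∈ Subgroup.zpowers g
      · obtain ⟨k, rfl⟩ := Subgroup.mem_zpowers_iff.1 ha
        refine ⟨k, ?_⟩
        rw [← zpow_mul, ← zpow_add]
        congr 1
        ring
      · rcases hsqs a ha with h | h
        · exact ⟨0, by rw [h]; simp⟩
        · exact ⟨N, by rw [h, ← zpow_mul]⟩
    obtain ⟨k, hk⟩ := Subgroup.mem_zpowers_iff.1 (hle hx)
    rw [← zpow_mul] at hk
    have hxk : ¬ (4 * (N : ℤ)) ∣ 4 * k := by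
      intro h
      apply hxx
      rw [← hk, ← zpow_add, mc_one hord]
      convert h using 1
      ring
    set r := k % (2 * (N : ℤ)) with hr
    have hr0 : 0 ≤ r := Int.emod_nonneg _ (by omega)
    have hr1 : r < 2 * N := Int.emod_lt_of_pos _ (by omega)
    have hrk : k = 2 * N * (k / (2 * (N : ℤ))) + r := by
      have := Int.mul_ediv_add_emod k (2 * (N : ℤ))
      linarith
    have hrne0 : r ≠ 0 := by
      intro h
      apply hxk
      refine ⟨2 * (k / (2 * (N : ℤ))), ?_⟩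
      rw [h] at hrk
      linear_combination 4 * hrk
    have hrneN : r ≠ N := by
      intro h
      apply hxk
      refine ⟨2 * (k / (2 * (N : ℤ))) + 1, ?_⟩
      rw [h] at hrk
      linear_combination 4 * hrk
    rw [← hk]
    rcases lt_or_gt_of_ne hrneN with h | h
    · have h7 : g ^ (2 * k) = g ^ (2 * r) := by
        rw [mc_eq hord]
        exact ⟨k / (2 * (N : ℤ)), by linear_combination 2 * hrk⟩
      rw [h7]
      exact (hDm r (by omega) h).1
    · have h7 : g ^ (2 * k) = g ^ (-(2 * (2 * N - r))) := by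
        rw [mc_eq hord]
        exact ⟨k / (2 * (N : ℤ)) + 1, by linear_combination 2 * hrk⟩
      rw [h7]
      exact (hDm (2 * N - r) (by omega) (by omega)).2


/-- the data for all noncyclic finite 2-groups -/
theorem cov_noncyclic {G : Type*} [Group G] [Finite G] (h2 : IsPGroup 2 G) (hnc : ¬ IsCyclic G) :
    ∃ D : Finset G, Cov D ∧ 1 ∉ D ∧ (∀ x ∈ D, x⁻¹ ∈ D) ∧
      (∀ x ∈ Subgroup.closure {y : G | ∃ a : G, y = a * a}, x * x ≠ 1 → x ∈ D) ∧
      (∀ x ∈ D, x ∈ Subgroup.closure {y : G | ∃ a : G, y = a * a} → x * x ≠ 1) ∧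
      ((∃ y, y ∉ Subgroup.closure {y : G | ∃ a : G, y = a * a} ∧ y ≠ 1 ∧ y * y = 1 ∧ y ∉ D) ∨
       (∃ w, w ∉ Subgroup.closure {y : G | ∃ a : G, y = a * a} ∧ w * w ≠ 1 ∧ w ∉ D)) := by
  rcases four_or_maxclass h2 hnc with ⟨z, e, hz1, hzz, hzc, hee, he1, hez, hconj⟩ |
    ⟨g, c, hc4, hc, hidx, hinv⟩
  · obtain ⟨D, h1, h2', h3, h4, h5, h6⟩ := cov_of_data2 h2 z e hz1 hzz hzc hee he1 hez hconj
    refine ⟨D, h1, h2', h3, h4, fun x hx _ => h5 x hx, ?_⟩
    rcases h6 with ⟨y, hy, hy1, hyy⟩ | h6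
    · exact Or.inl ⟨y, hy, hy1, hyy, fun h => h5 y h hyy⟩
    · exact Or.inr h6
  · obtain ⟨D, h1, h2', h3, h4, h5, h6⟩ := cov_maxclass2 h2 g c hc4 hc hidx hinv
    exact ⟨D, h1, h2', h3, h4, h5, Or.inr h6⟩

end Pool.Agent.Y346.ST
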