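import Mathlib
import Pool.Agent.Y346.ST.Punct
import Pool.Agent.Y346.ST.Max

set_option autoImplicit false

/-!
Starters in split extensions of a group of odd order by a noncyclic 2-group.
-/

namespace Pool.Agent.Y346.ST

open Pool.Agent.Helper466.Starter

universe u

variable {G P : Type u} [Group G] [Group P]

theorem exists_index_two_lift [Finite P] (π : G →* P) (s : P →* G)
    (hs : ∀ p, π (s p) = p) (g : G)
    (hg : π g ∉ Subgroup.closure {y : P | ∃ a : P, y = a * a}) :
    ∃ H : Subgroup G, H.index = 2 ∧ g ∉ H := by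
  obtain ⟨H, _, hH, hgH⟩ := exists_index_two (Subgroup.closure {y : P | ∃ a : P, y = a * a})
    (fun g => Subgroup.subset_closure ⟨g, rfl⟩) (π g) hg
  refine ⟨H.comap π, ?_, hgH⟩
  rw [Subgroup.index_comap_of_surjective H (fun p => ⟨s p, hs p⟩), hH]

theorem hasStarter_split [Finite G] [Finite P] (π : G →* P) (s : P →* G)
    (hs : ∀ p, π (s p) = p) (hodd : Odd (Nat.card π.ker)) (D : Finset P) (hD : Cov D)
    (h1 : 1 ∉ D) (hinv : ∀ x ∈ D, x⁻¹ ∈ D)
    (hΦ : ∀ x ∈ Subgroup.closure {y : P | ∃ a : P, y = a * a}, x * x ≠ 1 → x ∈ D)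
    (hΦ' : ∀ x ∈ D, x ∈ Subgroup.closure {y : P | ∃ a : P, y = a * a} → x * x ≠ 1)
    (hex : (∃ y, y ∉ Subgroup.closure {y : P | ∃ a : P, y = a * a} ∧ y ≠ 1 ∧ y * y = 1 ∧ y ∉ D) ∨
       (∃ w, w ∉ Subgroup.closure {y : P | ∃ a : P, y = a * a} ∧ w * w ≠ 1 ∧ w ∉ D ∧
        ∃ z ∈ Subgroup.closure {y : P | ∃ a : P, y = a * a}, z ≠ 1 ∧ z * z = 1 ∧ w * z = z * w)) :
    HasStarter G := by
  classical
  have := Fintype.ofFinite G
  have := Fintype.ofFinite P
  set Φ : Subgroup P := Subgroup.closure {y : P | ∃ a : P, y = a * a} with hΦdef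
  have hsinj : Function.Injective s := fun a b hab => by rw [← hs a, hab, hs]
  rcases hex with ⟨y, hyΦ, hy1, hyy, hyD⟩ | ⟨w, hwΦ, hww, hwD, z, hzΦ, hz1, hzz, hwz⟩
  · -- an involution outside
    set I : Finset P := Finset.univ.filter (fun x => x ∈ Φ ∧ x ≠ 1 ∧ x * x = 1) with hI
    have hImem : ∀ x, x ∈ I ↔ x ∈ Φ ∧ x ≠ 1 ∧ x * x = 1 := by
      intro x; simp [hI]
    set D1 : Finset P := D ∪ I with hD1
    have hD1mem : ∀ x, x ∈ D1 ↔ x ∈ D ∨ (x ∈ Φ ∧ x ≠ 1 ∧ x * x = 1) := by
      intro x; rw [hD1, Finset.mem_union, hImem]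
    have hcov1 : Cov D1 := Cov.add_invol hD (I := I) (fun x hx => ((hImem x).1 hx).2)
      (fun x hx hxD => hΦ' x hxD ((hImem x).1 hx).1 ((hImem x).1 hx).2.2) D1
      (fun g => by rw [hD1, Finset.mem_union])
    have hcov2 : Cov (Finset.univ.filter (fun g : G => π g ∈ D1)) :=
      Cov.lift π s hs hodd hcov1 _ (fun g => by simp)
    have hB : Blk (Finset.univ.filter (fun g : G => (π g = 1 ∧ g ≠ 1) ∨ g = s y)) :=
      (blkA π s hs hodd y hy1 hyy _ (fun g => by simp)).toBlk
    have hy11 : y ∉ D1 := by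
      rw [hD1mem]
      rintro (h | h)
      · exact hyD h
      · exact hyΦ h.1
    have h11 : (1 : P) ∉ D1 := by
      rw [hD1mem]
      rintro (h | h)
      · exact h1 h
      · exact h.2.1 rfl
    have hdis : Disjoint (Finset.univ.filter (fun g : G => π g ∈ D1))
        (Finset.univ.filter (fun g : G => (π g = 1 ∧ g ≠ 1) ∨ g = s y)) := by
      rw [Finset.disjoint_left]
      intro g hg hg'
      simp only [Finset.mem_filter, Finset.mem_univ, true_and] at hg hg'
      rcases hg' with ⟨h, _⟩ | h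
      · rw [h] at hg; exact h11 hg
      · rw [h, hs] at hg; exact hy11 hg
    have hcov3 := Cov.cons _ _ hcov2 hB hdis
    refine hasStarter_of_cov hcov3 ?_ ?_ ?_
    · simp only [Finset.mem_union, Finset.mem_filter, Finset.mem_univ, true_and, map_one, ne_eq,
        not_true, and_false, false_or, not_or]
      refine ⟨h11, ?_⟩
      intro h
      apply hy1
      rw [← hs y, ← h, map_one]
    · intro g hg
      simp only [Finset.mem_union, Finset.mem_filter, Finset.mem_univ, true_and] at hg ⊢
      rcases hg with h | ⟨h, h'⟩ | h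
      · left
        rw [map_inv]
        rw [hD1mem] at h ⊢
        rcases h with h | ⟨ha, hb, hc⟩
        · exact Or.inl (hinv _ h)
        · right
          refine ⟨Φ.inv_mem ha, by simpa using hb, ?_⟩
          rw [← mul_eq_one_iff_eq_inv.1 hc]
          exact hc
      · right; left
        exact ⟨by rw [map_inv, h, inv_one], by simpa using h'⟩
      · right; right
        rw [h, ← map_inv, ← mul_eq_one_iff_eq_inv.1 hyy]
    · intro d hd hdd
      simp only [Finset.mem_union, Finset.mem_filter, Finset.mem_univ, true_and, not_or] at hd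
      obtain ⟨ha, hb, hc⟩ := hd
      apply exists_index_two_lift π s hs d
      intro hdΦ
      by_cases hp1 : π d = 1
      · apply hb
        refine ⟨hp1, ?_⟩
        rintro rfl
        exact hdd (one_mul 1)
      · apply ha
        rw [hD1mem]
        by_cases hpp : π d * π d = 1
        · exact Or.inr ⟨hdΦ, hp1, hpp⟩
        · exact Or.inl (hΦ _ hdΦ hpp)
  · -- a non-square-root of one outside
    obtain ⟨K, hΦK, hK, hwK⟩ := exists_index_two Φ
      (fun g => Subgroup.subset_closure ⟨g, rfl⟩) w hwΦ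
    set I : Finset P := Finset.univ.filter (fun x => x ∈ Φ ∧ x ≠ 1 ∧ x * x = 1 ∧ x ≠ z) with hI
    have hImem : ∀ x, x ∈ I ↔ x ∈ Φ ∧ x ≠ 1 ∧ x * x = 1 ∧ x ≠ z := by
      intro x; simp [hI]
    set D1 : Finset P := D ∪ I with hD1
    have hD1mem : ∀ x, x ∈ D1 ↔ x ∈ D ∨ (x ∈ Φ ∧ x ≠ 1 ∧ x * x = 1 ∧ x ≠ z) := by
      intro x; rw [hD1, Finset.mem_union, hImem]
    have hcov1 : Cov D1 := Cov.add_invol hD (I := I)
      (fun x hx => ⟨((hImem x).1 hx).2.1, ((hImem x).1 hx).2.2.1⟩)
      (fun x hx hxD => hΦ' x hxD ((hImem x).1 hx).1 ((hImem x).1 hx).2.2.1) D1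
      (fun g => by rw [hD1, Finset.mem_union])
    have hcov2 : Cov (Finset.univ.filter (fun g : G => π g ∈ D1)) :=
      Cov.lift π s hs hodd hcov1 _ (fun g => by simp)
    have hB : Blk (Finset.univ.filter (fun g : G => (π g = 1 ∧ g ≠ 1) ∨ (π g = z ∧ g ≠ s z) ∨
        g = s w ∨ g = (s w)⁻¹)) :=
      (blkB π s hs hodd K hK w z hwK hww (hΦK hzΦ) hz1 hzz hwz _ (fun g => by simp)).toBlk
    have hw11 : w ∉ D1 := by
      rw [hD1mem]
      rintro (h | h)
      · exact hwD h
      · exact hwΦ h.1
    have hwi11 : w⁻¹ ∉ D1 := by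
      rw [hD1mem]
      rintro (h | h)
      · exact hwD (by simpa using hinv _ h)
      · exact hwΦ (Φ.inv_mem_iff.1 h.1)
    have hz11 : z ∉ D1 := by
      rw [hD1mem]
      rintro (h | h)
      · exact hΦ' z h hzΦ hzz
      · exact h.2.2.2 rfl
    have h11 : (1 : P) ∉ D1 := by
      rw [hD1mem]
      rintro (h | h)
      · exact h1 h
      · exact h.2.1 rfl
    have hdis : Disjoint (Finset.univ.filter (fun g : G => π g ∈ D1))
        (Finset.univ.filter (fun g : G => (π g = 1 ∧ g ≠ 1) ∨ (π g = z ∧ g ≠ s z) ∨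
        g = s w ∨ g = (s w)⁻¹)) := by
      rw [Finset.disjoint_left]
      intro g hg hg'
      simp only [Finset.mem_filter, Finset.mem_univ, true_and] at hg hg'
      rcases hg' with ⟨h, _⟩ | ⟨h, _⟩ | h | h
      · rw [h] at hg; exact h11 hg
      · rw [h] at hg; exact hz11 hg
      · rw [h, hs] at hg; exact hw11 hg
      · rw [h, map_inv, hs] at hg; exact hwi11 hg
    have hcov3 := Cov.cons _ _ hcov2 hB hdis
    have hw1 : w ≠ 1 := by
      rintro rfl
      exact hww (one_mul 1)
    refine hasStarter_of_cov hcov3 ?_ ?_ ?_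
    · simp only [Finset.mem_union, Finset.mem_filter, Finset.mem_univ, true_and, map_one, ne_eq,
        not_true, and_false, false_or, not_or]
      refine ⟨h11, ?_, ?_, ?_⟩
      · rintro ⟨h, _⟩
        exact hz1 h.symm
      · intro h
        apply hw1
        rw [← hs w, ← h, map_one]
      · intro h
        apply hw1
        have h' : s w = 1 := by rw [← inv_inj, ← h, inv_one]
        rw [← hs w, h', map_one]
    · intro g hg
      simp only [Finset.mem_union, Finset.mem_filter, Finset.mem_univ, true_and] at hg ⊢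
      rcases hg with h | ⟨h, h'⟩ | ⟨h, h'⟩ | h | h
      · left
        rw [map_inv]
        rw [hD1mem] at h ⊢
        rcases h with h | ⟨ha, hb, hc, hd⟩
        · exact Or.inl (hinv _ h)
        · right
          rw [← mul_eq_one_iff_eq_inv.1 hc]
          exact ⟨ha, hb, hc, hd⟩
      · right; left
        exact ⟨by rw [map_inv, h, inv_one], by simpa using h'⟩
      · right; right; left
        refine ⟨by rw [map_inv, h, ← mul_eq_one_iff_eq_inv.1 hzz], ?_⟩
        intro h2
        apply h'
        rw [← inv_inv g, h2, ← map_inv, ← mul_eq_one_iff_eq_inv.1 hzz]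
      · right; right; right; right
        rw [h]
      · right; right; right; left
        rw [h, inv_inv]
    · intro d hd hdd
      simp only [Finset.mem_union, Finset.mem_filter, Finset.mem_univ, true_and, not_or] at hd
      obtain ⟨ha, hb, hc, _⟩ := hd
      apply exists_index_two_lift π s hs d
      intro hdΦ
      by_cases hp1 : π d = 1
      · apply hb
        refine ⟨hp1, ?_⟩
        rintro rfl
        exact hdd (one_mul 1)
      · by_cases hpz : π d = z
        · apply hc
          refine ⟨hpz, ?_⟩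
          rintro rfl
          apply hdd
          rw [← map_mul, hzz, map_one]
        · apply ha
          rw [hD1mem]
          by_cases hpp : π d * π d = 1
          · exact Or.inr ⟨hdΦ, hp1, hpp, hpz⟩
          · exact Or.inl (hΦ _ hdΦ hpp)

/-- an involution among the powers of `w` -/
theorem exists_invol_pow [Finite P] (h2 : IsPGroup 2 P) (w : P) (hww : w * w ≠ 1) :
    ∃ z ∈ Subgroup.closure {y : P | ∃ a : P, y = a * a}, z ≠ 1 ∧ z * z = 1 ∧ w * z = z * w := by
  obtain ⟨k, hk⟩ := IsPGroup.iff_orderOf.1 h2 w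
  have hk2 : 2 ≤ k := by
    by_contra hcon
    apply hww
    have h1 : orderOf w ∣ 2 := by
      rw [hk]
      have : k = 0 ∨ k = 1 := by omega
      rcases this with rfl | rfl <;> norm_num
    rw [← pow_two]
    exact orderOf_dvd_iff_pow_eq_one.1 h1
  refine ⟨w ^ (2 ^ (k - 1)), ?_, ?_, ?_, ?_⟩
  · apply Subgroup.subset_closure
    refine ⟨w ^ (2 ^ (k - 2)), ?_⟩
    rw [← pow_add, ← two_mul, ← pow_succ']
    congr 2
    omega
  · intro h
    have h3 := orderOf_dvd_of_pow_eq_one h
    rw [hk] at h3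
    have h4 := (Nat.pow_dvd_pow_iff_le_right (by norm_num)).1 h3
    omega
  · rw [← pow_add, ← two_mul, ← pow_succ', Nat.sub_add_cancel (by omega), ← hk,
      pow_orderOf_eq_one]
  · exact (Commute.refl w).pow_right _

/-- split extensions of a group of odd order by a noncyclic 2-group have starters -/
theorem hasStarter_noncyclic [Finite G] [Finite P] (π : G →* P) (s : P →* G)
    (hs : ∀ p, π (s p) = p) (hodd : Odd (Nat.card π.ker)) (h2 : IsPGroup 2 P)
    (hnc : ¬ IsCyclic P) : HasStarter G := by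
  obtain ⟨D, hD, h1, hinv, hΦ, hΦ', hex⟩ := cov_noncyclic h2 hnc
  refine hasStarter_split π s hs hodd D hD h1 hinv hΦ hΦ' ?_
  rcases hex with h | ⟨w, hw, hww, hwD⟩
  · exact Or.inl h
  · exact Or.inr ⟨w, hw, hww, hwD, exists_invol_pow h2 w hww⟩

/-- split extensions of a group of odd order by a group of order two or four -/
theorem hasStarter_small [Finite G] [Finite P] (π : G →* P) (s : P →* G)
    (hs : ∀ p, π (s p) = p) (hodd : Odd (Nat.card π.ker)) (h2 : IsPGroup 2 P)
    (hP1 : Nontrivial P) (h4 : ∀ x : P, (x * x) * (x * x) = 1) (hab : ∀ x y : P, x * y = y * x) :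
    HasStarter G := by
  have hle : ∀ x ∈ Subgroup.closure {y : P | ∃ a : P, y = a * a}, x * x = 1 := by
    intro x hx
    induction hx using Subgroup.closure_induction with
    | mem x hx =>
      obtain ⟨a, rfl⟩ := hx
      exact h4 a
    | one => exact one_mul 1
    | mul x y _ _ hx hy =>
      calc x * y * (x * y) = x * (y * x) * y := by group
        _ = x * (x * y) * y := by rw [hab y x]
        _ = (x * x) * (y * y) := by group
        _ = 1 := by rw [hx, hy, one_mul]
    | inv x _ hx =>
      rw [← mul_inv_rev, hx, inv_one]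
  refine hasStarter_split π s hs hodd ∅ Cov.empty (by simp) (by simp) ?_ (by simp) ?_
  · intro x hx hxx
    exact absurd (hle x hx) hxx
  · obtain ⟨y, hy⟩ : ∃ y : P, y ∉ Subgroup.closure {y : P | ∃ a : P, y = a * a} := by
      by_contra hcon
      push Not at hcon
      have h1 : (⊥ : Subgroup P) = ⊤ := by
        apply eq_top_of_sup h2
        rw [sup_bot_eq]
        exact (Subgroup.eq_top_iff' _).2 hcon
      obtain ⟨a, b, hab'⟩ := hP1
      apply hab'
      have ha : a ∈ (⊥ : Subgroup P) := h1 ▸ Subgroup.mem_top a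
      have hb : b ∈ (⊥ : Subgroup P) := h1 ▸ Subgroup.mem_top b
      rw [Subgroup.mem_bot.1 ha, Subgroup.mem_bot.1 hb]
    by_cases hyy : y * y = 1
    · left
      exact ⟨y, hy, fun h => hy (h ▸ Subgroup.one_mem _), hyy, by simp⟩
    · right
      exact ⟨y, hy, hyy, by simp, exists_invol_pow h2 y hyy⟩

/-- A finite group with a normal subgroup of odd order whose quotient is a 2-group splits. -/
theorem exists_split {G : Type u} [Group G] [Finite G] (N : Subgroup G) [N.Normal]
    (hodd : Odd (Nat.card N)) (h2 : IsPGroup 2 (G ⧸ N)) :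
    ∃ s : (G ⧸ N) →* G, ∀ p, QuotientGroup.mk' N (s p) = p := by
  have hcop : Nat.Coprime (Nat.card N) N.index := by
    obtain ⟨k, hk⟩ := IsPGroup.iff_card.1 h2
    rw [Subgroup.index, hk]
    exact Nat.Coprime.pow_right k (Nat.coprime_two_right.2 hodd)
  obtain ⟨K, hK⟩ := Subgroup.exists_left_complement'_of_coprime hcop
  refine ⟨K.subtype.comp hK.QuotientMulEquiv.toMonoidHom, ?_⟩
  intro p
  obtain ⟨k, rfl⟩ := hK.QuotientMulEquiv.symm.surjective p
  simp
  rfl

end Pool.Agent.Y346.ST
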