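import Mathlib
import Pool.Agent.Y346.ST.Cyc2
import Pool.Agent.Y346.ST.Split

set_option autoImplicit false

/-!
Starters in split extensions of a nontrivial group of odd order by a cyclic 2-group.
-/

namespace Pool.Agent.Y346.ST

open Pool.Agent.Helper466.Starter

universe u

variable {G P : Type u} [Group G] [Group P]

theorem blk_one_inv [Finite G] {D : Finset G} (hD : Blk D) : 1 ∉ D ∧ ∀ g ∈ D, g⁻¹ ∈ D := by
  obtain ⟨T, hT, H, x, ρ, h, hp, hne, hmem⟩ := Blk.toS hD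
  constructor
  · intro h1
    obtain ⟨t, ht⟩ := (hmem 1).1 h1
    exact hne t ht
  · intro g hg
    obtain ⟨t, ht⟩ := (hmem g).1 hg
    rw [hmem]
    exact ⟨ρ t, by rw [hp.d_symm, ht]⟩

section

variable {γ : P} {q : ℕ}

theorem hasStarter_cyc_core [Finite G] [Finite P] (π : G →* P) (s : P →* G)
    (hs : ∀ p, π (s p) = p) (hodd : Odd (Nat.card π.ker)) (hq : 2 ≤ q) (hqe : Even q)
    (hγ : ∀ p : P, p ∈ Subgroup.zpowers γ) (hord : orderOf γ = 4 * q)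
    [Fintype π.ker] [DecidableEq π.ker] [DecidableEq G]
    (c a0 b1 : π.ker) (ha0 : a0 ≠ 1) (hb1 : b1 ≠ 1) (hab : a0 ≠ b1)
    (B : Finset G) (X : Finset π.ker) (hX : X = ((Finset.univ.erase 1).erase a0).erase b1)
    (E : Finset (π.ker × π.ker × Bool)) (hE : GoodE (ff π s γ q) B X E)
    (hδ : (a0 : G) * s (γ ^ (2 : ℤ)) * (b1 : G)⁻¹ = (c : G) * c * s (γ ^ (2 : ℤ)))
    (m : ℤ) (hm : (2 * (q : ℤ)) ∣ m + 1 + q) (α β : G)
    (hα : α = ((c : G) * s γ)⁻¹)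
    (hβ : β = s (γ ^ (-m)) * ((s (γ ^ (2 : ℤ)))⁻¹ * (c : G)⁻¹ * s (γ ^ (2 : ℤ)))⁻¹)
    (hαβ : α ≠ β) (hαβ' : α ≠ β⁻¹)
    (hav : ∀ e ∈ E, ff π s γ q e.2.2 e.1 e.2.1 ≠ α ∧ ff π s γ q e.2.2 e.1 e.2.1 ≠ α⁻¹ ∧
      ff π s γ q e.2.2 e.1 e.2.1 ≠ β ∧ ff π s γ q e.2.2 e.1 e.2.1 ≠ β⁻¹) : HasStarter G := by
  classical
  have := Fintype.ofFinite G
  have hq' : (2 : ℤ) ≤ q := by exact_mod_cast hq
  have hker : ∀ a : π.ker, π (a : G) = 1 := fun a => a.2
  set δ : G := (c : G) * c * s (γ ^ (2 : ℤ)) with hδdef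
  have hmodd : Odd m := by
    obtain ⟨k, hk⟩ := hm
    obtain ⟨l, hl⟩ := hqe
    have hl' : (q : ℤ) = l + l := by exact_mod_cast hl
    refine ⟨q * k - l - 1, ?_⟩
    have : m = 2 * q * k - 1 - q := by linarith
    rw [this]
    linear_combination -hl'
  have hπα : π α = γ ^ (-1 : ℤ) := by
    rw [hα, map_inv, map_mul, hker, hs, one_mul, zpow_neg, zpow_one]
  have hπβ : π β = γ ^ (-m) := by
    rw [hβ]
    simp only [map_mul, map_inv, hs, hker]
    group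
  have hπδ : π δ = γ ^ (2 * 1 : ℤ) := by
    rw [hδdef, map_mul, map_mul, hker, hs, one_mul, one_mul]
    norm_num
  have hodd_notMem : ∀ k : ℤ, Odd k → γ ^ k ∉ Subgroup.zpowers (γ ^ (2 : ℤ)) := by
    intro k hk h
    obtain ⟨l, hl⟩ := Subgroup.mem_zpowers_iff.1 h
    rw [← zpow_mul] at hl
    exact even_ne_odd hord l k hk hl
  -- first block
  set D1 : Finset G := Finset.univ.filter (fun g => (g = α ∨ g = α⁻¹ ∨ g = β ∨ g = β⁻¹) ∨
    (π g ∈ Subgroup.zpowers (γ ^ (2 : ℤ)) ∧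
      g ≠ 1 ∧ g ≠ s (γ ^ (2 * (q : ℤ))) ∧ g ≠ δ ∧ g ≠ δ⁻¹)) with hD1
  have hD1mem : ∀ g, g ∈ D1 ↔ (g = α ∨ g = α⁻¹ ∨ g = β ∨ g = β⁻¹) ∨
    (π g ∈ Subgroup.zpowers (γ ^ (2 : ℤ)) ∧
      g ≠ 1 ∧ g ≠ s (γ ^ (2 * (q : ℤ))) ∧ g ≠ δ ∧ g ≠ δ⁻¹) := by
    intro g; simp [hD1]
  have hB1 : Blk D1 := (blk_first π s hs hodd hq hqe hγ hord c m hm α β hα hβ hαβ hαβ' D1
    hD1mem).toBlk
  set D2 : Finset G := Finset.univ.filter (fun g => (g = δ ∨ g = δ⁻¹ ∨ g = s (γ ^ (2 * (q : ℤ)))) ∨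
      ∃ e ∈ E, g = ff π s γ q e.2.2 e.1 e.2.1 ∨ g = (ff π s γ q e.2.2 e.1 e.2.1)⁻¹) with hD2
  have hD2mem : ∀ g, g ∈ D2 ↔ (g = δ ∨ g = δ⁻¹ ∨ g = s (γ ^ (2 * (q : ℤ)))) ∨
      ∃ e ∈ E, g = ff π s γ q e.2.2 e.1 e.2.1 ∨ g = (ff π s γ q e.2.2 e.1 e.2.1)⁻¹ := by
    intro g; rw [hD2, Finset.mem_filter]; simp only [Finset.mem_univ, true_and]
  have hB2 : Blk D2 := blk_second π s hs hq hord a0 b1 ha0 hb1 hab B X hX E hE δ hδ.symm D2 hD2mem
  have hdis : Disjoint D1 D2 := by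
    rw [Finset.disjoint_left]
    intro g h1 h2
    rw [hD1mem] at h1
    rw [hD2mem] at h2
    have hoddg : (g = α ∨ g = α⁻¹ ∨ g = β ∨ g = β⁻¹) → ∃ k : ℤ, Odd k ∧ π g = γ ^ k := by
      rintro (h | h | h | h) <;> rw [h]
      · exact ⟨-1, by decide, hπα⟩
      · exact ⟨1, by decide, by rw [map_inv, hπα, ← zpow_neg, neg_neg]⟩
      · exact ⟨-m, hmodd.neg, hπβ⟩
      · exact ⟨m, hmodd, by rw [map_inv, hπβ, ← zpow_neg, neg_neg]⟩
    have hevg : (g = δ ∨ g = δ⁻¹ ∨ g = s (γ ^ (2 * (q : ℤ)))) → ∃ k : ℤ, π g = γ ^ (2 * k) := by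
      rintro (h | h | h) <;> rw [h]
      · exact ⟨1, hπδ⟩
      · exact ⟨-1, by rw [map_inv, hπδ, ← zpow_neg]; congr 1⟩
      · exact ⟨q, hs _⟩
    rcases h1 with h1 | ⟨h1, h3, h4, h5, h6⟩
    · rcases h2 with h2 | ⟨e, he, h2⟩
      · obtain ⟨k, hk, hk'⟩ := hoddg h1
        obtain ⟨l, hl⟩ := hevg h2
        exact even_ne_odd hord l k hk (hl.symm.trans hk')
      · obtain ⟨n1, n2, n3, n4⟩ := hav e he
        rcases h2 with h2 | h2
        · rw [← h2] at n1 n2 n3 n4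
          rcases h1 with h | h | h | h
          · exact n1 h
          · exact n2 h
          · exact n3 h
          · exact n4 h
        · have h2' : ff π s γ q e.2.2 e.1 e.2.1 = g⁻¹ := by rw [h2, inv_inv]
          rw [h2'] at n1 n2 n3 n4
          rcases h1 with h | h | h | h
          · exact n2 (by rw [h])
          · exact n1 (by rw [h, inv_inv])
          · exact n4 (by rw [h])
          · exact n3 (by rw [h, inv_inv])
    · rcases h2 with h2 | ⟨e, he, h2⟩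
      · rcases h2 with h | h | h
        · exact h5 h
        · exact h6 h
        · exact h4 h
      · rcases h2 with h2 | h2
        · rw [h2, pi_ff π s hs] at h1
          exact hodd_notMem _ (kap_odd q _) h1
        · rw [h2, map_inv, pi_ff π s hs, ← zpow_neg] at h1
          exact hodd_notMem _ (kap_odd q _).neg h1
  have hcov : Cov (D1 ∪ D2) := Cov.union (Cov.blk hB1) (Cov.blk hB2) hdis
  obtain ⟨o1, i1⟩ := blk_one_inv hB1
  obtain ⟨o2, i2⟩ := blk_one_inv hB2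
  refine hasStarter_of_cov hcov ?_ ?_ ?_
  · rw [Finset.mem_union, not_or]
    exact ⟨o1, o2⟩
  · intro g hg
    rw [Finset.mem_union] at hg ⊢
    rcases hg with h | h
    · exact Or.inl (i1 g h)
    · exact Or.inr (i2 g h)
  · intro d hd hdd
    rw [Finset.mem_union, not_or] at hd
    obtain ⟨hd1, hd2⟩ := hd
    apply exists_index_two_lift π s hs d
    intro hdΦ
    have hle : Subgroup.closure {y : P | ∃ a : P, y = a * a} ≤ Subgroup.zpowers (γ ^ (2 : ℤ)) := by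
      rw [Subgroup.closure_le]
      rintro _ ⟨a, rfl⟩
      obtain ⟨k, rfl⟩ := Subgroup.mem_zpowers_iff.1 (hγ a)
      show γ ^ k * γ ^ k ∈ Subgroup.zpowers (γ ^ (2 : ℤ))
      rw [Subgroup.mem_zpowers_iff]
      exact ⟨k, by rw [← zpow_mul, ← zpow_add]; congr 1; ring⟩
    apply hd1
    rw [hD1mem]
    right
    refine ⟨hle hdΦ, ?_, ?_, ?_, ?_⟩
    · rintro rfl
      exact hdd (one_mul 1)
    · intro h
      exact hd2 ((hD2mem d).2 (Or.inl (Or.inr (Or.inr h))))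
    · intro h
      exact hd2 ((hD2mem d).2 (Or.inl (Or.inl h)))
    · intro h
      exact hd2 ((hD2mem d).2 (Or.inl (Or.inr (Or.inl h))))

/-- the case where some element of the kernel is not inverted by `s γ ^ 2` -/
theorem hasStarter_cycI [Finite G] [Finite P] (π : G →* P) (s : P →* G)
    (hs : ∀ p, π (s p) = p) (hodd : Odd (Nat.card π.ker)) (hq : 2 ≤ q) (hqe : Even q)
    (hγ : ∀ p : P, p ∈ Subgroup.zpowers γ) (hord : orderOf γ = 4 * q) (c : π.ker)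
    (hc : s (γ ^ (2 : ℤ)) * (c : G) * (s (γ ^ (2 : ℤ)))⁻¹ ≠ (c : G)⁻¹) : HasStarter G := by
  classical
  have := Fintype.ofFinite π.ker
  have hq' : (2 : ℤ) ≤ q := by exact_mod_cast hq
  have hker : ∀ a : π.ker, π (a : G) = 1 := fun a => a.2
  set b1 : π.ker := tw π (s (γ ^ (2 : ℤ))) c with hb1def
  have hb1c : (b1 : G) = (s (γ ^ (2 : ℤ)))⁻¹ * (c : G)⁻¹ * s (γ ^ (2 : ℤ)) := rfl
  have hc1 : c ≠ 1 := by
    rintro rfl
    apply hc
    simp only [Subgroup.coe_one, mul_one, inv_one]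
    exact mul_inv_cancel _
  have hb1 : b1 ≠ 1 := by
    intro h
    apply hc1
    have h1 : (s (γ ^ (2 : ℤ)))⁻¹ * (c : G)⁻¹ * s (γ ^ (2 : ℤ)) = 1 := by
      rw [← hb1c, h]; rfl
    have h2 : (c : G)⁻¹ = 1 := by
      have : (c : G)⁻¹ = s (γ ^ (2 : ℤ)) * ((s (γ ^ (2 : ℤ)))⁻¹ * (c : G)⁻¹ * s (γ ^ (2 : ℤ))) *
        (s (γ ^ (2 : ℤ)))⁻¹ := by group
      rw [this, h1]; group
    exact Subtype.ext (inv_eq_one.1 h2)
  have hcb : c ≠ b1 := by
    intro h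
    apply hc
    have h1 : (c : G) = (s (γ ^ (2 : ℤ)))⁻¹ * (c : G)⁻¹ * s (γ ^ (2 : ℤ)) := by
      rw [← hb1c, ← h]
    nth_rewrite 1 [h1]
    group
  have hδ : (c : G) * s (γ ^ (2 : ℤ)) * (b1 : G)⁻¹ = (c : G) * c * s (γ ^ (2 : ℤ)) := by
    rw [hb1c]; group
  set α : G := ((c : G) * s γ)⁻¹ with hα
  set β : G := s (γ ^ (-((q : ℤ) - 1))) * ((s (γ ^ (2 : ℤ)))⁻¹ * (c : G)⁻¹ * s (γ ^ (2 : ℤ)))⁻¹
    with hβ
  have hπα : π α = γ ^ (-1 : ℤ) := by
    rw [hα, map_inv, map_mul, hker, hs, one_mul, zpow_neg, zpow_one]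
  have hπβ : π β = γ ^ (-((q : ℤ) - 1)) := by
    rw [hβ]
    simp only [map_mul, map_inv, hs, hker]
    group
  have hπα' : π α⁻¹ = γ ^ (1 : ℤ) := by rw [map_inv, hπα, ← zpow_neg, neg_neg]
  have hπβ' : π β⁻¹ = γ ^ ((q : ℤ) - 1) := by rw [map_inv, hπβ, ← zpow_neg, neg_neg]
  have hαβ : α ≠ β := by
    intro h
    have h1 : γ ^ (1 : ℤ) = γ ^ ((q : ℤ) - 1) := by rw [← hπα', ← hπβ', h]
    apply hcb
    have h2 : (c : G) * s γ = b1 * s (γ ^ ((q : ℤ) - 1)) := by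
      have h3 : α⁻¹ = β⁻¹ := by rw [h]
      rw [hα, hβ, inv_inv, ← hb1c, mul_inv_rev, inv_inv, ← map_inv, ← zpow_neg, neg_neg] at h3
      exact h3
    rw [← h1, zpow_one] at h2
    exact Subtype.ext (mul_right_cancel h2)
  have hαβ' : α ≠ β⁻¹ := by
    intro h
    have h1 : γ ^ (-1 : ℤ) = γ ^ ((q : ℤ) - 1) := by rw [← hπα, ← hπβ', h]
    exact zp_ne hord ((q : ℤ) - 1) (-1) rfl (by linarith) (by linarith) h1.symm
  set X : Finset π.ker := ((Finset.univ.erase 1).erase c).erase b1 with hX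
  set B : Finset G := {α⁻¹, β⁻¹} with hB
  have hXc : ∃ k, X.card = 2 * k := by
    have h3 : b1 ∈ ((Finset.univ : Finset π.ker).erase 1).erase c := by
      simp [hb1, hcb.symm]
    have h4 : c ∈ (Finset.univ : Finset π.ker).erase 1 := by simp [hc1]
    rw [hX, Finset.card_erase_of_mem h3, Finset.card_erase_of_mem h4,
      Finset.card_erase_of_mem (Finset.mem_univ _), Finset.card_univ]
    have h5 : ({1, c, b1} : Finset π.ker).card ≤ Fintype.card π.ker := Finset.card_le_univ _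
    rw [Finset.card_insert_of_notMem, Finset.card_insert_of_notMem,
      Finset.card_singleton] at h5
    · rw [Nat.card_eq_fintype_card] at hodd
      obtain ⟨k, hk⟩ := hodd
      exact ⟨k - 1, by omega⟩
    · simp [hcb]
    · simp [hc1.symm, hb1.symm]
  obtain ⟨k, hk⟩ := hXc
  obtain ⟨E, hE⟩ := rainbow (f := ff π s γ q) (B := B) (ff_inj π s)
    (fun p r k w => ff_O π s hodd true p r k w) Finset.card_le_two k X hk
  refine hasStarter_cyc_core π s hs hodd hq hqe hγ hord c c b1 hc1 hb1 hcb B X hX E hE hδ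
    ((q : ℤ) - 1) ⟨1, by ring⟩ α β hα hβ hαβ hαβ' ?_
  intro e he
  have hπ := pi_ff (γ := γ) (q := q) π s hs e.2.2 e.1 e.2.1
  refine ⟨?_, ?_, ?_, ?_⟩
  · intro h
    rw [h, hπα] at hπ
    rcases kap_cases q e.2.2 with h' | h' <;> rw [h'] at hπ
    · exact zp_ne hord 1 (-1) rfl (by norm_num) (by linarith) hπ.symm
    · exact zp_ne hord (2 * (q : ℤ) - 1) (-1) rfl (by linarith) (by linarith) hπ.symm
  · intro h
    rcases hcc : e.2.2 with _ | _
    · apply hE.avoid e he hcc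
      rw [hcc] at h
      rw [h, hB]
      simp
    · rw [h, hπα', hcc] at hπ
      exact zp_ne hord (2 * (q : ℤ) - 1) 1 rfl (by linarith) (by linarith) hπ.symm
  · intro h
    rw [h, hπβ] at hπ
    rcases kap_cases q e.2.2 with h' | h' <;> rw [h'] at hπ
    · exact zp_ne hord 1 (-((q : ℤ) - 1)) rfl (by linarith) (by linarith) hπ.symm
    · exact zp_ne hord (2 * (q : ℤ) - 1) (-((q : ℤ) - 1)) rfl (by linarith) (by linarith) hπ.symm
  · intro h
    rcases hcc : e.2.2 with _ | _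
    · apply hE.avoid e he hcc
      rw [hcc] at h
      rw [h, hB]
      simp
    · rw [h, hπβ', hcc] at hπ
      exact zp_ne hord (2 * (q : ℤ) - 1) ((q : ℤ) - 1) rfl (by linarith) (by linarith) hπ.symm

end

end Pool.Agent.Y346.ST
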