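import Mathlib
import Pool.Agent.Y346.ST.Cyc3

set_option autoImplicit false

/-!
Starters in split extensions of a nontrivial group of odd order by a cyclic 2-group: the case where
the kernel is inverted by the square of the generator, and the conclusion.
-/

namespace Pool.Agent.Y346.ST

open Pool.Agent.Helper466.Starter

universe u

variable {G P : Type u} [Group G] [Group P]

/-- the matching for an automorphism `σ` of a group of odd order with `σ (σ x) = x⁻¹` -/
theorem exists_half {N W : Type*} [Group N] [Fintype N] [DecidableEq N] [DecidableEq W]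
    (f : Bool → N → N → W) (σ : N ≃* N) (hσ : ∀ x, σ (σ x) = x⁻¹)
    (hN : ∀ x : N, x * x = 1 → x = 1) (b : N) (hb : b ≠ 1)
    (hf : ∀ x y, f true x (σ x)⁻¹ = f true y (σ y)⁻¹ → x = y) :
    ∃ E : Finset (N × N × Bool), GoodE f ∅ (((Finset.univ.erase 1).erase b⁻¹).erase b) E ∧
      ∀ e ∈ E, e = (σ b, (σ b)⁻¹, false) ∨ (e.1 ≠ 1 ∧ e = (e.1, (σ e.1)⁻¹, true)) := by
  have hinv : ∀ x : N, x ≠ 1 → x ≠ x⁻¹ := by
    intro x hx h
    apply hx
    apply hN
    nth_rewrite 2 [h]
    exact mul_inv_cancel x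
  have hσ1 : ∀ x : N, x ≠ 1 → σ x ≠ x := by
    intro x hx h
    apply hinv x hx
    rw [← hσ, h, h]
  have hσ2 : ∀ x : N, x ≠ 1 → σ x ≠ x⁻¹ := by
    intro x hx h
    apply hinv x hx
    have h1 := hσ x
    rw [h, map_inv, h, inv_inv] at h1
    exact h1
  set en := Fintype.equivFin N with hen
  set mi : N → Fin (Fintype.card N) := fun x => min (en x) (en x⁻¹) with hmi
  have mi_inv : ∀ x, mi x⁻¹ = mi x := by
    intro x
    simp only [hmi, inv_inv]
    exact min_comm _ _
  have mi_ne : ∀ x, x ≠ 1 → mi x ≠ mi (σ x) := by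
    intro x hx h
    have key : x = σ x ∨ x = (σ x)⁻¹ := by
      rcases min_choice (en x) (en x⁻¹) with h1 | h1 <;>
        rcases min_choice (en (σ x)) (en (σ x)⁻¹) with h2 | h2
      · left
        apply en.injective
        rw [← h1, ← h2]; exact h
      · right
        apply en.injective
        rw [← h1, ← h2]; exact h
      · right
        have : x⁻¹ = σ x := by
          apply en.injective
          rw [← h1, ← h2]; exact h
        rw [← this, inv_inv]
      · left
        have : x⁻¹ = (σ x)⁻¹ := by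
          apply en.injective
          rw [← h1, ← h2]; exact h
        exact inv_injective this
    rcases key with h1 | h1
    · exact hσ1 x hx h1.symm
    · exact hσ2 x hx (by rw [h1, inv_inv, ← h1])
  set X : Finset N := ((Finset.univ.erase 1).erase b⁻¹).erase b with hX
  set X' : Finset N := (X.erase (σ b)).erase (σ b)⁻¹ with hX'
  have hX'mem : ∀ x, x ∈ X' ↔ x ≠ 1 ∧ x ≠ b ∧ x ≠ b⁻¹ ∧ x ≠ σ b ∧ x ≠ (σ b)⁻¹ := by
    intro x
    rw [hX', hX]
    simp only [Finset.mem_erase, Finset.mem_univ, and_true]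
    tauto
  have hX'σ : ∀ x ∈ X', σ x ∈ X' := by
    intro x hx
    rw [hX'mem] at hx ⊢
    obtain ⟨h1, h2, h3, h4, h5⟩ := hx
    refine ⟨?_, ?_, ?_, ?_, ?_⟩
    · intro h
      exact h1 (by simpa using h)
    · intro h
      apply h5
      have := hσ x
      rw [h] at this
      rw [this, inv_inv]
    · intro h
      apply h4
      have := hσ x
      rw [h, map_inv] at this
      exact (inv_injective this).symm
    · intro h
      exact h2 (σ.injective h)
    · intro h
      rw [← map_inv] at h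
      exact h3 (σ.injective h)
  have hX'inv : ∀ x ∈ X', x⁻¹ ∈ X' := by
    intro x hx
    rw [← hσ]
    exact hX'σ _ (hX'σ _ hx)
  have hX'1 : ∀ x ∈ X', x ≠ 1 := fun x hx => ((hX'mem x).1 hx).1
  set Y : Finset N := X'.filter (fun x => mi x < mi (σ x)) with hY
  have hYmem : ∀ x, x ∈ Y ↔ x ∈ X' ∧ mi x < mi (σ x) := by
    intro x; simp [hY]
  set E2 : Finset (N × N × Bool) := Y.image (fun x => (x, (σ x)⁻¹, true)) with hE2
  have hcardE2 : E2.card = Y.card := by
    apply Finset.card_image_of_injective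
    intro x y h
    simp only [Prod.mk.injEq] at h
    exact h.1
  have hcardY : 2 * Y.card = X'.card := by
    have h1 := Finset.card_filter_add_card_filter_not (s := X') (fun x => mi x < mi (σ x))
    have h2 : (X'.filter (fun x => ¬ mi x < mi (σ x))).card = Y.card := by
      apply Finset.card_nbij' (fun x => σ x) (fun y => (σ y)⁻¹)
      · intro x hx
        have hx' := Finset.mem_filter.1 hx
        show σ x ∈ Y
        rw [hYmem]
        refine ⟨hX'σ x hx'.1, ?_⟩
        rw [hσ, mi_inv]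
        exact lt_of_le_of_ne (not_lt.1 hx'.2) (mi_ne x (hX'1 x hx'.1)).symm
      · intro y hy
        have hy' := (hYmem y).1 hy
        show (σ y)⁻¹ ∈ X'.filter (fun x => ¬ mi x < mi (σ x))
        rw [Finset.mem_filter]
        refine ⟨hX'inv _ (hX'σ y hy'.1), ?_⟩
        rw [mi_inv, map_inv, hσ, inv_inv]
        exact not_lt.2 hy'.2.le
      · intro x hx
        show (σ (σ x))⁻¹ = x
        rw [hσ, inv_inv]
      · intro y hy
        show σ (σ y)⁻¹ = y
        rw [map_inv, hσ, inv_inv]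
    rw [← hY] at h1
    omega
  have hg2 : GoodE f ∅ X' E2 := by
    refine ⟨?_, ?_, ?_, ?_, ?_⟩
    · intro e he
      obtain ⟨x, hx, rfl⟩ := Finset.mem_image.1 he
      have hx' := (hYmem x).1 hx
      refine ⟨hx'.1, hX'inv _ (hX'σ x hx'.1), ?_⟩
      intro h
      apply hσ2 x (hX'1 x hx'.1)
      have h' : x = (σ x)⁻¹ := h
      nth_rewrite 2 [h']
      rw [inv_inv]
    · intro e he e' he' hh
      obtain ⟨x, hx, rfl⟩ := Finset.mem_image.1 he
      obtain ⟨y, hy, rfl⟩ := Finset.mem_image.1 he'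
      have hx' := (hYmem x).1 hx
      have hy' := (hYmem y).1 hy
      have hbad : ∀ x y, mi x < mi (σ x) → mi y < mi (σ y) → x ≠ (σ y)⁻¹ := by
        intro x y h1 h2 h
        rw [h, map_inv, hσ, inv_inv, mi_inv] at h1
        exact lt_asymm h1 h2
      rcases hh with (h : x = y) | (h : x = (σ y)⁻¹) | (h : (σ x)⁻¹ = y) |
        (h : (σ x)⁻¹ = (σ y)⁻¹)
      · rw [h]
      · exact absurd h (hbad x y hx'.2 hy'.2)
      · exact absurd h.symm (hbad y x hy'.2 hx'.2)
      · rw [σ.injective (inv_injective h)]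
    · rw [hcardE2, hcardY]
    · intro e he e' he' _ hh
      obtain ⟨x, hx, rfl⟩ := Finset.mem_image.1 he
      obtain ⟨y, hy, rfl⟩ := Finset.mem_image.1 he'
      rw [hf x y hh]
    · intro e he _
      simp
  have hbi : b ≠ b⁻¹ := hinv b hb
  have hσb : σ b ∈ X := by
    rw [hX]
    simp only [Finset.mem_erase, Finset.mem_univ, and_true]
    refine ⟨hσ1 b hb, hσ2 b hb, ?_⟩
    intro h
    exact hb (by simpa using h)
  have hσbi : (σ b)⁻¹ ∈ X.erase (σ b) := by
    rw [hX]
    simp only [Finset.mem_erase, Finset.mem_univ, and_true]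
    refine ⟨?_, ?_, ?_, ?_⟩
    · intro h
      apply hinv (σ b) ?_ h.symm
      intro h'
      exact hb (by simpa using h')
    · intro h
      exact hσ2 b hb (by rw [← inv_inv (σ b), h])
    · intro h
      exact hσ1 b hb (inv_injective h)
    · intro h
      exact hb (by simpa using h)
  have hne : σ b ≠ (σ b)⁻¹ := (Finset.ne_of_mem_erase hσbi).symm
  have hg := hg2.add (x := σ b) (y := (σ b)⁻¹) (by rw [hX'mem]; simp) (by rw [hX'mem]; simp) hne
    false (by
      intro e he hec
      obtain ⟨x, hx, rfl⟩ := Finset.mem_image.1 he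
      simp at hec) (by simp)
  have hXX : X = insert (σ b) (insert (σ b)⁻¹ X') := by
    rw [hX', Finset.insert_erase hσbi, Finset.insert_erase hσb]
  refine ⟨insert (σ b, (σ b)⁻¹, false) E2, ?_, ?_⟩
  · rw [hXX]
    exact hg
  · intro e he
    rcases Finset.mem_insert.1 he with h | h
    · exact Or.inl h
    · right
      obtain ⟨x, hx, rfl⟩ := Finset.mem_image.1 h
      exact ⟨hX'1 x ((hYmem x).1 hx).1, rfl⟩

section

variable {γ : P} {q : ℕ}

/-- the case where all elements of the kernel are inverted by `s γ ^ 2` -/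
theorem hasStarter_cycII [Finite G] [Finite P] (π : G →* P) (s : P →* G)
    (hs : ∀ p, π (s p) = p) (hodd : Odd (Nat.card π.ker)) (hq : 2 ≤ q) (hqe : Even q)
    (hγ : ∀ p : P, p ∈ Subgroup.zpowers γ) (hord : orderOf γ = 4 * q)
    (h2 : ∀ c : π.ker, s (γ ^ (2 : ℤ)) * (c : G) * (s (γ ^ (2 : ℤ)))⁻¹ = (c : G)⁻¹)
    (b : π.ker) (hb : b ≠ 1) : HasStarter G := by
  classical
  have := Fintype.ofFinite π.ker
  have hq' : (2 : ℤ) ≤ q := by exact_mod_cast hq
  have hker : ∀ a : π.ker, π (a : G) = 1 := fun a => a.2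
  set g : G := s γ with hg
  have hsg : ∀ k : ℤ, s (γ ^ k) = g ^ k := fun k => by rw [hg, map_zpow]
  have h2' : ∀ c : π.ker, g ^ (2 : ℤ) * (c : G) = (c : G)⁻¹ * g ^ (2 : ℤ) := by
    intro c
    have := h2 c
    rw [hsg] at this
    rw [← this]; group
  have h4 : ∀ c : π.ker, g ^ (4 : ℤ) * (c : G) = c * g ^ (4 : ℤ) := by
    intro c
    have e1 : g ^ (4 : ℤ) = g ^ (2 : ℤ) * g ^ (2 : ℤ) := by rw [← zpow_add]; norm_num
    rw [e1, mul_assoc, h2' c, ← mul_assoc]
    have := h2' c⁻¹
    rw [Subgroup.coe_inv, inv_inv] at this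
    rw [this, mul_assoc]
  obtain ⟨l, hl⟩ := hqe
  have hz : ∀ c : π.ker, g ^ (2 * (q : ℤ)) * (c : G) = c * g ^ (2 * (q : ℤ)) := by
    intro c
    have e1 : g ^ (2 * (q : ℤ)) = (g ^ (4 : ℤ)) ^ (l : ℤ) := by
      rw [← zpow_mul]
      congr 1
      have : (q : ℤ) = l + l := by exact_mod_cast hl
      rw [this]; ring
    rw [e1]
    have hc : Commute (g ^ (4 : ℤ)) (c : G) := h4 c
    exact (hc.zpow_left _)
  set σ : π.ker ≃* π.ker := MulAut.conjNormal g with hσdef
  have hσc : ∀ x : π.ker, ((σ x : π.ker) : G) = g * x * g⁻¹ := fun x => by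
    rw [hσdef]; exact MulAut.conjNormal_apply g x
  have hσ : ∀ x, σ (σ x) = x⁻¹ := by
    intro x
    apply Subtype.ext
    rw [hσc, hσc, Subgroup.coe_inv]
    have e1 : g * (g * (x : G) * g⁻¹) * g⁻¹ = g ^ (2 : ℤ) * x * (g ^ (2 : ℤ))⁻¹ := by
      rw [zpow_two]; group
    rw [e1, h2' x]; group
  have hN : ∀ x : π.ker, x * x = 1 → x = 1 := fun x hx => sq_one hodd hx
  have hft : ∀ x : π.ker, ff π s γ q true x (σ x)⁻¹ = (x : G) * x * g ^ (2 * (q : ℤ) - 1) := by
    intro x
    unfold ff kap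
    rw [Subgroup.coe_inv, inv_inv, hσc, hsg]
    have e1 : (x : G) * g ^ (2 * (q : ℤ) - 1) * (g * x * g⁻¹) =
        x * (g ^ (2 * (q : ℤ)) * x) * g⁻¹ := by
      rw [zpow_sub, zpow_one]; group
    rw [e1, hz x, zpow_sub, zpow_one]
    group
  obtain ⟨E, hE, hEe⟩ := exists_half (ff π s γ q) σ hσ hN b hb (by
    intro x y hxy
    rw [hft, hft] at hxy
    have h3 : (x : G) * x = y * y := mul_right_cancel hxy
    exact sq_inj hodd (Subtype.ext h3))
  have hbi : b⁻¹ ≠ b := by
    intro h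
    apply hb
    apply hN
    nth_rewrite 1 [← h]
    exact inv_mul_cancel b
  have hα : (g : G)⁻¹ = (((1 : π.ker) : G) * s γ)⁻¹ := by rw [Subgroup.coe_one, one_mul]
  have hβ : s (γ ^ (1 + (q : ℤ))) = s (γ ^ (-(-1 - (q : ℤ)))) * ((s (γ ^ (2 : ℤ)))⁻¹ *
      ((1 : π.ker) : G)⁻¹ * s (γ ^ (2 : ℤ)))⁻¹ := by
    rw [Subgroup.coe_one, inv_one, mul_one, inv_mul_cancel, inv_one, mul_one]
    congr 2
    ring
  have hπα : π g⁻¹ = γ ^ (-1 : ℤ) := by
    rw [map_inv, hg, hs, zpow_neg, zpow_one]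
  have hπα' : π (g⁻¹)⁻¹ = γ ^ (1 : ℤ) := by
    rw [inv_inv, hg, hs, zpow_one]
  have hπβ : π (s (γ ^ (1 + (q : ℤ)))) = γ ^ (1 + (q : ℤ)) := hs _
  have hπβ' : π (s (γ ^ (1 + (q : ℤ))))⁻¹ = γ ^ (-(1 + (q : ℤ))) := by
    rw [map_inv, hs, zpow_neg]
  refine hasStarter_cyc_core π s hs hodd hq ⟨l, hl⟩ hγ hord 1 b⁻¹ b (inv_ne_one.2 hb) hb hbi ∅ _
    rfl E hE ?_ (-1 - (q : ℤ)) ⟨0, by ring⟩ g⁻¹ (s (γ ^ (1 + (q : ℤ)))) hα hβ ?_ ?_ ?_
  · rw [Subgroup.coe_inv, Subgroup.coe_one, one_mul, one_mul]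
    have := h2' b⁻¹
    rw [Subgroup.coe_inv, inv_inv] at this
    rw [mul_assoc, hsg, this]
    group
  · intro h
    have h1 := congrArg π h
    rw [hπα, hπβ] at h1
    exact zp_ne hord (1 + (q : ℤ)) (-1) rfl (by linarith) (by linarith) h1.symm
  · intro h
    have h1 := congrArg π h
    rw [hπα, hπβ'] at h1
    exact zp_ne hord (-1) (-(1 + (q : ℤ))) rfl (by linarith) (by linarith) h1
  · intro e he
    rcases hEe e he with h | ⟨hx1, h⟩
    · rw [h]
      simp only
      have hπ := pi_ff (γ := γ) (q := q) π s hs false (σ b) (σ b)⁻¹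
      have hk : kap q false = 1 := rfl
      rw [hk] at hπ
      refine ⟨?_, ?_, ?_, ?_⟩
      · intro hh
        rw [hh, hπα] at hπ
        exact zp_ne hord 1 (-1) rfl (by norm_num) (by linarith) hπ.symm
      · intro hh
        unfold ff at hh
        rw [hk, zpow_one, Subgroup.coe_inv, inv_inv, inv_inv, hσc] at hh
        have e1 : g * (b : G) * g⁻¹ = (b : G)⁻¹ := by
          have e2 : g * (b : G) * g⁻¹ * s γ * (g * b * g⁻¹) = g * ((b : G) * (g * b * g⁻¹)) := by
            rw [← hg]; group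
          rw [e2] at hh
          have e3 : (b : G) * (g * b * g⁻¹) = 1 := by
            have : g * ((b : G) * (g * b * g⁻¹)) = g * 1 := by rw [hh, mul_one]
            exact mul_left_cancel this
          exact (eq_inv_of_mul_eq_one_right e3)
        have e4 : σ b = b⁻¹ := by
          apply Subtype.ext
          rw [hσc, e1, Subgroup.coe_inv]
        have e5 := hσ b
        rw [e4, map_inv, e4, inv_inv] at e5
        exact hbi e5.symm
      · intro hh
        rw [hh, hπβ] at hπ
        exact zp_ne hord (1 + (q : ℤ)) 1 rfl (by linarith) (by linarith) hπ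
      · intro hh
        rw [hh, hπβ'] at hπ
        exact zp_ne hord 1 (-(1 + (q : ℤ))) rfl (by linarith) (by linarith) hπ.symm
    · have hcol : ff π s γ q e.2.2 e.1 e.2.1 = (e.1 : G) * e.1 * g ^ (2 * (q : ℤ) - 1) := by
        rw [← hft e.1]
        rw [h]
      have hπ : π (ff π s γ q e.2.2 e.1 e.2.1) = γ ^ (2 * (q : ℤ) - 1) := by
        rw [hcol, map_mul, map_mul, hker, one_mul, one_mul, map_zpow, hg, hs]
      refine ⟨?_, ?_, ?_, ?_⟩
      · intro hh
        rw [hh, hπα] at hπ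
        exact zp_ne hord (2 * (q : ℤ) - 1) (-1) rfl (by linarith) (by linarith) hπ.symm
      · intro hh
        rw [hh, hπα'] at hπ
        exact zp_ne hord (2 * (q : ℤ) - 1) 1 rfl (by linarith) (by linarith) hπ.symm
      · intro hh
        rw [hh, hπβ] at hπ
        apply hx1
        rw [hcol, ← hsg, hπ] at hh
        have e6 : (e.1 : G) * e.1 = 1 := by simpa using hh
        exact hN _ (Subtype.ext e6)
      · intro hh
        rw [hh, hπβ'] at hπ
        exact zp_ne hord (2 * (q : ℤ) - 1) (-(1 + (q : ℤ))) rfl (by linarith) (by linarith) hπ.symm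

/-- split extensions of a nontrivial group of odd order by a nontrivial cyclic 2-group -/
theorem hasStarter_cyclic [Finite G] [Finite P] (π : G →* P) (s : P →* G)
    (hs : ∀ p, π (s p) = p) (hodd : Odd (Nat.card π.ker)) (h2 : IsPGroup 2 P)
    (hP1 : Nontrivial P) (hcyc : IsCyclic P) (hN : π.ker ≠ ⊥) : HasStarter G := by
  obtain ⟨γ, hγ⟩ := hcyc.exists_generator
  obtain ⟨t, ht⟩ := IsPGroup.iff_orderOf.1 h2 γ
  rcases Nat.lt_or_ge t 3 with h3 | h3
  · refine hasStarter_small π s hs hodd h2 hP1 ?_ ?_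
    · intro x
      obtain ⟨k, rfl⟩ := Subgroup.mem_zpowers_iff.1 (hγ x)
      have h4 : γ ^ (4 : ℤ) = 1 := by
        have h5 : orderOf γ ∣ 4 := by
          rw [ht, show (4 : ℕ) = 2 ^ 2 by norm_num]
          exact pow_dvd_pow 2 (by omega)
        have h6 := orderOf_dvd_iff_pow_eq_one.1 h5
        exact_mod_cast h6
      rw [← zpow_add, ← zpow_add]
      have : k + k + (k + k) = 4 * k := by ring
      rw [this, zpow_mul, h4, one_zpow]
    · intro x y
      obtain ⟨k, rfl⟩ := Subgroup.mem_zpowers_iff.1 (hγ x)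
      obtain ⟨l, rfl⟩ := Subgroup.mem_zpowers_iff.1 (hγ y)
      rw [← zpow_add, ← zpow_add, add_comm]
  · set q := 2 ^ (t - 2) with hqdef
    have hord : orderOf γ = 4 * q := by
      rw [ht, hqdef, show (4 : ℕ) = 2 ^ 2 by norm_num, ← pow_add]
      congr 1
      omega
    have hq : 2 ≤ q := by
      rw [hqdef]
      calc 2 = 2 ^ 1 := by norm_num
        _ ≤ 2 ^ (t - 2) := Nat.pow_le_pow_right (by norm_num) (by omega)
    have hqe : Even q := by
      rw [hqdef]
      exact (even_two).pow_of_ne_zero (by omega)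
    by_cases hall : ∀ c : π.ker,
        s (γ ^ (2 : ℤ)) * (c : G) * (s (γ ^ (2 : ℤ)))⁻¹ = (c : G)⁻¹
    · obtain ⟨b, hb⟩ := (Subgroup.ne_bot_iff_exists_ne_one).1 hN
      exact hasStarter_cycII π s hs hodd hq hqe hγ hord hall b hb
    · push Not at hall
      obtain ⟨c, hc⟩ := hall
      exact hasStarter_cycI π s hs hodd hq hqe hγ hord c hc

end

end Pool.Agent.Y346.ST
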